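import Pool.Agent.T33.Defs

/-! Project T33 (MP_9f27ff_nt), module Ana (size 3): block property of sequences modulo p ^ 3. -/

set_option autoImplicit false

namespace Pool.Agent.T33

open Finset

variable {p : ℕ}

theorem r3_cube : (p : R3 p) ^ 3 = 0 := by
  have h : ((p ^ 3 : ℕ) : R3 p) = 0 := ZMod.natCast_self _
  push_cast at h
  exact h

/-- PROOF. ZMod.coe_mul_inv_eq_one, coprime to p ^ 3. -/
theorem r3_inv (hp : p.Prime) {x : ℕ} (h : ¬ p ∣ x) : (x : R3 p) * (x : R3 p)⁻¹ = 1 := by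
  apply ZMod.coe_mul_inv_eq_one
  exact Nat.Coprime.pow_right 3 ((Nat.Prime.coprime_iff_not_dvd hp).2 h).symm

theorem r3_unit (hp : p.Prime) {x : ℕ} (h : ¬ p ∣ x) : IsUnit (x : R3 p) := by
  exact IsUnit.of_mul_eq_one _ (r3_inv hp h)

/-- an element with image 1 in ZMod p is 1 + p y. PROOF. x = (k : R3 p), p ∣ k - 1. -/
theorem r3_one_add (hp : p.Prime) {x : R3 p} (h : ZMod.castHom (Dvd.intro_left (p ^ 2) (pow_succ p 2).symm : p ∣ p ^ 3) (ZMod p) x = 1) :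
    ∃ y, x = 1 + p * y := by
  have : NeZero (p ^ 3) := ⟨pow_ne_zero 3 hp.ne_zero⟩
  have : NeZero p := ⟨hp.ne_zero⟩
  have hx : (((x.val : ℤ)) : R3 p) = x := by
    rw [Int.cast_natCast, ZMod.natCast_zmod_val]
  rw [← hx] at h
  rw [map_intCast] at h
  have h1 : (((x.val : ℤ) - 1 : ℤ) : ZMod p) = 0 := by
    rw [Int.cast_sub, h, Int.cast_one, sub_self]
  have h2 : (p : ℤ) ∣ (x.val : ℤ) - 1 := (ZMod.intCast_zmod_eq_zero_iff_dvd _ _).1 h1
  obtain ⟨c, hc⟩ := h2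
  refine ⟨(c : R3 p), ?_⟩
  rw [← hx]
  have h3 : (x.val : ℤ) = 1 + p * c := by linarith
  rw [h3]
  push_cast
  rfl

/-- PROOF. Fermat in ZMod p. -/
theorem r3_fermat (hp : p.Prime) {x : R3 p} (h : IsUnit x) : ∃ y, x ^ (p - 1) = 1 + p * y := by
  have : Fact p.Prime := ⟨hp⟩
  apply r3_one_add hp
  rw [map_pow]
  apply ZMod.pow_card_sub_one_eq_one
  exact (h.map (ZMod.castHom (Dvd.intro_left (p ^ 2) (pow_succ p 2).symm : p ∣ p ^ 3) (ZMod p))).ne_zero

theorem An.const (a : R3 p) : An p (fun _ => a) := by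
  exact ⟨a, 0, 0, fun m => by ring⟩

theorem An.cast (n : ℕ) : An p (fun m => ((n + m * p : ℕ) : R3 p)) := by
  exact ⟨n, 1, 0, fun m => by push_cast; ring⟩

theorem An.add {g h : ℕ → R3 p} (hg : An p g) (hh : An p h) : An p (fun m => g m + h m) := by
  obtain ⟨a0, a1, a2, ha⟩ := hg
  obtain ⟨b0, b1, b2, hb⟩ := hh
  exact ⟨a0 + b0, a1 + b1, a2 + b2, fun m => by simp only [ha, hb]; ring⟩

theorem An.mul {g h : ℕ → R3 p} (hg : An p g) (hh : An p h) : An p (fun m => g m * h m) := by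
  obtain ⟨a0, a1, a2, ha⟩ := hg
  obtain ⟨b0, b1, b2, hb⟩ := hh
  refine ⟨a0 * b0, a0 * b1 + a1 * b0, a0 * b2 + a1 * b1 + a2 * b0, fun m => ?_⟩
  simp only [ha, hb]
  have h3 : (p : R3 p) ^ 3 = 0 := r3_cube
  linear_combination ((m : R3 p) ^ 3 * (a1 * b2 + a2 * b1) + p * (m : R3 p) ^ 4 * a2 * b2) * h3

/-- PROOF. b := h 0 is the inverse of a0. With x := b (p m a1 + p^2 m^2 a2), x^3 = 0, h m = b (1 - x + x^2), x^2 = b^2 p^2 m^2 a1^2. -/
theorem An.inv {g h : ℕ → R3 p} (hg : An p g) (h1 : ∀ m, g m * h m = 1) : An p h := by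
  obtain ⟨a0, a1, a2, ha⟩ := hg
  have h0 : a0 * h 0 = 1 := by
    have := h1 0
    rw [ha 0] at this
    simpa using this
  have h3 : (p : R3 p) ^ 3 = 0 := r3_cube
  refine ⟨h 0, -(h 0 ^ 2 * a1), -(h 0 ^ 2 * a2) + h 0 ^ 3 * a1 ^ 2, fun m => ?_⟩
  generalize h 0 = b at *
  have h4 : g m * (b + p * m * (-(b ^ 2 * a1)) + p ^ 2 * m ^ 2 * (-(b ^ 2 * a2) + b ^ 3 * a1 ^ 2)) = 1 := by
    rw [ha m]
    linear_combination (1 - p * m * a1 * b + p ^ 2 * m ^ 2 * (-(a2 * b) + a1 ^ 2 * b ^ 2)) * h0 +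
      (m : R3 p) ^ 3 * (a1 * (-(b ^ 2 * a2) + b ^ 3 * a1 ^ 2) - a2 * b ^ 2 * a1 +
        p * m * a2 * (-(b ^ 2 * a2) + b ^ 3 * a1 ^ 2)) * h3
  have h5 := h1 m
  linear_combination (-(h m)) * h4 + (b + p * m * (-(b ^ 2 * a1)) + p ^ 2 * m ^ 2 * (-(b ^ 2 * a2) + b ^ 3 * a1 ^ 2)) * h5

/-- PROOF. Induction on n < p: there is g with An p g and c (n + m p) = c m * g m for all m. n = 0: g = 1. Step: g' m = (den (n+1+m p))⁻¹ * num (n+m p) * g m. The constant term of g is g 0 = c n (m = 0, c 0 = 1). -/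
theorem blk_rec (hp : p.Prime) {c num den : ℕ → R3 p} (hc0 : c 0 = 1) (h0 : ∀ m, c (m * p) = c m)
    (hnum : ∀ n, An p (fun m => num (n + m * p))) (hden : ∀ n, An p (fun m => den (n + m * p)))
    (hu : ∀ k, ¬ p ∣ k → IsUnit (den k)) (hr : ∀ k, den (k + 1) * c (k + 1) = num k * c k) : Blk p c := by
  have key : ∀ n, n < p → ∃ g : ℕ → R3 p, An p g ∧ ∀ m, c (n + m * p) = c m * g m := by
    intro n
    induction n with
    | zero =>
      intro _
      exact ⟨fun _ => 1, An.const 1, fun m => by rw [zero_add, h0 m, mul_one]⟩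
    | succ n ih =>
      intro hn
      obtain ⟨g, hg, hg'⟩ := ih (by omega)
      have hun : ∀ m, IsUnit (den (n + 1 + m * p)) := by
        intro m
        apply hu
        intro hd
        have h1 : p ∣ n + 1 := (Nat.dvd_add_left (Dvd.intro_left m rfl)).1 hd
        exact absurd (Nat.le_of_dvd (by omega) h1) (by omega)
      have hI : ∀ m, ∃ I, den (n + 1 + m * p) * I = 1 := fun m => (hun m).exists_right_inv
      choose I hI using hI
      have hIA : An p I := (hden (n + 1)).inv hI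
      refine ⟨fun m => I m * num (n + m * p) * g m, (hIA.mul (hnum n)).mul hg, fun m => ?_⟩
      have h1 := hr (n + m * p)
      have h2 : n + m * p + 1 = n + 1 + m * p := by ring
      rw [h2, hg' m] at h1
      have h3 := hI m
      calc c (n + 1 + m * p) = (den (n + 1 + m * p) * I m) * c (n + 1 + m * p) := by rw [h3, one_mul]
        _ = I m * (den (n + 1 + m * p) * c (n + 1 + m * p)) := by ring
        _ = I m * (num (n + m * p) * (c m * g m)) := by rw [h1]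
        _ = c m * (I m * num (n + m * p) * g m) := by ring
  have key2 : ∀ n, ∃ a1 a2 : R3 p, n < p → ∀ m : ℕ,
      c (n + m * p) = c m * (c n + p * m * a1 + p ^ 2 * m ^ 2 * a2) := by
    intro n
    by_cases hn : n < p
    · obtain ⟨g, ⟨a0, a1, a2, ha⟩, hg⟩ := key n hn
      refine ⟨a1, a2, fun _ m => ?_⟩
      have h1 : c n = a0 := by
        have := hg 0
        rw [ha 0, hc0, zero_mul, add_zero] at this
        rw [this]
        simp
      rw [hg m, ha m, h1]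
    · exact ⟨0, 0, fun h => absurd h hn⟩
  choose c1 c2 h12 using key2
  exact ⟨c1, c2, fun m n hn => h12 n hn m⟩

theorem Blk.mul {c d : ℕ → R3 p} (hc : Blk p c) (hd : Blk p d) : Blk p (fun n => c n * d n) := by
  obtain ⟨c1, c2, h⟩ := hc
  obtain ⟨d1, d2, h'⟩ := hd
  refine ⟨fun n => c n * d1 n + c1 n * d n, fun n => c n * d2 n + c1 n * d1 n + c2 n * d n,
    fun m n hn => ?_⟩
  simp only
  rw [h m n hn, h' m n hn]
  have h3 : (p : R3 p) ^ 3 = 0 := r3_cube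
  linear_combination c m * d m * ((m : R3 p) ^ 3 * (c1 n * d2 n + c2 n * d1 n) +
    p * (m : R3 p) ^ 4 * c2 n * d2 n) * h3

/-- PROOF. τ^(n + m p) = τ^m τ^n (τ^(p-1))^m, r3_fermat: (1 + p y)^m = 1 + m p y + (m (m-1) / 2) p^2 y^2, 2 is a unit (p is odd). -/
theorem Blk.geom (hp : p.Prime) (h2 : p ≠ 2) {τ : R3 p} (h : IsUnit τ) : Blk p (fun n => τ ^ n) := by
  obtain ⟨y, hy⟩ := r3_fermat hp h
  have h2p : ¬ p ∣ 2 := fun hd => h2 ((Nat.prime_dvd_prime_iff_eq hp Nat.prime_two).1 hd)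
  obtain ⟨t, ht⟩ : ∃ t : R3 p, 2 * t = 1 := ⟨_, by exact_mod_cast r3_inv hp h2p⟩
  have h3 : (p : R3 p) ^ 3 = 0 := r3_cube
  have key : ∀ m : ℕ, (1 + p * y) ^ m = 1 + p * m * y + t * ((m : R3 p) ^ 2 - m) * p ^ 2 * y ^ 2 := by
    intro m
    induction m with
    | zero => simp
    | succ m ih =>
      rw [pow_succ, ih]
      push_cast
      linear_combination (-(m : R3 p) * p ^ 2 * y ^ 2) * ht + (t * ((m : R3 p) ^ 2 - m) * y ^ 3) * h3
  refine ⟨fun n => τ ^ n * (y - t * p * y ^ 2), fun n => τ ^ n * (t * y ^ 2), fun m n _ => ?_⟩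
  simp only
  have hp1 : m * p = m + (p - 1) * m := by
    obtain ⟨k, hk⟩ := Nat.exists_eq_succ_of_ne_zero hp.ne_zero
    rw [hk]
    simp only [Nat.succ_eq_add_one, Nat.add_sub_cancel]
    ring
  rw [pow_add, hp1, pow_add, pow_mul, hy, key m]
  ring

end Pool.Agent.T33
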