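import Pool.Agent.T33.Defs

/-! Project T33 (MP_9f27ff_nt), module Lju (size 3): Ljunggren's congruence modulo p ^ 3. -/

set_option autoImplicit false

namespace Pool.Agent.T33

open Finset

variable {p : ℕ}

private def lju_W (p j : ℕ) : ℕ := ∏ i ∈ range (p - 1), (j * p + i + 1)

private theorem lju_fact (hp : 0 < p) (a : ℕ) : (p * a).factorial = p ^ a * a.factorial * ∏ j ∈ range a, lju_W p j := by
  induction a with
  | zero => simp
  | succ a ih =>
    have h1 : (p * (a + 1)).factorial = (p * a).factorial * ∏ i ∈ range p, (p * a + 1 + i) := by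
      rw [← Nat.ascFactorial_eq_prod_range, Nat.factorial_mul_ascFactorial]
      congr 1
    obtain ⟨q, hq⟩ : ∃ q, p = q + 1 := ⟨p - 1, by omega⟩
    have h2 : ∏ i ∈ range p, (p * a + 1 + i) = lju_W p a * (p * (a + 1)) := by
      rw [lju_W, hq, Finset.prod_range_succ]
      congr 1
      · apply Finset.prod_congr (by simp)
        intro i _
        ring
      · ring
    rw [h1, h2, ih, Finset.prod_range_succ, Nat.factorial_succ]
    ring

private theorem lju_p3 : (p : R3 p) ^ 3 = 0 := by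
  have h : ((p ^ 3 : ℕ) : R3 p) = 0 := ZMod.natCast_self _
  exact_mod_cast h

private theorem lju_inv (hp : p.Prime) {x : ℕ} (h : ¬ p ∣ x) : (x : R3 p) * (x : R3 p)⁻¹ = 1 := by
  apply ZMod.coe_mul_inv_eq_one
  exact (((Nat.Prime.coprime_iff_not_dvd hp).2 h).symm).pow_right 3

private theorem lju_cast (hp : p.Prime) {x : R3 p} (h : ZMod.castHom (dvd_pow_self p (by norm_num : 3 ≠ 0)) (ZMod p) x = 0) :
    (p : R3 p) ^ 2 * x = 0 := by
  have : NeZero (p ^ 3) := ⟨pow_ne_zero 3 hp.ne_zero⟩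
  have h1 : ((x.val : ℕ) : R3 p) = x := ZMod.natCast_zmod_val x
  rw [← h1, map_natCast] at h
  obtain ⟨k, hk⟩ := (ZMod.natCast_eq_zero_iff _ _).1 h
  rw [← h1, hk]
  push_cast
  have := lju_p3 (p := p)
  linear_combination (k : R3 p) * this

private theorem lju_sumsq (hp : p.Prime) (h5 : 5 ≤ p) {m : ℕ} (hm : p = 2 * m + 1) :
    ∑ x ∈ range m, (((x + 1 : ℕ) : ZMod p)⁻¹) ^ 2 = 0 := by
  have : Fact p.Prime := ⟨hp⟩
  have h2 : (2 : ZMod p) ≠ 0 := by
    intro h
    have h' : ((2 : ℕ) : ZMod p) = 0 := by exact_mod_cast h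
    have := Nat.le_of_dvd (by norm_num) ((ZMod.natCast_eq_zero_iff _ _).1 h')
    omega
  have e1 : ∑ x : ZMod p, (x⁻¹) ^ 2 = ∑ i ∈ range p, ((i : ZMod p)⁻¹) ^ 2 := by
    apply Finset.sum_nbij' (ZMod.val) (fun i => (i : ZMod p))
    · intro x _
      exact Finset.mem_range.2 (ZMod.val_lt x)
    · intro i _
      exact Finset.mem_univ _
    · intro x _
      exact ZMod.natCast_zmod_val x
    · intro i hi
      exact ZMod.val_cast_of_lt (Finset.mem_range.1 hi)
    · intro x _
      rw [ZMod.natCast_zmod_val]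
  have e3 : ∑ y : ZMod p, (y⁻¹) ^ 2 = ∑ y : ZMod p, y ^ 2 :=
    Fintype.sum_bijective (fun y : ZMod p => y⁻¹) (inv_involutive.bijective) _ _ (fun x => rfl)
  have e4 : ∑ y : ZMod p, y ^ 2 = 0 := by
    apply FiniteField.sum_pow_lt_card_sub_one
    rw [ZMod.card]
    omega
  have e5 : ∑ i ∈ range p, ((i : ZMod p)⁻¹) ^ 2 = 0 := by rw [← e1, e3, e4]
  have e6 : ∑ i ∈ range (m + m), (((i + 1 : ℕ) : ZMod p)⁻¹) ^ 2 = 0 := by
    have e7 : p = (m + m) + 1 := by omega
    have e8 : ∑ i ∈ range ((m + m) + 1), ((i : ZMod p)⁻¹) ^ 2 = 0 := by rw [← e7]; exact e5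
    rw [Finset.sum_range_succ'] at e8
    simpa using e8
  rw [Finset.sum_range_add] at e6
  have e9 : ∑ x ∈ range m, (((m + x + 1 : ℕ) : ZMod p)⁻¹) ^ 2 = ∑ x ∈ range m, (((x + 1 : ℕ) : ZMod p)⁻¹) ^ 2 := by
    rw [← Finset.sum_range_reflect (fun x => (((m + x + 1 : ℕ) : ZMod p)⁻¹) ^ 2) m]
    apply Finset.sum_congr rfl
    intro x hx
    have hx' := Finset.mem_range.1 hx
    have h3 : ((m + (m - 1 - x) + 1 : ℕ) : ZMod p) = -((x + 1 : ℕ) : ZMod p) := by
      rw [eq_neg_iff_add_eq_zero]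
      have h4 : (m + (m - 1 - x) + 1) + (x + 1) = p := by omega
      have h5 : (((m + (m - 1 - x) + 1) + (x + 1) : ℕ) : ZMod p) = 0 := by rw [h4]; exact ZMod.natCast_self p
      exact_mod_cast h5
    rw [h3, inv_neg, neg_sq]
  rw [e9] at e6
  have e10 : (2 : ZMod p) * ∑ x ∈ range m, (((x + 1 : ℕ) : ZMod p)⁻¹) ^ 2 = 0 := by rw [two_mul]; exact e6
  exact (mul_eq_zero.1 e10).resolve_left h2

private theorem lju_prodP (m : ℕ) (A B : ℕ → R3 p) (c : R3 p) (hw : ∀ i ∈ range m, A i * B i = 1) :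
    ∏ i ∈ range m, (A i + (p : R3 p) ^ 2 * c) =
      (∏ i ∈ range m, A i) * (1 + (p : R3 p) ^ 2 * c * ∑ i ∈ range m, B i) := by
  induction m with
  | zero => simp
  | succ m ih =>
    rw [Finset.prod_range_succ, Finset.prod_range_succ, Finset.sum_range_succ,
      ih (fun i hi => hw i (Finset.mem_range.2 (by have := Finset.mem_range.1 hi; omega)))]
    have h1 := hw m (Finset.mem_range.2 (Nat.lt_succ_self m))
    have h3 := lju_p3 (p := p)
    set P := ∏ i ∈ range m, A i
    set S := ∑ i ∈ range m, B i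
    linear_combination (-(P * (p : R3 p) ^ 2 * c)) * h1 + ((p : R3 p) * P * c ^ 2 * S) * h3

private theorem lju_Weq (hp : p.Prime) (h5 : 5 ≤ p) (j : ℕ) : (lju_W p j : R3 p) = (lju_W p 0 : R3 p) := by
  have hodd : p % 2 = 1 := hp.eq_two_or_odd.resolve_left (by omega)
  obtain ⟨m, hm⟩ : ∃ m, p = 2 * m + 1 := ⟨p / 2, by omega⟩
  have key : ∀ j : ℕ, (lju_W p j : R3 p) = ∏ x ∈ range m,
      (((((x + 1) * (p - (x + 1)) : ℕ)) : R3 p) + (p : R3 p) ^ 2 * ((j : R3 p) ^ 2 + j)) := by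
    intro j
    have e1 : p - 1 = m + m := by omega
    rw [lju_W, e1, Finset.prod_range_add]
    rw [← Finset.prod_range_reflect (fun x => j * p + (m + x) + 1) m, ← Finset.prod_mul_distrib]
    push_cast
    apply Finset.prod_congr rfl
    intro x hx
    have hx' := Finset.mem_range.1 hx
    have h3 : ((m - 1 - x : ℕ) : R3 p) = (m : R3 p) - 1 - x := by
      have h4 : (m - 1 - x) + (x + 1) = m := by omega
      have h6 : (((m - 1 - x) + (x + 1) : ℕ) : R3 p) = (m : R3 p) := by rw [h4]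
      push_cast at h6
      linear_combination h6
    have h7 : ((p - (x + 1) : ℕ) : R3 p) = (p : R3 p) - (x + 1) := by
      have h8 : x + 1 ≤ p := by omega
      push_cast [Nat.cast_sub h8]
      ring
    have h9 : (p : R3 p) = 2 * m + 1 := by
      have h10 := congrArg (Nat.cast : ℕ → R3 p) hm
      push_cast at h10
      exact h10
    rw [h3, h7]
    linear_combination (-(j : R3 p) * p - x - 1) * h9
  have hc : ∀ x ∈ range m, ¬ p ∣ (x + 1) * (p - (x + 1)) := by
    intro x hx hd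
    have hx' := Finset.mem_range.1 hx
    rcases (Nat.Prime.dvd_mul hp).1 hd with h | h
    · have := Nat.le_of_dvd (by omega) h
      omega
    · have := Nat.le_of_dvd (by omega) h
      omega
  have hS : (p : R3 p) ^ 2 * ∑ x ∈ range m, ((((x + 1) * (p - (x + 1)) : ℕ)) : R3 p)⁻¹ = 0 := by
    apply lju_cast hp
    rw [map_sum]
    have h0 : ∀ x ∈ range m, ZMod.castHom (dvd_pow_self p (by norm_num : 3 ≠ 0)) (ZMod p) ((((x + 1) * (p - (x + 1)) : ℕ)) : R3 p)⁻¹ =
        -(((x + 1 : ℕ) : ZMod p)⁻¹) ^ 2 := by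
      intro x hx
      have hx' := Finset.mem_range.1 hx
      have : Fact p.Prime := ⟨hp⟩
      have h1 := congrArg (ZMod.castHom (dvd_pow_self p (by norm_num : 3 ≠ 0)) (ZMod p)) (lju_inv hp (hc x hx))
      rw [map_mul, map_one, map_natCast] at h1
      have h2 : ((((x + 1) * (p - (x + 1)) : ℕ)) : ZMod p) = -((x + 1 : ℕ) : ZMod p) ^ 2 := by
        have h8 : x + 1 ≤ p := by omega
        rw [Nat.cast_mul, Nat.cast_sub h8, ZMod.natCast_self]
        ring
      rw [h2] at h1
      have h3 := eq_inv_of_mul_eq_one_right h1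
      rw [h3, inv_neg, inv_pow]
    rw [Finset.sum_congr rfl h0, Finset.sum_neg_distrib, lju_sumsq hp h5 hm, neg_zero]
  rw [key j, key 0, lju_prodP m _ _ _ (fun x hx => lju_inv hp (hc x hx)), lju_prodP m _ _ _ (fun x hx => lju_inv hp (hc x hx))]
  have h1 : ∀ c : R3 p, (p : R3 p) ^ 2 * c * ∑ x ∈ range m, ((((x + 1) * (p - (x + 1)) : ℕ)) : R3 p)⁻¹ = 0 := by
    intro c
    linear_combination c * hS
  rw [h1, h1]

theorem lju (hp : p.Prime) (h5 : 5 ≤ p) (a b : ℕ) : (((p * a).choose (p * b) : ℕ) : R3 p) = (a.choose b : R3 p) := by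
  rcases lt_or_ge a b with hab | hab
  · rw [Nat.choose_eq_zero_of_lt hab, Nat.choose_eq_zero_of_lt (Nat.mul_lt_mul_of_pos_left hab hp.pos)]
  have h1 := Nat.choose_mul_factorial_mul_factorial (Nat.mul_le_mul_left p hab)
  rw [← Nat.mul_sub, lju_fact hp.pos, lju_fact hp.pos, lju_fact hp.pos] at h1
  have h2 := Nat.choose_mul_factorial_mul_factorial hab
  have h3 : (p * a).choose (p * b) * ((∏ j ∈ range b, lju_W p j) * (∏ j ∈ range (a - b), lju_W p j)) =
      a.choose b * ∏ j ∈ range a, lju_W p j := by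
    have hpos : 0 < p ^ a * (b.factorial * (a - b).factorial) :=
      Nat.mul_pos (pow_pos hp.pos a) (Nat.mul_pos (Nat.factorial_pos _) (Nat.factorial_pos _))
    apply Nat.eq_of_mul_eq_mul_left hpos
    have h4 : p ^ a = p ^ b * p ^ (a - b) := by rw [← pow_add]; congr 1; omega
    calc p ^ a * (b.factorial * (a - b).factorial) * ((p * a).choose (p * b) * ((∏ j ∈ range b, lju_W p j) * (∏ j ∈ range (a - b), lju_W p j)))
        = (p * a).choose (p * b) * (p ^ b * b.factorial * ∏ j ∈ range b, lju_W p j) *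
          (p ^ (a - b) * (a - b).factorial * ∏ j ∈ range (a - b), lju_W p j) := by rw [h4]; ring
      _ = p ^ a * a.factorial * ∏ j ∈ range a, lju_W p j := h1
      _ = p ^ a * (a.choose b * b.factorial * (a - b).factorial) * ∏ j ∈ range a, lju_W p j := by rw [h2]
      _ = _ := by ring
  have h4 := congrArg (Nat.cast : ℕ → R3 p) h3
  push_cast at h4
  have h5' : ∀ n : ℕ, ∏ j ∈ range n, (lju_W p j : R3 p) = (lju_W p 0 : R3 p) ^ n := by
    intro n
    rw [Finset.prod_congr rfl (fun j _ => lju_Weq hp h5 j), Finset.prod_const, card_range]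
  rw [h5', h5', h5', ← pow_add, show b + (a - b) = a by omega] at h4
  have hu : IsUnit (lju_W p 0 : R3 p) := by
    have hnd : ¬ p ∣ lju_W p 0 := by
      intro hd
      rw [lju_W] at hd
      obtain ⟨i, hi, hd'⟩ := (Prime.dvd_finsetProd_iff (Nat.prime_iff.1 hp) _).1 hd
      have hi' := Finset.mem_range.1 hi
      have := Nat.le_of_dvd (by omega) hd'
      omega
    exact IsUnit.of_mul_eq_one _ (lju_inv hp hnd)
  exact (hu.pow a).mul_right_cancel h4

end Pool.Agent.T33
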