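import Pool.Agent.T33.Ana
import Pool.Agent.T33.Lju

/-! Project T33 (MP_9f27ff_nt), module Seq (size 3): the block property of the three sequences. -/

set_option autoImplicit false

namespace Pool.Agent.T33

open Finset

variable {p : ℕ}

theorem uu_rec (n : ℕ) : (n + 1) ^ 2 * uu (n + 1) = 4 * (2 * n + 1) ^ 2 * uu n := by
  have h := Nat.succ_mul_centralBinom_succ n
  rw [Nat.centralBinom, Nat.centralBinom] at h
  rw [uu, uu]
  calc (n + 1) ^ 2 * ((2 * (n + 1)).choose (n + 1)) ^ 2 = ((n + 1) * (2 * (n + 1)).choose (n + 1)) ^ 2 := by ring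
    _ = _ := by rw [h]; ring

theorem cB_rec (n : ℕ) : (n + 1) ^ 3 * cB (n + 1) = 8 * (2 * n + 1) ^ 3 * cB n := by
  have h := Nat.succ_mul_centralBinom_succ n
  rw [Nat.centralBinom, Nat.centralBinom] at h
  rw [cB, cB]
  calc (n + 1) ^ 3 * ((2 * (n + 1)).choose (n + 1)) ^ 3 = ((n + 1) * (2 * (n + 1)).choose (n + 1)) ^ 3 := by ring
    _ = _ := by rw [h]; ring

private theorem Seq_fact (n : ℕ) : cC n * (n.factorial ^ 3 * (3 * n).factorial) = (6 * n).factorial := by
  have h1 := Nat.choose_mul_factorial_mul_factorial (show n ≤ 2 * n by omega)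
  have h2 := Nat.choose_mul_factorial_mul_factorial (show n ≤ 3 * n by omega)
  have h3 := Nat.choose_mul_factorial_mul_factorial (show 3 * n ≤ 6 * n by omega)
  rw [show 2 * n - n = n by omega] at h1
  rw [show 3 * n - n = 2 * n by omega] at h2
  rw [show 6 * n - 3 * n = 3 * n by omega] at h3
  have h4 : (3 * n).choose n * n.factorial * ((2 * n).choose n * n.factorial * n.factorial) = (3 * n).factorial := by rw [h1, h2]
  calc cC n * (n.factorial ^ 3 * (3 * n).factorial)
      = (6 * n).choose (3 * n) * ((3 * n).choose n * n.factorial * ((2 * n).choose n * n.factorial * n.factorial)) * (3 * n).factorial := by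
        rw [cC]; ring
    _ = (6 * n).factorial := by rw [h4, h3]

theorem cC_rec (n : ℕ) : (n + 1) ^ 3 * cC (n + 1) = 24 * (2 * n + 1) * (6 * n + 1) * (6 * n + 5) * cC n := by
  have h1 := Seq_fact (n + 1)
  have h0 := Seq_fact n
  have e1 : (6 * (n + 1)).factorial = (6 * n + 6) * (6 * n + 5) * (6 * n + 4) * (6 * n + 3) * (6 * n + 2) * (6 * n + 1) * (6 * n).factorial := by
    rw [show 6 * (n + 1) = 6 * n + 5 + 1 by ring, Nat.factorial_succ, Nat.factorial_succ, Nat.factorial_succ, Nat.factorial_succ,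
      Nat.factorial_succ, Nat.factorial_succ]
    ring
  have e2 : (3 * (n + 1)).factorial = (3 * n + 3) * (3 * n + 2) * (3 * n + 1) * (3 * n).factorial := by
    rw [show 3 * (n + 1) = 3 * n + 2 + 1 by ring, Nat.factorial_succ, Nat.factorial_succ, Nat.factorial_succ]
    ring
  rw [e1, e2, Nat.factorial_succ, ← h0] at h1
  have hpos : 0 < (3 * n + 3) * (3 * n + 2) * (3 * n + 1) * (n.factorial ^ 3 * (3 * n).factorial) := by positivity
  apply Nat.eq_of_mul_eq_mul_left hpos
  calc (3 * n + 3) * (3 * n + 2) * (3 * n + 1) * (n.factorial ^ 3 * (3 * n).factorial) * ((n + 1) ^ 3 * cC (n + 1))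
      = cC (n + 1) * (((n + 1) * n.factorial) ^ 3 * ((3 * n + 3) * (3 * n + 2) * (3 * n + 1) * (3 * n).factorial)) := by ring
    _ = (6 * n + 6) * (6 * n + 5) * (6 * n + 4) * (6 * n + 3) * (6 * n + 2) * (6 * n + 1) * (cC n * (n.factorial ^ 3 * (3 * n).factorial)) := h1
    _ = _ := by ring

private theorem Seq_num (a b : ℕ) : ∀ n, An p (fun m => (((a * (n + m * p) + b : ℕ)) : R3 p)) := by
  intro n
  have h := An.add (An.mul (An.const (p := p) (a : R3 p)) (An.cast (p := p) n)) (An.const (p := p) (b : R3 p))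
  convert h using 2
  push_cast
  ring

private theorem Seq_an_pow {g : ℕ → R3 p} (hg : An p g) (e : ℕ) : An p (fun m => g m ^ e) := by
  induction e with
  | zero => simpa using An.const (p := p) 1
  | succ e ih =>
    have h := An.mul ih hg
    convert h using 2
    rw [pow_succ]

private theorem Seq_lju2 (hp : p.Prime) (h5 : 5 ≤ p) (m : ℕ) : (((2 * (m * p)).choose (m * p) : ℕ) : R3 p) = ((2 * m).choose m : ℕ) := by
  have h := lju hp h5 (2 * m) m
  rw [show 2 * (m * p) = p * (2 * m) by ring, show m * p = p * m by ring]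
  exact h

private theorem Seq_geom (hp : p.Prime) (h5 : 5 ≤ p) {c : ℕ → R3 p} (hc : Blk p c) {τ : R3 p} (h : IsUnit τ) : Blk p (fun n => c n * τ ^ n) :=
  Blk.mul hc (Blk.geom hp (by omega) h)

/-- PROOF (all three). lju gives c (m p) = c m; blk_rec with den k = k^2 (k^3), num k = 4 (2k+1)^2 etc.; Blk.mul with Blk.geom. -/
theorem blk_uu (hp : p.Prime) (h5 : 5 ≤ p) {τ : R3 p} (h : IsUnit τ) : Blk p (fun n => (uu n : R3 p) * τ ^ n) := by
  refine Seq_geom hp h5 (c := fun n => (uu n : R3 p)) ?_ h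
  refine blk_rec hp (c := fun n => (uu n : R3 p)) (num := fun k => 4 * ((2 * k + 1 : ℕ) : R3 p) ^ 2) (den := fun k => ((1 * k + 0 : ℕ) : R3 p) ^ 2) (by simp [uu]) ?_ ?_ ?_ ?_ ?_
  · intro m
    simp only [uu]
    push_cast
    rw [Seq_lju2 hp h5]
  · intro n
    exact An.mul (An.const 4) (Seq_an_pow (Seq_num 2 1 n) 2)
  · intro n
    exact Seq_an_pow (Seq_num 1 0 n) 2
  · intro k hk
    simpa using (r3_unit hp hk).pow 2
  · intro k
    have h := congrArg (Nat.cast : ℕ → R3 p) (uu_rec k)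
    push_cast at h ⊢
    linear_combination h

theorem blk_cB (hp : p.Prime) (h5 : 5 ≤ p) {τ : R3 p} (h : IsUnit τ) : Blk p (fun n => (cB n : R3 p) * τ ^ n) := by
  refine Seq_geom hp h5 (c := fun n => (cB n : R3 p)) ?_ h
  refine blk_rec hp (c := fun n => (cB n : R3 p)) (num := fun k => 8 * ((2 * k + 1 : ℕ) : R3 p) ^ 3) (den := fun k => ((1 * k + 0 : ℕ) : R3 p) ^ 3) (by simp [cB]) ?_ ?_ ?_ ?_ ?_
  · intro m
    simp only [cB]
    push_cast
    rw [Seq_lju2 hp h5]
  · intro n
    exact An.mul (An.const 8) (Seq_an_pow (Seq_num 2 1 n) 3)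
  · intro n
    exact Seq_an_pow (Seq_num 1 0 n) 3
  · intro k hk
    simpa using (r3_unit hp hk).pow 3
  · intro k
    have h := congrArg (Nat.cast : ℕ → R3 p) (cB_rec k)
    push_cast at h ⊢
    linear_combination h

theorem blk_cC (hp : p.Prime) (h5 : 5 ≤ p) {τ : R3 p} (h : IsUnit τ) : Blk p (fun n => (cC n : R3 p) * τ ^ n) := by
  refine Seq_geom hp h5 (c := fun n => (cC n : R3 p)) ?_ h
  refine blk_rec hp (c := fun n => (cC n : R3 p)) (num := fun k => 24 * ((2 * k + 1 : ℕ) : R3 p) * ((6 * k + 1 : ℕ) : R3 p) * ((6 * k + 5 : ℕ) : R3 p))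
    (den := fun k => ((1 * k + 0 : ℕ) : R3 p) ^ 3) (by simp [cC]) ?_ ?_ ?_ ?_ ?_
  · intro m
    simp only [cC]
    push_cast
    rw [Seq_lju2 hp h5]
    have h1 := lju hp h5 (3 * m) m
    have h2 := lju hp h5 (6 * m) (3 * m)
    rw [show 3 * (m * p) = p * (3 * m) by ring, show 6 * (m * p) = p * (6 * m) by ring, h2, show m * p = p * m by ring, h1]
  · intro n
    exact An.mul (An.mul (An.mul (An.const 24) (Seq_num 2 1 n)) (Seq_num 6 1 n)) (Seq_num 6 5 n)
  · intro n
    exact Seq_an_pow (Seq_num 1 0 n) 3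
  · intro k hk
    simpa using (r3_unit hp hk).pow 3
  · intro k
    have h := congrArg (Nat.cast : ℕ → R3 p) (cC_rec k)
    push_cast at h ⊢
    linear_combination h

theorem blk_uN (hp : p.Prime) (h5 : 5 ≤ p) : Blk p (uN p) := by
  have h32 : ¬ p ∣ 32 := by
    intro hd
    have : p ∣ 2 ^ 5 := by norm_num; exact hd
    have := Nat.le_of_dvd (by norm_num) (hp.dvd_of_dvd_pow this)
    omega
  have h := r3_inv hp h32
  have hu : IsUnit ((32 : R3 p)⁻¹) := by
    refine IsUnit.of_mul_eq_one ((32 : ℕ) : R3 p) ?_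
    rw [mul_comm]
    exact_mod_cast h
  exact blk_uu hp h5 hu

end Pool.Agent.T33
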