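import Pool.Agent.T33.Cla
import Pool.Agent.T33.Seq

/-! Project T33 (MP_9f27ff_nt), module IdB (size 4): the second identity. -/

set_option autoImplicit false

namespace Pool.Agent.T33

open Finset PowerSeries
open Pool.Agent.ADC (cmp theta)

private theorem IdB_th1 : theta (1 : ℚ⟦X⟧) = 0 := by
  have := Pool.Agent.ADC.theta_natCast (A := ℚ) 1
  simpa using this

private theorem IdB_thn (n : ℕ) [n.AtLeastTwo] : theta (OfNat.ofNat n : ℚ⟦X⟧) = 0 :=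
  Pool.Agent.ADC.theta_natCast (A := ℚ) n

private theorem IdB_thX2 : theta ((X : ℚ⟦X⟧) ^ 2) = 2 * X ^ 2 := by
  rw [Pool.Agent.ADC.theta_pow, Pool.Agent.ADC.theta_X]; push_cast; ring

private theorem IdB_thX3 : theta ((X : ℚ⟦X⟧) ^ 3) = 3 * X ^ 3 := by
  rw [Pool.Agent.ADC.theta_pow, Pool.Agent.ADC.theta_X]; push_cast; ring

private theorem IdB_thD : theta (1 - 16 * X + 256 * X ^ 2 : ℚ⟦X⟧) = -16 * X + 512 * X ^ 2 := by
  rw [Pool.Agent.ADC.theta_add, Pool.Agent.ADC.theta_sub, Pool.Agent.ADC.theta_mul, Pool.Agent.ADC.theta_mul,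
    IdB_thX2, Pool.Agent.ADC.theta_X, IdB_th1, IdB_thn, IdB_thn]
  ring

private theorem IdB_thU : theta (1 - 16 * X : ℚ⟦X⟧) = -16 * X := by
  rw [Pool.Agent.ADC.theta_sub, Pool.Agent.ADC.theta_mul, Pool.Agent.ADC.theta_X, IdB_th1, IdB_thn]
  ring

private theorem IdB_thN : theta (1 - 24 * X - 384 * X ^ 2 + 4096 * X ^ 3 : ℚ⟦X⟧) = -24 * X - 768 * X ^ 2 + 12288 * X ^ 3 := by
  rw [Pool.Agent.ADC.theta_add, Pool.Agent.ADC.theta_sub, Pool.Agent.ADC.theta_sub, Pool.Agent.ADC.theta_mul,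
    Pool.Agent.ADC.theta_mul, Pool.Agent.ADC.theta_mul, IdB_thX2, IdB_thX3, Pool.Agent.ADC.theta_X, IdB_th1, IdB_thn, IdB_thn,
    IdB_thn]
  ring

private theorem IdB_thd : theta (-4 * X + 128 * X ^ 2 : ℚ⟦X⟧) = -4 * X + 256 * X ^ 2 := by
  have e : (-4 * X + 128 * X ^ 2 : ℚ⟦X⟧) = 128 * X ^ 2 - 4 * X := by ring
  rw [e, Pool.Agent.ADC.theta_sub, Pool.Agent.ADC.theta_mul, Pool.Agent.ADC.theta_mul, IdB_thX2, Pool.Agent.ADC.theta_X,
    IdB_thn, IdB_thn]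
  ring

private theorem IdB_thinv {Q iQ : ℚ⟦X⟧} (h : Q * iQ = 1) : theta iQ = -(iQ ^ 2 * theta Q) := by
  have h1 : theta (Q * iQ) = 0 := by rw [h, IdB_th1]
  rw [Pool.Agent.ADC.theta_mul] at h1
  linear_combination iQ * h1 - theta iQ * h

/-- the seed sequence -/
private noncomputable def IdB_h : ℕ → ℚ
  | 0 => 1
  | n + 1 => ((n : ℚ) ^ 2 + n / 2 + 5 / 144) * IdB_h n / ((n : ℚ) + 1) ^ 2

private theorem IdB_hr (n : ℕ) : ((n : ℚ) + 1) ^ 2 * IdB_h (n + 1) = (n ^ 2 + n / 2 + 5 / 144) * IdB_h n := by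
  rw [IdB_h]
  have : ((n : ℚ) + 1) ≠ 0 := by positivity
  field_simp

private theorem IdB_Gr (n : ℕ) : ((n : ℚ) + 1) ^ 3 * ((cC (n + 1) : ℚ) * (1 / 1728) ^ (n + 1)) =
    (n ^ 2 + n + 4 * (5 / 144)) * (n + 1 / 2) * ((cC n : ℚ) * (1 / 1728) ^ n) := by
  have h := cC_rec n
  have h' : ((n : ℚ) + 1) ^ 3 * (cC (n + 1) : ℚ) = 24 * (2 * n + 1) * (6 * n + 1) * (6 * n + 5) * (cC n : ℚ) := by
    exact_mod_cast h
  rw [pow_succ]
  linear_combination ((1 / 1728 : ℚ) ^ n * (1 / 1728)) * h'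

/-- the algebraic identity, in a field -/
private theorem IdB_alg {F : Type} [Field F] [CharZero F] (x f f1 D U N : F) (hD : D ≠ 0) (hU : U ≠ 0) (hN : N ≠ 0)
    (eD : D = 1 - 16 * x + 256 * x ^ 2) (eU : U = 1 - 16 * x) (eN : N = 1 - 24 * x - 384 * x ^ 2 + 4096 * x ^ 3) :
    (1 - 1728 * (x ^ 2 * U ^ 2 * D⁻¹ ^ 3)) *
      (-16 * x * N⁻¹ * ((-4 * x + 128 * x ^ 2) * f + D * f1) +
        U * (-(N⁻¹ ^ 2 * (-24 * x - 768 * x ^ 2 + 12288 * x ^ 3))) * ((-4 * x + 128 * x ^ 2) * f + D * f1) +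
        U * N⁻¹ * ((-4 * x + 128 * x ^ 2) * D⁻¹) * ((-4 * x + 128 * x ^ 2) * f + D * f1) +
        U * N⁻¹ * ((-4 * x + 256 * x ^ 2) * f + (-4 * x + 128 * x ^ 2) * f1 + (-16 * x + 512 * x ^ 2) * f1 +
          D * (U⁻¹ * (16 * x * f1 + 4 * x * f)))) =
      2 * N * U⁻¹ * D⁻¹ * (1728 * (x ^ 2 * U ^ 2 * D⁻¹ ^ 3)) *
        (1 / 2 * (U * N⁻¹ * ((-4 * x + 128 * x ^ 2) * f + D * f1)) + 2 * (5 / 144) * f) := by
  have hN2 : D ^ 3 - 1728 * x ^ 2 * U ^ 2 = N ^ 2 := by rw [eD, eU, eN]; ring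
  have h1w : (1 - 1728 * (x ^ 2 * U ^ 2 * D⁻¹ ^ 3)) = N ^ 2 * D⁻¹ ^ 3 := by
    field_simp
    linear_combination hN2
  rw [h1w]
  field_simp
  subst eD eU eN
  ring

private theorem IdB_key {iD iU iN f f1 f2 : ℚ⟦X⟧} (hD : (1 - 16 * X + 256 * X ^ 2) * iD = 1) (hU : (1 - 16 * X) * iU = 1)
    (hN : (1 - 24 * X - 384 * X ^ 2 + 4096 * X ^ 3) * iN = 1) (hf : (1 - 16 * X) * f2 = 16 * X * f1 + 4 * X * f) :
    (1 - 1728 * (X ^ 2 * (1 - 16 * X) ^ 2 * iD ^ 3)) *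
      (-16 * X * iN * ((-4 * X + 128 * X ^ 2) * f + (1 - 16 * X + 256 * X ^ 2) * f1) +
        (1 - 16 * X) * (-(iN ^ 2 * (-24 * X - 768 * X ^ 2 + 12288 * X ^ 3))) *
          ((-4 * X + 128 * X ^ 2) * f + (1 - 16 * X + 256 * X ^ 2) * f1) +
        (1 - 16 * X) * iN * ((-4 * X + 128 * X ^ 2) * iD) * ((-4 * X + 128 * X ^ 2) * f + (1 - 16 * X + 256 * X ^ 2) * f1) +
        (1 - 16 * X) * iN * ((-4 * X + 256 * X ^ 2) * f + (-4 * X + 128 * X ^ 2) * f1 + (-16 * X + 512 * X ^ 2) * f1 +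
          (1 - 16 * X + 256 * X ^ 2) * f2)) =
      2 * (1 - 24 * X - 384 * X ^ 2 + 4096 * X ^ 3) * iU * iD * (1728 * (X ^ 2 * (1 - 16 * X) ^ 2 * iD ^ 3)) *
        (C (1 / 2) * ((1 - 16 * X) * iN * ((-4 * X + 128 * X ^ 2) * f + (1 - 16 * X + 256 * X ^ 2) * f1)) +
          2 * C (5 / 144) * f) := by
  have : CharZero ℚ⟦X⟧ := algebraRat.charZero _
  have : CharZero (FractionRing ℚ⟦X⟧) := charZero_of_injective_algebraMap (IsFractionRing.injective ℚ⟦X⟧ (FractionRing ℚ⟦X⟧))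
  apply IsFractionRing.injective ℚ⟦X⟧ (FractionRing ℚ⟦X⟧)
  set φ := algebraMap ℚ⟦X⟧ (FractionRing ℚ⟦X⟧) with hφ
  have hD' := congrArg φ hD
  have hU' := congrArg φ hU
  have hN' := congrArg φ hN
  have hf' := congrArg φ hf
  have e2 : φ (C (1 / 2)) = 1 / 2 := by
    have h : (C (1 / 2 : ℚ) : ℚ⟦X⟧) * 2 = 1 := by
      rw [← map_ofNat (C (R := ℚ)) 2, ← map_one (C (R := ℚ)), ← map_mul]; congr 1; norm_num
    have := congrArg φ h
    rw [map_mul, map_ofNat, map_one] at this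
    rw [eq_div_iff two_ne_zero]; exact this
  have e144 : φ (C (5 / 144)) = 5 / 144 := by
    have h : (C (5 / 144 : ℚ) : ℚ⟦X⟧) * 144 = 5 := by
      rw [← map_ofNat (C (R := ℚ)) 144, ← map_ofNat (C (R := ℚ)) 5, ← map_mul]; congr 1; norm_num
    have := congrArg φ h
    rw [map_mul, map_ofNat, map_ofNat] at this
    rw [eq_div_iff (by norm_num)]; exact this
  simp only [map_mul, map_add, map_sub, map_neg, map_pow, map_one, map_ofNat] at hD' hU' hN' hf' ⊢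
  rw [e2, e144]
  set x := φ X
  have hD0 := left_ne_zero_of_mul_eq_one hD'
  have hU0 := left_ne_zero_of_mul_eq_one hU'
  have hN0 := left_ne_zero_of_mul_eq_one hN'
  have iD' : φ iD = (1 - 16 * x + 256 * x ^ 2)⁻¹ := eq_inv_of_mul_eq_one_right hD'
  have iU' : φ iU = (1 - 16 * x)⁻¹ := eq_inv_of_mul_eq_one_right hU'
  have iN' : φ iN = (1 - 24 * x - 384 * x ^ 2 + 4096 * x ^ 3)⁻¹ := eq_inv_of_mul_eq_one_right hN'
  have f2' : φ f2 = (1 - 16 * x)⁻¹ * (16 * x * φ f1 + 4 * x * φ f) := by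
    rw [← hf']; field_simp
  rw [iD', iU', iN', f2']
  exact IdB_alg x (φ f) (φ f1) _ _ _ hD0 hU0 hN0 rfl rfl rfl

private theorem IdB_inv {Q : ℚ⟦X⟧} (h : constantCoeff Q = 1) : ∃ iQ : ℚ⟦X⟧, Q * iQ = 1 :=
  ⟨Q⁻¹, PowerSeries.mul_inv_cancel _ (by rw [h]; exact one_ne_zero)⟩

/-- PROOF. h with h 0 = 1, (n+1)^2 h (n+1) = (n^2 + n/2 + 5/144) h n; clausen with β = 5/144, G n = cC n / 1728^n (cC_rec). D := 1 - 16x + 256x^2, w := 1728 x^2 (1-16x)^2 / D^3. cmp cC (w/1728) = cmp h w ^ 2.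
R := root4 D (R^4 = D). Claim: cmp h w = R f, f = mk uu; then (cmp cC ..)^2 = R^4 f^4. ode2_unique with y = R f, κ = theta w / w = 2 - 32x/(1-16x) - 3 (-16x + 512x^2)/D, δ = theta D / (4D), y1 = κ⁻¹ R (δ f + f1).
theta y1 = κ⁻¹ R ((δ - theta κ/κ)(δ f + f1) + theta δ f + δ f1 + f2), f2 = v1 f1 + v0 f, v1 = 16x/(1-16x), v0 = 4x/(1-16x) (fQ_ode). With A := δ - theta κ/κ the condition is the two identities of rational functions (checked by computer)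
(1 - w)(A + δ + v1) = w κ / 2,   (1 - w)(A δ + theta δ + v0) = w κ (δ/2 + 5 κ/144).
Here κ (1-16x) D = 2 (1+16x) (1-8x) .. : multiply by units ((1-16x), D, numerator of κ have nonzero constant terms). 1 - w = (numerator)^2 / D^3 : D^3 - 1728 x^2 (1-16x)^2 = ((1+16x)(1-8x)(1-32x))^2 (check the factors by ring). -/
theorem idB {iD : ℚ⟦X⟧} (hD : (1 - 16 * X + 256 * X ^ 2) * iD = 1) :
    cmp (fun n => (cC n : ℚ)) (X ^ 2 * (1 - 16 * X) ^ 2 * iD ^ 3) ^ 2 = (1 - 16 * X + 256 * X ^ 2) * (PowerSeries.mk fun n => (uu n : ℚ)) ^ 4 := by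
  obtain ⟨iU, hU⟩ := IdB_inv (Q := 1 - 16 * X) (by simp)
  obtain ⟨iN, hN⟩ := IdB_inv (Q := 1 - 24 * X - 384 * X ^ 2 + 4096 * X ^ 3) (by simp)
  obtain ⟨R, hR0, hR4, hRt⟩ := root4 (Q := 1 - 16 * X + 256 * X ^ 2) (by simp)
  set f : ℚ⟦X⟧ := PowerSeries.mk fun n => (uu n : ℚ) with hf
  set f1 := theta f with hf1
  set f2 := theta f1 with hf2
  have hode : (1 - 16 * X) * f2 = 16 * X * f1 + 4 * X * f := by
    have := fQ_ode (uu := fun n => (uu n : ℚ)) (fun n => by exact_mod_cast uu_rec n)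
    exact this
  have hThD := IdB_thD
  have hiD := IdB_thinv hD
  have hiN := IdB_thinv hN
  rw [IdB_thD] at hiD
  rw [IdB_thN] at hiN
  -- the derivative of the fourth root
  have hR1 : theta R = (-4 * X + 128 * X ^ 2) * iD * R := by
    rw [IdB_thD] at hRt
    have : CharZero ℚ⟦X⟧ := algebraRat.charZero _
    have h4 : (4 : ℚ⟦X⟧) ≠ 0 := by norm_num
    apply mul_left_cancel₀ h4
    linear_combination iD * hRt - 4 * theta R * hD
  set w : ℚ⟦X⟧ := 1728 * (X ^ 2 * (1 - 16 * X) ^ 2 * iD ^ 3) with hw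
  have hXw : X ∣ w := ⟨1728 * (X * (1 - 16 * X) ^ 2 * iD ^ 3), by rw [hw]; ring⟩
  set κ : ℚ⟦X⟧ := 2 * (1 - 24 * X - 384 * X ^ 2 + 4096 * X ^ 3) * iU * iD with hκ
  have hzX : X ∣ (X ^ 2 * (1 - 16 * X) ^ 2 * iD ^ 3 : ℚ⟦X⟧) := ⟨(X * (1 - 16 * X) ^ 2 * iD ^ 3), by ring⟩
  have hCw : C (1 / 1728 : ℚ) * w = X ^ 2 * (1 - 16 * X) ^ 2 * iD ^ 3 := by
    rw [hw, ← mul_assoc, ← map_ofNat (C (R := ℚ)) 1728, ← map_mul]
    norm_num
  have hsq : cmp (fun n => (cC n : ℚ)) (X ^ 2 * (1 - 16 * X) ^ 2 * iD ^ 3) = cmp IdB_h w ^ 2 := by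
    rw [← hCw, ← cmp_scale _ _ hXw, sq, ← cmp_mul _ _ hXw]
    congr 1
    funext n
    refine (clausen (β := 5 / 144) (h := IdB_h) (G := fun n => (cC n : ℚ) * (1 / 1728) ^ n) ?_ ?_ IdB_hr IdB_Gr n).symm
    · rw [IdB_h]
    · simp [cC]
  have hthw : theta w = κ * w := by
    have e : w = 1728 * (X ^ 2 * ((1 - 16 * X) ^ 2 * iD ^ 3)) := by rw [hw]; ring
    have h1728 : theta (1728 : ℚ⟦X⟧) = 0 := IdB_thn 1728
    rw [e, Pool.Agent.ADC.theta_mul, Pool.Agent.ADC.theta_mul, Pool.Agent.ADC.theta_mul, IdB_thX2, h1728,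
      Pool.Agent.ADC.theta_pow, Pool.Agent.ADC.theta_pow, hiD, IdB_thU, hκ]
    push_cast
    have hU2 : (1 - 16 * X) ^ 2 * iU = (1 - 16 * X : ℚ⟦X⟧) := by linear_combination (1 - 16 * X) * hU
    linear_combination (-3456 * X ^ 2 * (1 - 16 * X) ^ 2 * iD ^ 3 + 3456 * 16 * X ^ 3 * (1 - 16 * X) * iD ^ 3) * hD
      - 1728 * X ^ 2 * iD ^ 4 * 2 * (1 - 24 * X - 384 * X ^ 2 + 4096 * X ^ 3) * hU2
  have hκ0 : constantCoeff κ ≠ 0 := by
    have h1 : constantCoeff iU = 1 := by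
      have := congrArg constantCoeff hU
      simpa using this
    have h2 : constantCoeff iD = 1 := by
      have := congrArg constantCoeff hD
      simpa using this
    rw [hκ]
    have h3 : constantCoeff (2 : ℚ⟦X⟧) = 2 := map_ofNat constantCoeff 2
    simp [h1, h2, h3]
  set g : ℚ⟦X⟧ := (-4 * X + 128 * X ^ 2) * f + (1 - 16 * X + 256 * X ^ 2) * f1 with hg
  have hgt : theta g = (-4 * X + 256 * X ^ 2) * f + (-4 * X + 128 * X ^ 2) * f1 + (-16 * X + 512 * X ^ 2) * f1 +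
      (1 - 16 * X + 256 * X ^ 2) * f2 := by
    rw [hg, Pool.Agent.ADC.theta_add, Pool.Agent.ADC.theta_mul, Pool.Agent.ADC.theta_mul, IdB_thD, IdB_thd]
    ring
  have hy0 : constantCoeff (R * f) = 1 := by
    rw [map_mul, hR0, one_mul, hf]
    simp [uu]
  have hy : theta (R * f) = κ * (C (1 / 2) * ((1 - 16 * X) * iN * g) * R) := by
    have e2 : (2 : ℚ⟦X⟧) * C (1 / 2) = 1 := by
      rw [← map_ofNat (C (R := ℚ)) 2, ← map_mul]
      norm_num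
    rw [Pool.Agent.ADC.theta_mul, hR1, hκ, ← hf1]
    linear_combination (-R * iD * g * (1 - 24 * X - 384 * X ^ 2 + 4096 * X ^ 3) * iU * iN * (1 - 16 * X)) * e2
      - (R * iD * g * iN * (1 - 24 * X - 384 * X ^ 2 + 4096 * X ^ 3)) * hU - R * iD * g * hN
      - R * f1 * hD
  have hkey := IdB_key hD hU hN hode
  have hyw : R * f = cmp IdB_h w := by
    refine ode2_unique (β := 5 / 144) (by rw [IdB_h]) IdB_hr hXw hthw hκ0 hy0 hy ?_
    rw [Pool.Agent.ADC.theta_mul, Pool.Agent.ADC.theta_mul, Pool.Agent.ADC.theta_C, Pool.Agent.ADC.theta_mul,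
      Pool.Agent.ADC.theta_mul, IdB_thU, hiN, hgt, hR1]
    have e2 : (2 : ℚ⟦X⟧) * C (1 / 2) = 1 := by
      rw [← map_ofNat (C (R := ℚ)) 2, ← map_mul]
      norm_num
    linear_combination (C (1 / 2) * R) * hkey + κ * w * C (5 / 144) * R * f * e2
  rw [hsq, ← hyw, ← hR4]
  ring

end Pool.Agent.T33
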