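import Pool.Agent.T33.Cla
import Pool.Agent.T33.Seq

/-! Project T33 (MP_9f27ff_nt), module IdC (size 4): the third identity. -/

set_option autoImplicit false

namespace Pool.Agent.T33

open Finset PowerSeries
open Pool.Agent.ADC (cmp theta)

private theorem IdC_thn (n : ℕ) [n.AtLeastTwo] : theta (ofNat(n) : ℚ⟦X⟧) = 0 := by
  have h := Pool.Agent.ADC.theta_natCast (A := ℚ) (OfNat.ofNat n)
  simpa using h

private theorem IdC_th1 : theta (1 : ℚ⟦X⟧) = 0 := by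
  simpa using Pool.Agent.ADC.theta_natCast (A := ℚ) 1

/-- auxiliary recursion -/
private def IdC_h : ℕ → ℚ
  | 0 => 1
  | n + 1 => (((n : ℚ) ^ 2 + n / 2 + 5 / 144) / ((n : ℚ) + 1) ^ 2) * IdC_h n

private theorem IdC_hrec (n : ℕ) :
    ((n : ℚ) + 1) ^ 2 * IdC_h (n + 1) = (n ^ 2 + n / 2 + 5 / 144) * IdC_h n := by
  rw [IdC_h]
  have h : ((n : ℚ) + 1) ≠ 0 := by positivity
  field_simp

private theorem IdC_thX2 : theta (X ^ 2 : ℚ⟦X⟧) = 2 * X ^ 2 := by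
  rw [sq, Pool.Agent.ADC.theta_mul, Pool.Agent.ADC.theta_X]
  ring

private theorem IdC_thX3 : theta (X ^ 3 : ℚ⟦X⟧) = 3 * X ^ 3 := by
  rw [pow_succ, Pool.Agent.ADC.theta_mul, Pool.Agent.ADC.theta_X, IdC_thX2]
  ring

private theorem IdC_thnX (n : ℕ) [n.AtLeastTwo] (f : ℚ⟦X⟧) :
    theta (ofNat(n) * f : ℚ⟦X⟧) = ofNat(n) * theta f := by
  rw [Pool.Agent.ADC.theta_mul, IdC_thn]
  ring

private theorem IdC_pow (f t : ℚ⟦X⟧) (h : theta f = t * f) (n : ℕ) :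
    theta (f ^ n) = (n : ℚ⟦X⟧) * t * f ^ n := by
  induction n with
  | zero => simpa using IdC_th1
  | succ n ih =>
    rw [pow_succ, Pool.Agent.ADC.theta_mul, ih, h]
    push_cast
    ring

/-- PROOF. h with h 0 = 1, (n+1)^2 h (n+1) = (n^2 + n/2 + 5/144) h n; clausen with β = 5/144, G n = cC n / 1728^n (cC_rec). D := 1 + 224x + 256x^2, w := 1728 x (1-16x)^4 / D^3. cmp cC (w/1728) = cmp h w ^ 2.
R := root4 D (R^4 = D). Claim: cmp h w = R f, f = mk uu; then (cmp cC ..)^2 = R^4 f^4. ode2_unique with y = R f, κ = theta w / w = 1 - 64x/(1-16x) - 3 (224x + 512x^2)/D, δ = theta D / (4D), y1 = κ⁻¹ R (δ f + f1).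
theta y1 = κ⁻¹ R ((δ - theta κ/κ)(δ f + f1) + theta δ f + δ f1 + f2), f2 = v1 f1 + v0 f, v1 = 16x/(1-16x), v0 = 4x/(1-16x) (fQ_ode). With A := δ - theta κ/κ the condition is the two identities of rational functions (checked by computer)
(1 - w)(A + δ + v1) = w κ / 2,   (1 - w)(A δ + theta δ + v0) = w κ (δ/2 + 5 κ/144).
Here N := (1+16x)(1-544x+256x^2) = 1 - 528x - 8448x^2 + 4096x^3 satisfies κ (1-16x) D = N and D^3 - 1728 x (1-16x)^4 = N^2, so 1 - w = N^2/D^3. Multiply by units ((1-16x), D, N have constant term 1). -/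
theorem idC {iD : ℚ⟦X⟧} (hD : (1 + 224 * X + 256 * X ^ 2) * iD = 1) :
    cmp (fun n => (cC n : ℚ)) (X * (1 - 16 * X) ^ 4 * iD ^ 3) ^ 2 = (1 + 224 * X + 256 * X ^ 2) * (PowerSeries.mk fun n => (uu n : ℚ)) ^ 4 := by
  -- the polynomials
  obtain ⟨s, hs⟩ : ∃ s : ℚ⟦X⟧, s = 1 - 16 * X := ⟨_, rfl⟩
  obtain ⟨D, hDd⟩ : ∃ D : ℚ⟦X⟧, D = 1 + 224 * X + 256 * X ^ 2 := ⟨_, rfl⟩
  obtain ⟨N, hN⟩ : ∃ N : ℚ⟦X⟧, N = 1 - 528 * X - 8448 * X ^ 2 + 4096 * X ^ 3 := ⟨_, rfl⟩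
  obtain ⟨E, hE⟩ : ∃ E : ℚ⟦X⟧, E = 56 * X + 128 * X ^ 2 := ⟨_, rfl⟩
  obtain ⟨tE, htE⟩ : ∃ tE : ℚ⟦X⟧, tE = 56 * X + 256 * X ^ 2 := ⟨_, rfl⟩
  obtain ⟨tN, htN⟩ : ∃ tN : ℚ⟦X⟧, tN = -(528 * X) - 16896 * X ^ 2 + 12288 * X ^ 3 := ⟨_, rfl⟩
  have I0 : D ^ 3 - 1728 * X * s ^ 4 = N ^ 2 := by subst hs hDd hN; ring
  have I1 : -(D * tN) + 6 * N * E = 864 * X * s ^ 3 := by subst hs hDd hN hE htN; ring
  have I2 : -(16 * X * N * D * E) - s * D * tN * E + s * N * D * tE + s * N * E ^ 2 + 4 * X * N * D ^ 2 =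
      864 * X * s ^ 4 * E + 60 * X * s ^ 3 * N := by subst hs hDd hN hE htN htE; ring
  have I3 : s * D - 64 * X * D - 12 * E * s = N := by subst hs hDd hN hE; ring
  have ths : theta s = -(16 * X) := by
    subst hs
    rw [Pool.Agent.ADC.theta_sub, IdC_th1, IdC_thnX, Pool.Agent.ADC.theta_X]
    ring
  have thD : theta D = 4 * E := by
    subst hDd hE
    rw [Pool.Agent.ADC.theta_add, Pool.Agent.ADC.theta_add, IdC_th1, IdC_thnX, IdC_thnX,
      Pool.Agent.ADC.theta_X, IdC_thX2]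
    ring
  have thE : theta E = tE := by
    subst hE htE
    rw [Pool.Agent.ADC.theta_add, IdC_thnX, IdC_thnX, Pool.Agent.ADC.theta_X, IdC_thX2]
    ring
  have thN : theta N = tN := by
    subst hN htN
    rw [Pool.Agent.ADC.theta_add, Pool.Agent.ADC.theta_sub, Pool.Agent.ADC.theta_sub, IdC_th1,
      IdC_thnX, IdC_thnX, IdC_thnX, Pool.Agent.ADC.theta_X, IdC_thX2, IdC_thX3]
    ring
  have cs : constantCoeff s = 1 := by subst hs; simp
  have cD : constantCoeff D = 1 := by subst hDd; simp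
  have cN : constantCoeff N = 1 := by subst hN; simp
  rw [← hDd] at hD ⊢
  rw [← hs]
  -- inverses
  have hiS : s * s⁻¹ = 1 := PowerSeries.mul_inv_cancel s (by rw [cs]; exact one_ne_zero)
  have hiN : N * N⁻¹ = 1 := PowerSeries.mul_inv_cancel N (by rw [cN]; exact one_ne_zero)
  obtain ⟨iS, hiSd⟩ : ∃ iS : ℚ⟦X⟧, iS = s⁻¹ := ⟨_, rfl⟩
  obtain ⟨iN, hiNd⟩ : ∃ iN : ℚ⟦X⟧, iN = N⁻¹ := ⟨_, rfl⟩
  rw [← hiSd] at hiS
  rw [← hiNd] at hiN
  have thiN : theta iN = -(iN ^ 2 * tN) := by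
    have h1 : theta (N * iN) = 0 := by rw [hiN]; exact IdC_th1
    rw [Pool.Agent.ADC.theta_mul, thN] at h1
    linear_combination iN * h1 - theta iN * hiN
  have thiD : theta iD = -(iD ^ 2 * (4 * E)) := by
    have h1 : theta (D * iD) = 0 := by rw [hD]; exact IdC_th1
    rw [Pool.Agent.ADC.theta_mul, thD] at h1
    linear_combination iD * h1 - theta iD * hD
  have ciD : constantCoeff iD = 1 := by
    have h1 := congrArg constantCoeff hD
    rw [map_mul, cD, one_mul, map_one] at h1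
    exact h1
  have ciS : constantCoeff iS = 1 := by
    have h1 := congrArg constantCoeff hiS
    rw [map_mul, cs, one_mul, map_one] at h1
    exact h1
  obtain ⟨R, hR0, hR4, hRt⟩ := root4 cD
  rw [thD] at hRt
  have thR : theta R = E * iD * R := by
    have h4 : (4 : ℚ⟦X⟧) * (D * theta R - E * R) = 0 := by linear_combination hRt
    have h5 : D * theta R - E * R = 0 := by
      rcases mul_eq_zero.1 h4 with h | h
      · exfalso
        have h6 := congrArg constantCoeff h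
        have h7 : constantCoeff (4 : ℚ⟦X⟧) = (4 : ℚ) := map_ofNat _ 4
        rw [h7, map_zero] at h6
        norm_num at h6
      · exact h
    linear_combination iD * h5 - theta R * hD
  obtain ⟨f, hf⟩ : ∃ f : ℚ⟦X⟧, f = PowerSeries.mk fun n => (uu n : ℚ) := ⟨_, rfl⟩
  have hfode := fQ_ode (uu := fun n => (uu n : ℚ)) (by
    intro n
    have := uu_rec n
    exact_mod_cast this)
  rw [← hf, ← hs] at hfode
  rw [← hf]
  obtain ⟨f1, hf1⟩ : ∃ f1 : ℚ⟦X⟧, f1 = theta f := ⟨_, rfl⟩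
  obtain ⟨f2, hf2⟩ : ∃ f2 : ℚ⟦X⟧, f2 = theta f1 := ⟨_, rfl⟩
  rw [← hf1, ← hf2] at hfode
  have cf : constantCoeff f = 1 := by
    rw [hf, ← coeff_zero_eq_constantCoeff_apply, coeff_mk]
    simp [uu]
  -- the argument
  obtain ⟨w, hw⟩ : ∃ w : ℚ⟦X⟧, w = 1728 * X * s ^ 4 * iD ^ 3 := ⟨_, rfl⟩
  have hXw : X ∣ w := ⟨1728 * s ^ 4 * iD ^ 3, by rw [hw]; ring⟩
  have hs4 : theta (s ^ 4) = 4 * (-(16 * X) * iS) * s ^ 4 := by
    have h1 := IdC_pow s (-(16 * X) * iS) (by rw [ths]; linear_combination (16 * X) * hiS) 4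
    simpa using h1
  have hD3 : theta (iD ^ 3) = 3 * (-(4 * E * iD)) * iD ^ 3 := by
    have h1 := IdC_pow iD (-(4 * E * iD)) (by rw [thiD]; ring) 3
    simpa using h1
  have hκ : theta w = (N * iS * iD) * w := by
    have h1 : theta w = (1 - 64 * X * iS - 12 * E * iD) * w := by
      rw [hw, Pool.Agent.ADC.theta_mul, Pool.Agent.ADC.theta_mul, IdC_thnX, Pool.Agent.ADC.theta_X, hs4, hD3]
      ring
    have h2 : (1 - 64 * X * iS - 12 * E * iD : ℚ⟦X⟧) = N * iS * iD := by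
      rw [← I3]
      linear_combination (-(D * iD)) * hiS - hD + 64 * X * iS * hD + 12 * E * iD * hiS
    rw [h1, h2]
  have hy : theta (R * f) = (N * iS * iD) * (s * iN * R * (E * f + D * f1)) := by
    rw [Pool.Agent.ADC.theta_mul, thR, ← hf1]
    linear_combination (-(s * iS * iD * R * (E * f + D * f1))) * hiN - (iD * R * (E * f + D * f1)) * hiS - R * f1 * hD
  have hth1 : theta (s * iN * R * (E * f + D * f1)) = -(16 * X) * iN * R * (E * f + D * f1) -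
      s * iN ^ 2 * tN * R * (E * f + D * f1) + s * iN * (E * iD * R) * (E * f + D * f1) +
      s * iN * R * (tE * f + 5 * E * f1 + D * f2) := by
    rw [Pool.Agent.ADC.theta_mul, Pool.Agent.ADC.theta_mul, Pool.Agent.ADC.theta_mul, Pool.Agent.ADC.theta_add,
      Pool.Agent.ADC.theta_mul, Pool.Agent.ADC.theta_mul, ths, thiN, thR, thE, thD, ← hf1, ← hf2]
    ring
  have h1w : 1 - w = N ^ 2 * iD ^ 3 := by
    rw [hw, ← I0]
    have h3 : D ^ 3 * iD ^ 3 = 1 := by rw [← mul_pow, hD, one_pow]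
    linear_combination -h3
  have hc2 : (C (1 / 2 : ℚ) : ℚ⟦X⟧) * 2 = 1 := by
    have h1 : (2 : ℚ⟦X⟧) = C (2 : ℚ) := (map_ofNat (C (R := ℚ)) 2).symm
    rw [h1, ← map_mul]
    norm_num
  have hc3 : (C (5 / 144 : ℚ) : ℚ⟦X⟧) * 1728 = 60 := by
    have h1 : (1728 : ℚ⟦X⟧) = C (1728 : ℚ) := (map_ofNat (C (R := ℚ)) 1728).symm
    have h2 : (60 : ℚ⟦X⟧) = C (60 : ℚ) := (map_ofNat (C (R := ℚ)) 60).symm
    rw [h1, h2, ← map_mul]
    norm_num
  obtain ⟨c2, hc2d⟩ : ∃ c2 : ℚ⟦X⟧, c2 = C (1 / 2 : ℚ) := ⟨_, rfl⟩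
  obtain ⟨c3, hc3d⟩ : ∃ c3 : ℚ⟦X⟧, c3 = C (5 / 144 : ℚ) := ⟨_, rfl⟩
  have hmain : (1 - w) * theta (s * iN * R * (E * f + D * f1)) =
      (N * iS * iD) * w * (C (1 / 2) * (s * iN * R * (E * f + D * f1)) + C (5 / 144) * (R * f)) := by
    rw [h1w, hth1, ← hc2d, ← hc3d]
    rw [← hc2d] at hc2
    rw [← hc3d] at hc3
    have e1 : (N * iS * iD) * w = 1728 * X * N * s ^ 3 * iD ^ 4 := by
      rw [hw]
      linear_combination (1728 * X * N * s ^ 3 * iD ^ 4) * hiS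
    rw [e1]
    have e2 : N ^ 2 * (-(16 * X) * iN * R * (E * f + D * f1) -
      s * iN ^ 2 * tN * R * (E * f + D * f1) + s * iN * (E * iD * R) * (E * f + D * f1) +
      s * iN * R * (tE * f + 5 * E * f1 + D * f2)) =
      -(16 * X) * N * R * (E * f + D * f1) -
      s * tN * R * (E * f + D * f1) + s * N * (E * iD * R) * (E * f + D * f1) +
      s * N * R * (tE * f + 5 * E * f1 + D * f2) := by
      linear_combination (-(16 * X) * N * R * (E * f + D * f1) - s * tN * R * (E * f + D * f1) * (N * iN + 1) +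
        s * N * (E * iD * R) * (E * f + D * f1) + s * N * R * (tE * f + 5 * E * f1 + D * f2)) * hiN
    have e3 : -(16 * X) * N * D * R * (E * f + D * f1) - s * D * tN * R * (E * f + D * f1) +
      s * N * E * R * (E * f + D * f1) + s * N * D * R * (tE * f + 5 * E * f1 + D * f2) =
      864 * X * s ^ 4 * R * (E * f + D * f1) + 60 * X * s ^ 3 * N * R * f := by
      linear_combination (R * s * D * f1) * I1 + (R * f) * I2 + (R * N * D ^ 2) * hfode
    have e4 : (1728 * X * N * s ^ 3 * iD ^ 4) * (c2 * (s * iN * R * (E * f + D * f1)) + c3 * (R * f)) =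
      iD ^ 4 * (864 * X * s ^ 4 * R * (E * f + D * f1) + 60 * X * s ^ 3 * N * R * f) := by
      linear_combination (864 * X * N * s ^ 4 * iD ^ 4 * iN * R * (E * f + D * f1)) * hc2 +
        (X * N * s ^ 3 * iD ^ 4 * R * f) * hc3 + (864 * X * s ^ 4 * iD ^ 4 * R * (E * f + D * f1)) * hiN
    rw [e4, ← e3, mul_assoc, mul_comm (iD ^ 3), ← mul_assoc, e2]
    linear_combination (-(iD ^ 3 * (-(16 * X) * N * R * (E * f + D * f1) - s * tN * R * (E * f + D * f1) +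
      s * N * R * (tE * f + 5 * E * f1 + D * f2)))) * hD
  have hcm : R * f = cmp IdC_h w :=
    ode2_unique (β := 5 / 144) (h := IdC_h) rfl IdC_hrec hXw hκ
      (by rw [map_mul, map_mul, cN, ciS, ciD]; norm_num)
      (by rw [map_mul, hR0, cf, one_mul]) hy hmain
  -- Clausen
  have hG0 : (cC 0 : ℚ) / 1728 ^ 0 = 1 := by simp [cC]
  have hcl := clausen (β := 5 / 144) (h := IdC_h) (G := fun n => (cC n : ℚ) / 1728 ^ n) rfl hG0 IdC_hrec (by
    intro n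
    have h1 := cC_rec n
    have h2 : ((n : ℚ) + 1) ^ 3 * (cC (n + 1) : ℚ) = 24 * (2 * n + 1) * (6 * n + 1) * (6 * n + 5) * cC n := by
      exact_mod_cast h1
    have h3 : ((1728 : ℚ) ^ (n + 1))⁻¹ = ((1728 : ℚ) ^ n)⁻¹ / 1728 := by
      rw [pow_succ, mul_inv, div_eq_mul_inv]
    have h4 : (cC (n + 1) : ℚ) / 1728 ^ (n + 1) = cC (n + 1) * (((1728 : ℚ) ^ n)⁻¹ / 1728) := by
      rw [div_eq_mul_inv, h3]
    have h5 : (cC n : ℚ) / 1728 ^ n = cC n * ((1728 : ℚ) ^ n)⁻¹ := div_eq_mul_inv _ _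
    rw [h4, h5]
    generalize ((1728 : ℚ) ^ n)⁻¹ = q
    linear_combination (q / 1728) * h2)
  have hcm2 : cmp (fun n => (cC n : ℚ)) (X * s ^ 4 * iD ^ 3) = cmp IdC_h w ^ 2 := by
    have hXz : X ∣ (X * s ^ 4 * iD ^ 3 : ℚ⟦X⟧) := ⟨s ^ 4 * iD ^ 3, by ring⟩
    have h1 := cmp_scale (fun n => (cC n : ℚ) / 1728 ^ n) (1728 : ℚ) hXz
    have h2 : (fun n => (cC n : ℚ) / 1728 ^ n * 1728 ^ n) = fun n => (cC n : ℚ) := by
      funext n
      field_simp
    have h3 : (C (1728 : ℚ) : ℚ⟦X⟧) * (X * s ^ 4 * iD ^ 3) = w := by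
      have h4 : (1728 : ℚ⟦X⟧) = C (1728 : ℚ) := (map_ofNat (C (R := ℚ)) 1728).symm
      rw [hw, ← h4]
      ring
    rw [h2, h3] at h1
    rw [h1, sq, ← cmp_mul IdC_h IdC_h hXw]
    congr 1
    funext n
    exact (hcl n).symm
  rw [hcm2, ← hcm, ← hR4]
  ring

end Pool.Agent.T33
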