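import Pool.Agent.T33.IdA
import Pool.Agent.T33.IdB
import Pool.Agent.T33.IdC

/-! Project T33 (MP_9f27ff_nt), module IdG (size 3): the identities over the integers modulo p ^ 3, in the normalized variable.

PROOF. Over ℤ: the inverse iD exists (constant term 1), PowerSeries.map (Int.castRingHom ℚ) is injective, cmp_map; this gives idA, idB, idC over ℤ, then over R3 p by mapping (iD goes to an inverse, inverses are unique).
Then PowerSeries.rescale (32⁻¹) (ring homomorphism, X ↦ C 32⁻¹ * X): cmp_rescale, cmp_scale; rescale (mk uu) = fF p. 32 is a unit (p ≥ 5).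
A: 32⁻¹ X (1 - 16 * 32⁻¹ X) = 64⁻¹ X (2 - X). B: 1 - 16 x + 256 x^2 at x = X/32 is (4 - 2X + X^2)/4, and x^2 (1-16x)^2 D^-3 = (1/4096) X^2 (2-X)^2 64 (4-2X+X^2)^-3 = (1/1728) * 27 X^2 (2-X)^2 (4-2X+X^2)^-3.
C: 1 + 224x + 256x^2 = (4 + 28X + X^2)/4 and x (1-16x)^4 D^-3 = X (2-X)^4 / (512) * 64 (4+28X+X^2)^-3 = (1/287496) * 35937 X (2-X)^4 (4+28X+X^2)^-3. -/

set_option autoImplicit false

namespace Pool.Agent.T33

open Finset PowerSeries
open Pool.Agent.ADC (cmp theta)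

variable {p : ℕ}

private theorem idg_inj : Function.Injective (PowerSeries.map (Int.castRingHom ℚ)) :=
  PowerSeries.map_injective _ Int.cast_injective

private theorem idg_mkQ (a : ℕ → ℕ) : PowerSeries.map (Int.castRingHom ℚ) (PowerSeries.mk fun n => (a n : ℤ)) =
    PowerSeries.mk fun n => (a n : ℚ) := by
  ext n; simp

private theorem idg_cmpQ (a : ℕ → ℕ) {z : ℤ⟦X⟧} (hz : X ∣ z) :
    PowerSeries.map (Int.castRingHom ℚ) (cmp (fun n => (a n : ℤ)) z) =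
      cmp (fun n => (a n : ℚ)) (PowerSeries.map (Int.castRingHom ℚ) z) := by
  rw [Pool.Agent.ADC.cmp_map _ hz]
  simp

private theorem idg_mkR (a : ℕ → ℕ) : PowerSeries.map (Int.castRingHom (R3 p)) (PowerSeries.mk fun n => (a n : ℤ)) =
    PowerSeries.mk fun n => (a n : R3 p) := by
  ext n; simp

private theorem idg_cmpR (a : ℕ → ℕ) {z : ℤ⟦X⟧} (hz : X ∣ z) :
    PowerSeries.map (Int.castRingHom (R3 p)) (cmp (fun n => (a n : ℤ)) z) =
      cmp (fun n => (a n : R3 p)) (PowerSeries.map (Int.castRingHom (R3 p)) z) := by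
  rw [Pool.Agent.ADC.cmp_map _ hz]
  simp

/-- the identities over the integers -/
private theorem idg_ZA : cmp (fun n => (cB n : ℤ)) (X * (1 - 16 * X)) = (PowerSeries.mk fun n => (uu n : ℤ)) ^ 2 := by
  apply idg_inj
  have := idA
  rw [idg_cmpQ _ (dvd_mul_right _ _), map_pow, idg_mkQ, map_mul, map_sub, map_one, map_mul, map_ofNat, PowerSeries.map_X]
  exact this

private theorem idg_ZB {iD : ℤ⟦X⟧} (hD : (1 - 16 * X + 256 * X ^ 2) * iD = 1) :
    cmp (fun n => (cC n : ℤ)) (X ^ 2 * (1 - 16 * X) ^ 2 * iD ^ 3) ^ 2 =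
      (1 - 16 * X + 256 * X ^ 2) * (PowerSeries.mk fun n => (uu n : ℤ)) ^ 4 := by
  apply idg_inj
  have hz : (X : ℤ⟦X⟧) ∣ X ^ 2 * (1 - 16 * X) ^ 2 * iD ^ 3 := ⟨X * (1 - 16 * X) ^ 2 * iD ^ 3, by ring⟩
  have h := congrArg (PowerSeries.map (Int.castRingHom ℚ)) hD
  have h' : (1 - 16 * X + 256 * X ^ 2) * (PowerSeries.map (Int.castRingHom ℚ) iD) = 1 := by
    simpa only [map_mul, map_sub, map_add, map_one, map_pow, map_ofNat, PowerSeries.map_X] using h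
  have := idB h'
  rw [map_pow, idg_cmpQ _ hz]
  simpa only [map_mul, map_sub, map_add, map_one, map_pow, map_ofNat, PowerSeries.map_X, idg_mkQ] using this

private theorem idg_ZC {iD : ℤ⟦X⟧} (hD : (1 + 224 * X + 256 * X ^ 2) * iD = 1) :
    cmp (fun n => (cC n : ℤ)) (X * (1 - 16 * X) ^ 4 * iD ^ 3) ^ 2 =
      (1 + 224 * X + 256 * X ^ 2) * (PowerSeries.mk fun n => (uu n : ℤ)) ^ 4 := by
  apply idg_inj
  have hz : (X : ℤ⟦X⟧) ∣ X * (1 - 16 * X) ^ 4 * iD ^ 3 := ⟨(1 - 16 * X) ^ 4 * iD ^ 3, by ring⟩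
  have h := congrArg (PowerSeries.map (Int.castRingHom ℚ)) hD
  have h' : (1 + 224 * X + 256 * X ^ 2) * (PowerSeries.map (Int.castRingHom ℚ) iD) = 1 := by
    simpa only [map_mul, map_sub, map_add, map_one, map_pow, map_ofNat, PowerSeries.map_X] using h
  have := idC h'
  rw [map_pow, idg_cmpQ _ hz]
  simpa only [map_mul, map_sub, map_add, map_one, map_pow, map_ofNat, PowerSeries.map_X, idg_mkQ] using this

private theorem idg_exinv (D : ℤ⟦X⟧) (h : constantCoeff D = 1) : ∃ iD : ℤ⟦X⟧, D * iD = 1 := by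
  have : IsUnit D := by
    rw [PowerSeries.isUnit_iff_constantCoeff, h]; exact isUnit_one
  exact this.exists_right_inv

private theorem idg_resX (τ : R3 p) : PowerSeries.rescale τ (X : (R3 p)⟦X⟧) = C τ * X := by
  ext n
  rw [PowerSeries.coeff_rescale, PowerSeries.coeff_C_mul, PowerSeries.coeff_X]
  split_ifs with h
  · simp [h]
  · simp

private theorem idg_resuu : PowerSeries.rescale (32 : R3 p)⁻¹ (PowerSeries.mk fun n => (uu n : R3 p)) = fF p := by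
  ext n
  rw [PowerSeries.coeff_rescale, fF, PowerSeries.coeff_mk, PowerSeries.coeff_mk, uN, mul_comm]

private theorem idg_unit (hp : p.Prime) {x : ℕ} (h : ¬ p ∣ x) : (C (x : R3 p) : (R3 p)⟦X⟧) * C ((x : R3 p)⁻¹) = 1 := by
  rw [← map_mul, r3_inv hp h, map_one]

private theorem idg_2 (_ : p.Prime) (h5 : 5 ≤ p) : ¬ p ∣ 2 := fun h => by have := Nat.le_of_dvd (by norm_num) h; omega

private theorem idg_3 (_ : p.Prime) (h5 : 5 ≤ p) : ¬ p ∣ 3 := fun h => by have := Nat.le_of_dvd (by norm_num) h; omega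

private theorem idg_32 (hp : p.Prime) (h5 : 5 ≤ p) : ¬ p ∣ 32 := fun h =>
  idg_2 hp h5 (hp.dvd_of_dvd_pow (by rw [show (2 : ℕ) ^ 5 = 32 by norm_num]; exact h : p ∣ 2 ^ 5))

private theorem idg_64 (hp : p.Prime) (h5 : 5 ≤ p) : ¬ p ∣ 64 := fun h =>
  idg_2 hp h5 (hp.dvd_of_dvd_pow (by rw [show (2 : ℕ) ^ 6 = 64 by norm_num]; exact h : p ∣ 2 ^ 6))

private theorem idg_4 (hp : p.Prime) (h5 : 5 ≤ p) : ¬ p ∣ 4 := fun h =>
  idg_2 hp h5 (hp.dvd_of_dvd_pow (by rw [show (2 : ℕ) ^ 2 = 4 by norm_num]; exact h : p ∣ 2 ^ 2))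

private theorem idg_1728 (hp : p.Prime) (h5 : 5 ≤ p) : ¬ p ∣ 1728 := fun h => by
  have h' : p ∣ 2 ^ 6 * 3 ^ 3 := by rw [show (2 : ℕ) ^ 6 * 3 ^ 3 = 1728 by norm_num]; exact h
  rcases (Nat.Prime.dvd_mul hp).1 h' with h | h
  · exact idg_2 hp h5 (hp.dvd_of_dvd_pow h)
  · exact idg_3 hp h5 (hp.dvd_of_dvd_pow h)

private theorem idg_287496 (hp : p.Prime) (h5 : 5 ≤ p) (h11 : p ≠ 11) : ¬ p ∣ 287496 := fun h => by
  have h' : p ∣ 2 ^ 3 * 3 ^ 3 * 11 ^ 3 := by rw [show (2 : ℕ) ^ 3 * 3 ^ 3 * 11 ^ 3 = 287496 by norm_num]; exact h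
  rcases (Nat.Prime.dvd_mul hp).1 h' with h | h
  · rcases (Nat.Prime.dvd_mul hp).1 h with h | h
    · exact idg_2 hp h5 (hp.dvd_of_dvd_pow h)
    · exact idg_3 hp h5 (hp.dvd_of_dvd_pow h)
  · exact h11 ((Nat.prime_dvd_prime_iff_eq hp (by norm_num)).1 (hp.dvd_of_dvd_pow h))

theorem idgA (hp : p.Prime) (h5 : 5 ≤ p) :
    cmp (fun n => (cB n : R3 p) * (64 : R3 p)⁻¹ ^ n) (X ^ 1 * (2 - X)) = fF p ^ 2 := by
  have hτ : (32 : (R3 p)⟦X⟧) * C ((32 : R3 p)⁻¹) = 1 := by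
    have := idg_unit hp (idg_32 hp h5)
    simpa only [Nat.cast_ofNat, map_ofNat] using this
  have hσ : (64 : (R3 p)⟦X⟧) * C ((64 : R3 p)⁻¹) = 1 := by
    have := idg_unit hp (idg_64 hp h5)
    simpa only [Nat.cast_ofNat, map_ofNat] using this
  have h := congrArg (PowerSeries.map (Int.castRingHom (R3 p))) idg_ZA
  rw [idg_cmpR _ (dvd_mul_right _ _), map_pow, idg_mkR] at h
  have h2 := congrArg (PowerSeries.rescale (32 : R3 p)⁻¹) h
  rw [cmp_rescale _ _ (by rw [map_mul, PowerSeries.map_X]; exact dvd_mul_right _ _), map_pow, idg_resuu] at h2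
  rw [← h2, cmp_scale _ _ ⟨2 - X, by ring⟩]
  congr 1
  simp only [map_mul, map_sub, map_one, PowerSeries.map_X, idg_resX, map_ofNat]
  generalize C ((32 : R3 p)⁻¹) = t at *
  generalize C ((64 : R3 p)⁻¹) = s at *
  linear_combination (t * X - 16 * t ^ 2 * X ^ 2) * hσ - (2 * s * X - s * X ^ 2 * (32 * t + 1)) * hτ

theorem idgB (hp : p.Prime) (h5 : 5 ≤ p) {iD : (R3 p)⟦X⟧} (hD : (4 - 2 * X + X ^ 2) * iD = 1) :
    cmp (fun n => (cC n : R3 p) * (1728 : R3 p)⁻¹ ^ n) (X ^ 2 * (27 * (2 - X) ^ 2 * iD ^ 3)) ^ 2 =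
      PowerSeries.C (4 : R3 p)⁻¹ * (4 - 2 * X + X ^ 2) * fF p ^ 4 := by
  have hτ : (32 : (R3 p)⟦X⟧) * C ((32 : R3 p)⁻¹) = 1 := by
    have := idg_unit hp (idg_32 hp h5)
    simpa only [Nat.cast_ofNat, map_ofNat] using this
  have hσ : (1728 : (R3 p)⟦X⟧) * C ((1728 : R3 p)⁻¹) = 1 := by
    have := idg_unit hp (idg_1728 hp h5)
    simpa only [Nat.cast_ofNat, map_ofNat] using this
  have hq : (4 : (R3 p)⟦X⟧) * C ((4 : R3 p)⁻¹) = 1 := by
    have := idg_unit hp (idg_4 hp h5)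
    simpa only [Nat.cast_ofNat, map_ofNat] using this
  obtain ⟨iZ, hZ⟩ := idg_exinv (1 - 16 * X + 256 * X ^ 2) (by simp)
  have hz : (X : ℤ⟦X⟧) ∣ X ^ 2 * (1 - 16 * X) ^ 2 * iZ ^ 3 := ⟨X * (1 - 16 * X) ^ 2 * iZ ^ 3, by ring⟩
  have h := congrArg (PowerSeries.map (Int.castRingHom (R3 p))) (idg_ZB hZ)
  rw [map_pow, idg_cmpR _ hz] at h
  have h2 := congrArg (PowerSeries.rescale (32 : R3 p)⁻¹) h
  have hz' : (X : (R3 p)⟦X⟧) ∣ PowerSeries.map (Int.castRingHom (R3 p)) (X ^ 2 * (1 - 16 * X) ^ 2 * iZ ^ 3) := by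
    have := map_dvd (PowerSeries.map (Int.castRingHom (R3 p))) hz
    rwa [PowerSeries.map_X] at this
  rw [map_pow, cmp_rescale _ _ hz'] at h2
  have h3 := congrArg (PowerSeries.rescale (32 : R3 p)⁻¹) (congrArg (PowerSeries.map (Int.castRingHom (R3 p))) hZ)
  rw [cmp_scale _ _ ⟨X * (27 * (2 - X) ^ 2 * iD ^ 3), by ring⟩]
  simp only [map_mul, map_sub, map_add, map_pow, map_one, PowerSeries.map_X, idg_resX, map_ofNat, idg_mkR, idg_resuu] at h2 h3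
  generalize PowerSeries.rescale (32 : R3 p)⁻¹ (PowerSeries.map (Int.castRingHom (R3 p)) iZ) = i at *
  generalize C ((32 : R3 p)⁻¹) = t at *
  generalize C ((1728 : R3 p)⁻¹) = s at *
  generalize C ((4 : R3 p)⁻¹) = q at *
  have e1 : 256 * t ^ 2 = q := by linear_combination (q * (32 * t + 1)) * hτ + (-256 * t ^ 2) * hq
  have e3 : 1 - 16 * (t * X) + 256 * (t * X) ^ 2 = q * (4 - 2 * X + X ^ 2) := by
    linear_combination (X ^ 2) * e1 - hq - (2 * q * X) * hτ + (16 * t * X) * hq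
  have e4 : i = 4 * iD := by
    have : (1 - 16 * (t * X) + 256 * (t * X) ^ 2) * (4 * iD) = 1 := by
      rw [e3]; linear_combination (4 * q) * hD + hq
    linear_combination (4 * iD) * h3 - i * this
  have e5 : s * 27 = 2 ^ 14 * t ^ 4 := by
    linear_combination (-(s * 27) * (32 ^ 3 * t ^ 3 + 32 ^ 2 * t ^ 2 + 32 * t + 1)) * hτ + (2 ^ 14 * t ^ 4) * hσ
  have e6 : 1 - 16 * (t * X) = 16 * t * (2 - X) := by linear_combination -hτ
  rw [← e3, ← h2]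
  congr 2
  rw [e6, e4]
  linear_combination (X ^ 2 * (2 - X) ^ 2 * iD ^ 3) * e5

theorem idgC (hp : p.Prime) (h5 : 5 ≤ p) (h11 : p ≠ 11) {iD : (R3 p)⟦X⟧} (hD : (4 + 28 * X + X ^ 2) * iD = 1) :
    cmp (fun n => (cC n : R3 p) * (287496 : R3 p)⁻¹ ^ n) (X ^ 1 * (35937 * (2 - X) ^ 4 * iD ^ 3)) ^ 2 =
      PowerSeries.C (4 : R3 p)⁻¹ * (4 + 28 * X + X ^ 2) * fF p ^ 4 := by
  have hτ : (32 : (R3 p)⟦X⟧) * C ((32 : R3 p)⁻¹) = 1 := by
    have := idg_unit hp (idg_32 hp h5)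
    simpa only [Nat.cast_ofNat, map_ofNat] using this
  have hσ : (287496 : (R3 p)⟦X⟧) * C ((287496 : R3 p)⁻¹) = 1 := by
    have := idg_unit hp (idg_287496 hp h5 h11)
    simpa only [Nat.cast_ofNat, map_ofNat] using this
  have hq : (4 : (R3 p)⟦X⟧) * C ((4 : R3 p)⁻¹) = 1 := by
    have := idg_unit hp (idg_4 hp h5)
    simpa only [Nat.cast_ofNat, map_ofNat] using this
  obtain ⟨iZ, hZ⟩ := idg_exinv (1 + 224 * X + 256 * X ^ 2) (by simp)
  have hz : (X : ℤ⟦X⟧) ∣ X * (1 - 16 * X) ^ 4 * iZ ^ 3 := ⟨(1 - 16 * X) ^ 4 * iZ ^ 3, by ring⟩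
  have h := congrArg (PowerSeries.map (Int.castRingHom (R3 p))) (idg_ZC hZ)
  rw [map_pow, idg_cmpR _ hz] at h
  have h2 := congrArg (PowerSeries.rescale (32 : R3 p)⁻¹) h
  have hz' : (X : (R3 p)⟦X⟧) ∣ PowerSeries.map (Int.castRingHom (R3 p)) (X * (1 - 16 * X) ^ 4 * iZ ^ 3) := by
    have := map_dvd (PowerSeries.map (Int.castRingHom (R3 p))) hz
    rwa [PowerSeries.map_X] at this
  rw [map_pow, cmp_rescale _ _ hz'] at h2
  have h3 := congrArg (PowerSeries.rescale (32 : R3 p)⁻¹) (congrArg (PowerSeries.map (Int.castRingHom (R3 p))) hZ)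
  rw [cmp_scale _ _ ⟨(35937 * (2 - X) ^ 4 * iD ^ 3), by ring⟩]
  simp only [map_mul, map_sub, map_add, map_pow, map_one, PowerSeries.map_X, idg_resX, map_ofNat, idg_mkR, idg_resuu] at h2 h3
  generalize PowerSeries.rescale (32 : R3 p)⁻¹ (PowerSeries.map (Int.castRingHom (R3 p)) iZ) = i at *
  generalize C ((32 : R3 p)⁻¹) = t at *
  generalize C ((287496 : R3 p)⁻¹) = s at *
  generalize C ((4 : R3 p)⁻¹) = q at *
  have e1 : 256 * t ^ 2 = q := by linear_combination (q * (32 * t + 1)) * hτ + (-256 * t ^ 2) * hq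
  have e3 : 1 + 224 * (t * X) + 256 * (t * X) ^ 2 = q * (4 + 28 * X + X ^ 2) := by
    linear_combination (X ^ 2) * e1 - hq - (7 * X) * hq + (7 * X) * hτ
  have e4 : i = 4 * iD := by
    have : (1 + 224 * (t * X) + 256 * (t * X) ^ 2) * (4 * iD) = 1 := by
      rw [e3]; linear_combination (4 * q) * hD + hq
    linear_combination (4 * iD) * h3 - i * this
  have e5 : s * 35937 = 2 ^ 22 * t ^ 5 := by
    linear_combination (-(s * 35937) * (32 ^ 4 * t ^ 4 + 32 ^ 3 * t ^ 3 + 32 ^ 2 * t ^ 2 + 32 * t + 1)) * hτ + (2 ^ 22 * t ^ 5) * hσ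
  have e6 : 1 - 16 * (t * X) = 16 * t * (2 - X) := by linear_combination -hτ
  rw [← e3, ← h2]
  congr 2
  rw [e6, e4]
  linear_combination (X * (2 - X) ^ 4 * iD ^ 3) * e5

end Pool.Agent.T33
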