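import Pool.Agent.T33.Gen
import Pool.Agent.T33.IdG

/-! Project T33 (MP_9f27ff_nt), module Apl (size 3): application of the generic theorem to the three sums. -/

set_option autoImplicit false

namespace Pool.Agent.T33

open Finset PowerSeries
open Pool.Agent.ADC (cmp theta)

variable {p : ℕ}

def sA (p : ℕ) : R3 p := ∑ n ∈ range p, (cB n : R3 p) * (64 : R3 p)⁻¹ ^ n
def sB (p : ℕ) : R3 p := ∑ n ∈ range p, (cC n : R3 p) * (1728 : R3 p)⁻¹ ^ n
def sC (p : ℕ) : R3 p := ∑ n ∈ range p, (cC n : R3 p) * (287496 : R3 p)⁻¹ ^ n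

section aux
variable {A : Type} [CommRing A]

theorem aplx1 : constantCoeff (2 - X : A⟦X⟧) = 2 := by
  rw [map_sub, PowerSeries.constantCoeff_X, map_ofNat, sub_zero]
theorem aplx2 : constantCoeff (4 - 2 * X + X ^ 2 : A⟦X⟧) = 4 := by
  rw [map_add, map_sub, map_mul, map_pow, PowerSeries.constantCoeff_X, map_ofNat]; ring
theorem aplx3 : constantCoeff (4 + 28 * X + X ^ 2 : A⟦X⟧) = 4 := by
  rw [map_add, map_add, map_mul, map_pow, PowerSeries.constantCoeff_X, map_ofNat]; ring
theorem aplxo (n : ℕ) [n.AtLeastTwo] : ((OfNat.ofNat n : Polynomial A) : A⟦X⟧) = (OfNat.ofNat n : A⟦X⟧) := by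
  rw [← Polynomial.coeToPowerSeries.ringHom_apply, map_ofNat]
theorem aplx4 : ((2 - Polynomial.X : Polynomial A) : A⟦X⟧) = 2 - X := by
  rw [Polynomial.coe_sub, Polynomial.coe_X, aplxo]
theorem aplx5 : ((4 - 2 * Polynomial.X + Polynomial.X ^ 2 : Polynomial A) : A⟦X⟧) = 4 - 2 * X + X ^ 2 := by
  rw [Polynomial.coe_add, Polynomial.coe_sub, Polynomial.coe_mul, Polynomial.coe_pow, Polynomial.coe_X, aplxo, aplxo]
theorem aplx6 : ((4 + 28 * Polynomial.X + Polynomial.X ^ 2 : Polynomial A) : A⟦X⟧) = 4 + 28 * X + X ^ 2 := by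
  rw [Polynomial.coe_add, Polynomial.coe_add, Polynomial.coe_mul, Polynomial.coe_pow, Polynomial.coe_X, aplxo, aplxo]
theorem aplx7 : (2 - Polynomial.X : Polynomial A).natDegree ≤ 1 := by compute_degree
theorem aplx8 : (4 - 2 * Polynomial.X + Polynomial.X ^ 2 : Polynomial A).natDegree ≤ 2 := by compute_degree
theorem aplx9 : (4 + 28 * Polynomial.X + Polynomial.X ^ 2 : Polynomial A).natDegree ≤ 2 := by compute_degree
theorem aplx10 (P : Polynomial A) (n d m : ℕ) (h : P.natDegree ≤ d) (hm : n * d ≤ m) : (P ^ n).natDegree ≤ m :=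
  (Polynomial.natDegree_pow_le_of_le n h).trans (by simpa [mul_comm] using hm)
theorem aplx11 (P Q : Polynomial A) (d e m : ℕ) (h : P.natDegree ≤ d) (h' : Q.natDegree ≤ e) (hm : d + e ≤ m) : (P * Q).natDegree ≤ m :=
  (Polynomial.natDegree_mul_le_of_le h h').trans hm
theorem aplx12 (n : ℕ) [n.AtLeastTwo] : (OfNat.ofNat n : Polynomial A).natDegree ≤ 0 := by
  rw [Polynomial.natDegree_ofNat]

end aux

theorem apl_unit_inv (hp : p.Prime) (x : ℕ) (h : ¬ p ∣ x) : IsUnit ((x : R3 p)⁻¹) :=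
  IsUnit.of_mul_eq_one _ (by rw [mul_comm]; exact r3_inv hp h)

/-- PROOF. m := (p-1)/2. (b/4)^m = b^m (2⁻¹)^(p-1), and b^m = legendreSym p b, 2^(p-1) = 1 in ZMod p (legendreSym.eq_pow, Fermat); lift to R3 p. -/
theorem leg_pow [Fact p.Prime] (h5 : 5 ≤ p) (b : ℤ) (hb : legendreSym p b ≠ 0) :
    ∃ y : R3 p, ((b : R3 p) * (4 : R3 p)⁻¹) ^ ((p - 1) / 2) = (legendreSym p b : R3 p) + p * y := by
  have hp : p.Prime := Fact.out
  have h4 : ¬ p ∣ 4 := fun h => by have := Nat.le_of_dvd (by norm_num) h; omega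
  have i4 : (4 : R3 p) * (4 : R3 p)⁻¹ = 1 := by
    have := r3_inv hp h4
    exact_mod_cast this
  set φ := ZMod.castHom (Dvd.intro_left (p ^ 2) (pow_succ p 2).symm : p ∣ p ^ 3) (ZMod p) with hφ
  have hodd : p % 2 = 1 := hp.eq_two_or_odd.resolve_left (by omega)
  have h2m : 2 * ((p - 1) / 2) = p - 1 := by omega
  have hpm : (p - 1) / 2 = p / 2 := by omega
  have e1 : φ (4 : R3 p)⁻¹ ^ ((p - 1) / 2) = 1 := by
    have h1 : (4 : ZMod p) * φ (4 : R3 p)⁻¹ = 1 := by
      have := congrArg φ i4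
      rw [map_mul, map_one] at this
      rw [← this, map_ofNat]
    have h2 : (4 : ZMod p) ^ ((p - 1) / 2) = 1 := by
      have h3 : (4 : ZMod p) = 2 ^ 2 := by norm_num
      rw [h3, ← pow_mul, h2m]
      apply ZMod.pow_card_sub_one_eq_one
      intro h
      have h4' : ((2 : ℕ) : ZMod p) = 0 := by exact_mod_cast h
      rw [ZMod.natCast_eq_zero_iff] at h4'
      have := Nat.le_of_dvd (by norm_num) h4'
      omega
    have h5' := congrArg (fun z => z ^ ((p - 1) / 2)) h1
    simp only [mul_pow, one_pow, h2, one_mul] at h5'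
    exact h5'
  have e2 : φ (((b : R3 p) * (4 : R3 p)⁻¹) ^ ((p - 1) / 2)) = φ (legendreSym p b : R3 p) := by
    rw [map_pow, map_mul, mul_pow, e1, mul_one, map_intCast, map_intCast, hpm]
    exact (legendreSym.eq_pow p b).symm
  obtain ⟨y, hy⟩ := r3_one_add hp (x := 1 + (((b : R3 p) * (4 : R3 p)⁻¹) ^ ((p - 1) / 2) - (legendreSym p b : R3 p))) (by
    rw [map_add, map_one, map_sub, e2, sub_self, add_zero])
  exact ⟨y, by linear_combination hy⟩

theorem apl_ndvd (hbig : 2000 ≤ p) {x : ℕ} (h0 : 0 < x) (hx : x < 2000) : ¬ p ∣ x :=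
  fun h => by have := Nat.le_of_dvd h0 h; omega

theorem apl_ndvd_pow (hp : p.Prime) (hbig : 2000 ≤ p) {x : ℕ} (n : ℕ) (h0 : 0 < x) (hx : x < 2000) : ¬ p ∣ x ^ n :=
  fun h => apl_ndvd hbig h0 hx (hp.dvd_of_dvd_pow h)

/-- existence of inverses of power series -/
theorem apl_iD {D : (R3 p)⟦X⟧} (h : IsUnit (constantCoeff D)) : ∃ iD, D * iD = 1 := by
  have := (PowerSeries.isUnit_iff_constantCoeff).2 h
  obtain ⟨u, hu⟩ := this
  exact ⟨((u⁻¹ : ((R3 p)⟦X⟧)ˣ) : (R3 p)⟦X⟧), by rw [← hu]; exact u.mul_inv⟩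

theorem apl_fcc : constantCoeff (fF p) = 1 := by
  rw [fF, ← coeff_zero_eq_constantCoeff_apply, coeff_mk, uN, uu]
  simp

/-- common part of the cases B and C -/
theorem apl_r {c : ℕ → R3 p} {w D : (R3 p)⟦X⟧} (hw : (X : (R3 p)⟦X⟧) ∣ w) (hc : c 0 = 1) (h : cmp c w ^ 2 = D * fF p ^ 4) :
    ∃ r, r ^ 2 = D ∧ constantCoeff r = 1 ∧ cmp c w = r * fF p ^ 2 := by
  obtain ⟨iF, hF⟩ := apl_iD (D := fF p ^ 2) (by rw [map_pow, apl_fcc, one_pow]; exact isUnit_one)
  have hcF : constantCoeff iF = 1 := by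
    have := congrArg constantCoeff hF
    rw [map_mul, map_pow, apl_fcc, one_pow, one_mul, map_one] at this
    exact this
  refine ⟨cmp c w * iF, ?_, ?_, ?_⟩
  · have : (cmp c w * iF) ^ 2 = cmp c w ^ 2 * iF ^ 2 := by ring
    rw [this, h]
    linear_combination (D * (fF p ^ 2 * iF + 1)) * hF
  · rw [map_mul, Pool.Agent.ADC.cmp_cc hw, hc, hcF, one_mul]
  · linear_combination (-cmp c w) * hF

/-- PROOF. Three applications of gen.
A: c n = cB n / 64^n, a = 1, μ = 2 - X, r = Q = 1, q = s = 1. B: c n = cC n / 1728^n, a = 2, μ = 27 (2-X)^2 iD^3 (value 27/27 = 1), G := cmp c w, r := G * (fF p ^ 2)⁻¹ (fF p has constant term 1: unit), Q := C 4⁻¹ * (4 - 2X + X^2), r^2 = Q by idgB,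
q = 3/4 (unit), s = legendreSym p 3 (= ±1 since p ≥ 5). C: a = 1, μ = 35937 (2-X)^4 iD^3 (value 35937/33^3 = 1), Q := C 4⁻¹ * (4 + 28X + X^2), q = 33/4, s = legendreSym p 33 (p ≠ 3, 11 since p % 4 = 1, p ≥ 5).
μ is a unit: the constant terms 2, 27 * 4 / 64, 35937 * 16 / 64 are units (3, 11 are units). Heights: numerators and denominators have degree at most 6. -/
theorem apl [Fact p.Prime] (hbig : 2000 ≤ p) (h : p % 4 = 1) :
    sA p = (legendreSym p 3 : R3 p) * sB p ∧ sA p = (legendreSym p 33 : R3 p) * sC p := by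
  have hp : p.Prime := Fact.out
  obtain ⟨V, hV⟩ := gen (p := p) hbig h
  have h5 : 5 ≤ p := by omega
  have n2 : ¬ p ∣ 2 := apl_ndvd hbig (by norm_num) (by norm_num)
  have n3 : ¬ p ∣ 3 := apl_ndvd hbig (by norm_num) (by norm_num)
  have n4 : ¬ p ∣ 4 := apl_ndvd hbig (by norm_num) (by norm_num)
  have n64 : ¬ p ∣ 64 := apl_ndvd hbig (by norm_num) (by norm_num)
  have n33 : ¬ p ∣ 33 := apl_ndvd hbig (by norm_num) (by norm_num)
  have n1728 : ¬ p ∣ 1728 := apl_ndvd hbig (by norm_num) (by norm_num)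
  have n35937 : ¬ p ∣ 35937 := by
    have := apl_ndvd_pow hp hbig 3 (x := 33) (by norm_num) (by norm_num)
    norm_num at this
    exact this
  have n287496 : ¬ p ∣ 287496 := by
    have := apl_ndvd_pow hp hbig 3 (x := 66) (by norm_num) (by norm_num)
    norm_num at this
    exact this
  have i4 : (4 : R3 p) * (4 : R3 p)⁻¹ = 1 := by exact_mod_cast r3_inv hp n4
  have u2 : IsUnit (2 : R3 p) := by exact_mod_cast r3_unit hp n2
  have u3 : IsUnit (3 : R3 p) := by exact_mod_cast r3_unit hp n3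
  have u4 : IsUnit (4 : R3 p) := by exact_mod_cast r3_unit hp n4
  have u4i : IsUnit ((4 : R3 p)⁻¹) := by exact_mod_cast apl_unit_inv hp 4 n4
  have u64 : IsUnit (64 : R3 p) := by exact_mod_cast r3_unit hp n64
  have u64i : IsUnit ((64 : R3 p)⁻¹) := by exact_mod_cast apl_unit_inv hp 64 n64
  have u33 : IsUnit (33 : R3 p) := by exact_mod_cast r3_unit hp n33
  have u35937 : IsUnit (35937 : R3 p) := by exact_mod_cast r3_unit hp n35937
  have u1728i : IsUnit ((1728 : R3 p)⁻¹) := by exact_mod_cast apl_unit_inv hp 1728 n1728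
  have u287496i : IsUnit ((287496 : R3 p)⁻¹) := by exact_mod_cast apl_unit_inv hp 287496 n287496
  have u27 : IsUnit (27 : R3 p) := by
    have := u3.pow 3
    norm_num at this
    exact this
  -- case A
  have hA : sA p = V ^ 2 := by
    have := hV (fun n => (cB n : R3 p) * (64 : R3 p)⁻¹ ^ n) 1 (2 - X) 1 1 1 1 (blk_cB hp h5 u64i) one_pos (by omega)
      (by rw [PowerSeries.isUnit_iff_constantCoeff, aplx1]; exact u2)
      ?_ ?_ (by ring) (map_one _) (Rt.one.mono (by norm_num)) isUnit_one (by ring) ⟨0, by rw [one_pow, mul_zero, add_zero]⟩ ?_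
    · rw [one_mul] at this
      exact this
    · refine ⟨2 - Polynomial.X, 1, aplx7.trans (by norm_num), by simp, by simp, by simp, ?_, ?_⟩
      · rw [aplx4, Polynomial.coe_one, one_mul]
      · rw [Polynomial.eval_one, Polynomial.eval_sub, Polynomial.eval_ofNat, Polynomial.eval_X]; ring
    · refine ⟨Polynomial.X * (2 - Polynomial.X), 1, aplx11 _ _ 1 1 _ Polynomial.natDegree_X_le aplx7 (by norm_num), by simp, by simp, by simp, ?_, ?_⟩
      · rw [Polynomial.coe_mul, aplx4, Polynomial.coe_one, one_mul, pow_one, Polynomial.coe_X]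
      · rw [Polynomial.eval_one, Polynomial.eval_mul, Polynomial.eval_sub, Polynomial.eval_ofNat, Polynomial.eval_X]; ring
    · rw [one_mul]
      exact idgA hp h5
  -- case B
  have hB : sB p = (legendreSym p 3 : R3 p) * V ^ 2 := by
    obtain ⟨iD, hD⟩ := apl_iD (p := p) (D := 4 - 2 * X + X ^ 2) (by rw [aplx2]; exact u4)
    have hcD : (4 : R3 p) * constantCoeff iD = 1 := by
      have := congrArg constantCoeff hD
      rw [map_mul, aplx2, map_one] at this
      exact this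
    obtain ⟨r, hr1, hr2, hr3⟩ := apl_r (p := p) (c := fun n => (cC n : R3 p) * (1728 : R3 p)⁻¹ ^ n)
      (w := X ^ 2 * (27 * (2 - X) ^ 2 * iD ^ 3)) (D := PowerSeries.C (4 : R3 p)⁻¹ * (4 - 2 * X + X ^ 2))
      (by rw [pow_two, mul_assoc]; exact dvd_mul_right _ _) (by simp [cC]) (idgB hp h5 hD)
    have hz : ((3 : ℤ) : ZMod p) ≠ 0 := by
      intro h0
      have : ((3 : ℕ) : ZMod p) = 0 := by exact_mod_cast h0
      exact n3 ((ZMod.natCast_eq_zero_iff _ _).1 this)
    have hl : legendreSym p 3 ≠ 0 := by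
      rw [Ne, legendreSym.eq_zero_iff]
      exact hz
    refine hV (fun n => (cC n : R3 p) * (1728 : R3 p)⁻¹ ^ n) 2 (27 * (2 - X) ^ 2 * iD ^ 3) r (PowerSeries.C (4 : R3 p)⁻¹ * (4 - 2 * X + X ^ 2))
      (3 * (4 : R3 p)⁻¹) (legendreSym p 3) (blk_cC hp h5 u1728i) two_pos (by omega) ?_ ?_ ?_ hr1 hr2 ?_ (u3.mul u4i) ?_ ?_ hr3
    · rw [PowerSeries.isUnit_iff_constantCoeff, map_mul, map_mul, map_pow, map_pow, aplx1, map_ofNat]
      exact (u27.mul (u2.pow 2)).mul ((IsUnit.of_mul_eq_one _ (by rw [mul_comm]; exact hcD)).pow 3)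
    · refine ⟨27 * (2 - Polynomial.X) ^ 2, (4 - 2 * Polynomial.X + Polynomial.X ^ 2) ^ 3,
        aplx11 _ _ 0 2 _ (aplx12 27) (aplx10 _ 2 1 _ aplx7 (by norm_num)) (by norm_num), aplx10 _ 3 2 _ aplx8 (by norm_num), ?_, ?_, ?_, ?_⟩
      · rw [Polynomial.coeff_zero_eq_eval_zero]
        simp only [Polynomial.eval_pow, Polynomial.eval_add, Polynomial.eval_sub, Polynomial.eval_mul, Polynomial.eval_ofNat, Polynomial.eval_X]
        convert u64 using 1
        norm_num
      · simp only [Polynomial.eval_pow, Polynomial.eval_add, Polynomial.eval_sub, Polynomial.eval_mul, Polynomial.eval_ofNat, Polynomial.eval_X]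
        convert u27 using 1
        norm_num
      · rw [Polynomial.coe_pow, aplx5, Polynomial.coe_mul, Polynomial.coe_pow, aplx4, aplxo]
        have : (4 - 2 * X + X ^ 2) ^ 3 * (27 * (2 - X) ^ 2 * iD ^ 3) = 27 * (2 - X) ^ 2 * ((4 - 2 * X + X ^ 2) * iD) ^ 3 := by ring
        rw [this, hD, one_pow, mul_one]
      · simp only [Polynomial.eval_pow, Polynomial.eval_add, Polynomial.eval_sub, Polynomial.eval_mul, Polynomial.eval_ofNat, Polynomial.eval_X]
        norm_num
    · refine ⟨Polynomial.X ^ 2 * (27 * (2 - Polynomial.X) ^ 2), (4 - 2 * Polynomial.X + Polynomial.X ^ 2) ^ 3,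
        aplx11 _ _ 2 2 _ (aplx10 _ 2 1 _ Polynomial.natDegree_X_le (by norm_num)) (aplx11 _ _ 0 2 _ (aplx12 27) (aplx10 _ 2 1 _ aplx7 (by norm_num)) (by norm_num)) (by norm_num),
        aplx10 _ 3 2 _ aplx8 (by norm_num), ?_, ?_, ?_, ?_⟩
      · rw [Polynomial.coeff_zero_eq_eval_zero]
        simp only [Polynomial.eval_pow, Polynomial.eval_add, Polynomial.eval_sub, Polynomial.eval_mul, Polynomial.eval_ofNat, Polynomial.eval_X]
        convert u64 using 1
        norm_num
      · simp only [Polynomial.eval_pow, Polynomial.eval_add, Polynomial.eval_sub, Polynomial.eval_mul, Polynomial.eval_ofNat, Polynomial.eval_X]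
        convert u27 using 1
        norm_num
      · rw [Polynomial.coe_pow, aplx5, Polynomial.coe_mul, Polynomial.coe_mul, Polynomial.coe_pow, Polynomial.coe_pow, aplx4, aplxo, Polynomial.coe_X]
        have : (4 - 2 * X + X ^ 2) ^ 3 * (X ^ 2 * (27 * (2 - X) ^ 2 * iD ^ 3)) = X ^ 2 * (27 * (2 - X) ^ 2) * ((4 - 2 * X + X ^ 2) * iD) ^ 3 := by ring
        rw [this, hD, one_pow, mul_one]
      · simp only [Polynomial.eval_pow, Polynomial.eval_add, Polynomial.eval_sub, Polynomial.eval_mul, Polynomial.eval_ofNat, Polynomial.eval_X]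
        norm_num
    · have h1 := Rt.ofPoly (p := p) (d := 2) (Polynomial.C (4 : R3 p)⁻¹ * (4 - 2 * Polynomial.X + Polynomial.X ^ 2))
        (aplx11 _ _ 0 2 _ (by rw [Polynomial.natDegree_C]) aplx8 (by norm_num))
      rw [Polynomial.coe_mul, Polynomial.coe_C, aplx5] at h1
      convert h1 using 1
      simp only [Polynomial.eval_pow, Polynomial.eval_add, Polynomial.eval_sub, Polynomial.eval_mul, Polynomial.eval_ofNat, Polynomial.eval_X, Polynomial.eval_C]
      ring
    · exact_mod_cast congrArg (Int.cast : ℤ → R3 p) (legendreSym.sq_one p hz)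
    · have := leg_pow h5 3 hl
      exact_mod_cast this
  -- case C
  have hC : sC p = (legendreSym p 33 : R3 p) * V ^ 2 := by
    obtain ⟨iD, hD⟩ := apl_iD (p := p) (D := 4 + 28 * X + X ^ 2) (by rw [aplx3]; exact u4)
    have hcD : (4 : R3 p) * constantCoeff iD = 1 := by
      have := congrArg constantCoeff hD
      rw [map_mul, aplx3, map_one] at this
      exact this
    obtain ⟨r, hr1, hr2, hr3⟩ := apl_r (p := p) (c := fun n => (cC n : R3 p) * (287496 : R3 p)⁻¹ ^ n)
      (w := X ^ 1 * (35937 * (2 - X) ^ 4 * iD ^ 3)) (D := PowerSeries.C (4 : R3 p)⁻¹ * (4 + 28 * X + X ^ 2))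
      (by rw [pow_one]; exact dvd_mul_right _ _) (by simp [cC]) (idgC hp h5 (by omega) hD)
    have hz : ((33 : ℤ) : ZMod p) ≠ 0 := by
      intro h0
      have : ((33 : ℕ) : ZMod p) = 0 := by exact_mod_cast h0
      exact n33 ((ZMod.natCast_eq_zero_iff _ _).1 this)
    have hl : legendreSym p 33 ≠ 0 := by
      rw [Ne, legendreSym.eq_zero_iff]
      exact hz
    refine hV (fun n => (cC n : R3 p) * (287496 : R3 p)⁻¹ ^ n) 1 (35937 * (2 - X) ^ 4 * iD ^ 3) r (PowerSeries.C (4 : R3 p)⁻¹ * (4 + 28 * X + X ^ 2))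
      (33 * (4 : R3 p)⁻¹) (legendreSym p 33) (blk_cC hp h5 u287496i) one_pos (by omega) ?_ ?_ ?_ hr1 hr2 ?_ (u33.mul u4i) ?_ ?_ hr3
    · rw [PowerSeries.isUnit_iff_constantCoeff, map_mul, map_mul, map_pow, map_pow, aplx1, map_ofNat]
      exact (u35937.mul (u2.pow 4)).mul ((IsUnit.of_mul_eq_one _ (by rw [mul_comm]; exact hcD)).pow 3)
    · refine ⟨35937 * (2 - Polynomial.X) ^ 4, (4 + 28 * Polynomial.X + Polynomial.X ^ 2) ^ 3,
        aplx11 _ _ 0 4 _ (aplx12 35937) (aplx10 _ 4 1 _ aplx7 (by norm_num)) (by norm_num), aplx10 _ 3 2 _ aplx9 (by norm_num), ?_, ?_, ?_, ?_⟩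
      · rw [Polynomial.coeff_zero_eq_eval_zero]
        simp only [Polynomial.eval_pow, Polynomial.eval_add, Polynomial.eval_sub, Polynomial.eval_mul, Polynomial.eval_ofNat, Polynomial.eval_X]
        convert u64 using 1
        norm_num
      · simp only [Polynomial.eval_pow, Polynomial.eval_add, Polynomial.eval_sub, Polynomial.eval_mul, Polynomial.eval_ofNat, Polynomial.eval_X]
        convert u35937 using 1
        norm_num
      · rw [Polynomial.coe_pow, aplx6, Polynomial.coe_mul, Polynomial.coe_pow, aplx4, aplxo]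
        have : (4 + 28 * X + X ^ 2) ^ 3 * (35937 * (2 - X) ^ 4 * iD ^ 3) = 35937 * (2 - X) ^ 4 * ((4 + 28 * X + X ^ 2) * iD) ^ 3 := by ring
        rw [this, hD, one_pow, mul_one]
      · simp only [Polynomial.eval_pow, Polynomial.eval_add, Polynomial.eval_sub, Polynomial.eval_mul, Polynomial.eval_ofNat, Polynomial.eval_X]
        norm_num
    · refine ⟨Polynomial.X * (35937 * (2 - Polynomial.X) ^ 4), (4 + 28 * Polynomial.X + Polynomial.X ^ 2) ^ 3,
        aplx11 _ _ 1 4 _ Polynomial.natDegree_X_le (aplx11 _ _ 0 4 _ (aplx12 35937) (aplx10 _ 4 1 _ aplx7 (by norm_num)) (by norm_num)) (by norm_num),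
        aplx10 _ 3 2 _ aplx9 (by norm_num), ?_, ?_, ?_, ?_⟩
      · rw [Polynomial.coeff_zero_eq_eval_zero]
        simp only [Polynomial.eval_pow, Polynomial.eval_add, Polynomial.eval_sub, Polynomial.eval_mul, Polynomial.eval_ofNat, Polynomial.eval_X]
        convert u64 using 1
        norm_num
      · simp only [Polynomial.eval_pow, Polynomial.eval_add, Polynomial.eval_sub, Polynomial.eval_mul, Polynomial.eval_ofNat, Polynomial.eval_X]
        convert u35937 using 1
        norm_num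
      · rw [Polynomial.coe_pow, aplx6, Polynomial.coe_mul, Polynomial.coe_mul, Polynomial.coe_pow, aplx4, aplxo, Polynomial.coe_X]
        have : (4 + 28 * X + X ^ 2) ^ 3 * (X ^ 1 * (35937 * (2 - X) ^ 4 * iD ^ 3)) = X * (35937 * (2 - X) ^ 4) * ((4 + 28 * X + X ^ 2) * iD) ^ 3 := by ring
        rw [this, hD, one_pow, mul_one]
      · simp only [Polynomial.eval_pow, Polynomial.eval_add, Polynomial.eval_sub, Polynomial.eval_mul, Polynomial.eval_ofNat, Polynomial.eval_X]
        norm_num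
    · have h1 := Rt.ofPoly (p := p) (d := 2) (Polynomial.C (4 : R3 p)⁻¹ * (4 + 28 * Polynomial.X + Polynomial.X ^ 2))
        (aplx11 _ _ 0 2 _ (by rw [Polynomial.natDegree_C]) aplx9 (by norm_num))
      rw [Polynomial.coe_mul, Polynomial.coe_C, aplx6] at h1
      convert h1 using 1
      simp only [Polynomial.eval_pow, Polynomial.eval_add, Polynomial.eval_sub, Polynomial.eval_mul, Polynomial.eval_ofNat, Polynomial.eval_X, Polynomial.eval_C]
      ring
    · exact_mod_cast congrArg (Int.cast : ℤ → R3 p) (legendreSym.sq_one p hz)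
    · have := leg_pow h5 33 hl
      exact_mod_cast this
  have q3 : (legendreSym p 3 : R3 p) ^ 2 = 1 := by
    have hz : ((3 : ℤ) : ZMod p) ≠ 0 := by
      intro h0
      have : ((3 : ℕ) : ZMod p) = 0 := by exact_mod_cast h0
      exact n3 ((ZMod.natCast_eq_zero_iff _ _).1 this)
    exact_mod_cast congrArg (Int.cast : ℤ → R3 p) (legendreSym.sq_one p hz)
  have q33 : (legendreSym p 33 : R3 p) ^ 2 = 1 := by
    have hz : ((33 : ℤ) : ZMod p) ≠ 0 := by
      intro h0
      have : ((33 : ℕ) : ZMod p) = 0 := by exact_mod_cast h0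
      exact n33 ((ZMod.natCast_eq_zero_iff _ _).1 this)
    exact_mod_cast congrArg (Int.cast : ℤ → R3 p) (legendreSym.sq_one p hz)
  constructor
  · rw [hA, hB]
    linear_combination (-V ^ 2) * q3
  · rw [hA, hC]
    linear_combination (-V ^ 2) * q33

end Pool.Agent.T33
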