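import Pool.Agent.ADC.Leg
import Pool.Agent.T33.Seq

/-! Project T33 (MP_9f27ff_nt), module CMr (size 4): the relation given by complex multiplication, from an exact identity of Legendre polynomials. -/

set_option autoImplicit false

namespace Pool.Agent.T33

open Finset

variable {p : ℕ}

/-- `dd p n` is the n-th term of `P_N(0)`, N = (3p-1)/2, `dd p n = C(N,n) C(N+n,n) (-1/2)^n` -/
def dd (p n : ℕ) : ℚ := (-1) ^ n * (((3 * p - 1) / 2).choose n : ℚ) * (((3 * p - 1) / 2 + n).choose n : ℚ) / 2 ^ n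

/-- PROOF. N = (3p-1)/2 is odd for p % 4 = 1: ADC.lg_odd, divided by 2^N; terms with n > N are 0. -/
theorem dd_sum (h : p % 4 = 1) : ∑ n ∈ range (2 * p), dd p n = 0 := by
  obtain ⟨N, hN⟩ : ∃ N, N = (3 * p - 1) / 2 := ⟨_, rfl⟩
  have hNodd : N % 2 = 1 := by omega
  have h1 := Pool.Agent.ADC.lg_odd hNodd
  have hle : N + 1 ≤ 2 * p := by omega
  have h2 : ∑ n ∈ range (N + 1), dd p n = ∑ n ∈ range (2 * p), dd p n := by
    apply Finset.sum_subset (Finset.range_mono hle)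
    intro n _ hn
    have : N < n := by simpa using hn
    unfold dd
    rw [← hN, Nat.choose_eq_zero_of_lt this]
    simp
  rw [← h2]
  have h3 : (2 : ℚ) ^ N * ∑ n ∈ range (N + 1), dd p n = (Pool.Agent.ADC.lg N : ℚ) := by
    unfold Pool.Agent.ADC.lg
    push_cast
    rw [Finset.mul_sum]
    apply Finset.sum_congr rfl
    intro n hn
    have hn' : n ≤ N := by
      have := Finset.mem_range.mp hn
      omega
    unfold dd
    rw [← hN]
    have h4 : (2 : ℚ) ^ N = 2 ^ (N - n) * 2 ^ n := by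
      rw [← pow_add]
      congr 1
      omega
    have h5 : (2 : ℚ) ^ n ≠ 0 := by positivity
    rw [h4]
    field_simp
  rw [h1] at h3
  simpa using h3

private theorem cmr_c1 (N n : ℕ) : ((N.choose (n + 1) : ℕ) : ℤ) * ((n : ℤ) + 1) = (N.choose n : ℤ) * ((N : ℤ) - n) := by
  have h := Nat.choose_succ_right_eq N n
  rcases le_or_gt n N with hle | hlt
  · have h' := congrArg (Nat.cast : ℕ → ℤ) h
    push_cast [Nat.cast_sub hle] at h'
    exact h'
  · rw [Nat.choose_eq_zero_of_lt hlt, Nat.choose_eq_zero_of_lt (by omega)]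
    simp

private theorem cmr_c2 (N n : ℕ) : (((N + (n + 1)).choose (n + 1) : ℕ) : ℤ) * ((n : ℤ) + 1) = ((N + n).choose n : ℤ) * ((N : ℤ) + n + 1) := by
  have h := Nat.add_one_mul_choose_eq (N + n) n
  have h' := congrArg (Nat.cast : ℕ → ℤ) h
  push_cast at h'
  rw [show N + (n + 1) = N + n + 1 by ring]
  linear_combination -h'

/-- the integer numerators -/
private def cmr_A (p n : ℕ) : ℤ := (-1) ^ n * (((3 * p - 1) / 2).choose n : ℤ) * (((3 * p - 1) / 2 + n).choose n : ℤ)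

private theorem cmr_recA (h2 : p % 2 = 1) (n : ℕ) :
    4 * ((n : ℤ) + 1) ^ 2 * cmr_A p (n + 1) = ((2 * n + 1) ^ 2 - 9 * (p : ℤ) ^ 2) * cmr_A p n := by
  unfold cmr_A
  obtain ⟨N, hN⟩ : ∃ N, N = (3 * p - 1) / 2 := ⟨_, rfl⟩
  rw [← hN]
  have hNp : 2 * (N : ℤ) + 1 = 3 * p := by
    have : 2 * N + 1 = 3 * p := by omega
    exact_mod_cast this
  have c1 := cmr_c1 N n
  have c2 := cmr_c2 N n
  set a : ℤ := ((N.choose (n + 1) : ℕ) : ℤ)
  set b : ℤ := (((N + (n + 1)).choose (n + 1) : ℕ) : ℤ)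
  set c : ℤ := ((N.choose n : ℕ) : ℤ)
  set d : ℤ := (((N + n).choose n : ℕ) : ℤ)
  have e : a * b * ((n : ℤ) + 1) ^ 2 = c * d * ((N : ℤ) - n) * ((N : ℤ) + n + 1) := by
    linear_combination b * ((n : ℤ) + 1) * c1 + c * ((N : ℤ) - n) * c2
  rw [pow_succ]
  linear_combination (-4 * (-1) ^ n) * e - (3 * (p : ℤ) + 2 * N + 1) * ((-1) ^ n * c * d) * hNp

/-- PROOF. Induction on n: 4 (n (n+1) - N (N+1)) = (2n+1)^2 - (2N+1)^2, 2N+1 = 3p (p odd). -/
theorem dd_prod (h2 : p % 2 = 1) (n : ℕ) :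
    dd p n = (uu n : ℚ) / 32 ^ n * ∏ i ∈ range n, (1 - 9 * (p : ℚ) ^ 2 / (2 * i + 1) ^ 2) := by
  have hdA : ∀ n, dd p n = (cmr_A p n : ℚ) / 2 ^ n := by
    intro n
    unfold dd cmr_A
    push_cast
    ring
  induction n with
  | zero => simp [dd, uu]
  | succ n ih =>
    rw [Finset.prod_range_succ]
    have hA := congrArg (Int.cast : ℤ → ℚ) (cmr_recA h2 n)
    push_cast at hA
    have hu := congrArg (Nat.cast : ℕ → ℚ) (uu_rec n)
    push_cast at hu
    have hn1 : (n : ℚ) + 1 ≠ 0 := by positivity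
    have hn2 : (2 * (n : ℚ) + 1) ≠ 0 := by positivity
    have hd : 8 * ((n : ℚ) + 1) ^ 2 * dd p (n + 1) = ((2 * n + 1) ^ 2 - 9 * (p : ℚ) ^ 2) * dd p n := by
      rw [hdA, hdA, pow_succ]
      have : (2 : ℚ) ^ n ≠ 0 := by positivity
      field_simp
      linear_combination (2 * 2 ^ n) * hA
    have hc : 8 * ((n : ℚ) + 1) ^ 2 ≠ 0 := by positivity
    apply mul_left_cancel₀ hc
    rw [hd, ih]
    set Q := ∏ i ∈ range n, (1 - 9 * (p : ℚ) ^ 2 / (2 * i + 1) ^ 2)
    have h32 : (32 : ℚ) ^ n ≠ 0 := by positivity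
    rw [pow_succ]
    field_simp
    linear_combination (-(((2 * (n : ℚ) + 1) ^ 2 - 9 * (p : ℚ) ^ 2) * Q * 8 * 32 ^ n)) * hu

/-! ### arithmetic in `R3 p` -/

private theorem cmr_p3 : (p : R3 p) ^ 3 = 0 := by
  rw [← Nat.cast_pow]
  exact ZMod.natCast_self (p ^ 3)

private theorem cmr_inv (hp : p.Prime) {x : ℕ} (h : ¬ p ∣ x) : (x : R3 p) * (x : R3 p)⁻¹ = 1 := by
  apply ZMod.coe_mul_inv_eq_one
  apply Nat.Coprime.pow_right
  exact ((Nat.Prime.coprime_iff_not_dvd hp).2 h).symm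

private theorem cmr_unit (hp : p.Prime) {x : ℕ} (h : ¬ p ∣ x) : IsUnit (x : R3 p) :=
  IsUnit.of_mul_eq_one _ (cmr_inv hp h)

private theorem cmr_two (hp : p.Prime) (h5 : 5 ≤ p) : (2 : R3 p) * (2 : R3 p)⁻¹ = 1 := by
  have h : ¬ p ∣ 2 := fun h => by have := Nat.le_of_dvd (by norm_num) h; omega
  simpa using cmr_inv hp (x := 2) h

private theorem cmr_32 (hp : p.Prime) (h5 : 5 ≤ p) : (32 : R3 p) * (32 : R3 p)⁻¹ = 1 := by
  have h : ¬ p ∣ 32 := by
    intro h
    have h' : p ∣ 2 ^ 5 := by simpa using h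
    have := hp.dvd_of_dvd_pow h'
    have := Nat.le_of_dvd (by norm_num) this
    omega
  simpa using cmr_inv hp (x := 32) h

private theorem cmr_unit8 (hp : p.Prime) (h5 : 5 ≤ p) : IsUnit (8 : R3 p) := by
  have h : ¬ p ∣ 8 := by
    intro h
    have h' : p ∣ 2 ^ 3 := by simpa using h
    have := hp.dvd_of_dvd_pow h'
    have := Nat.le_of_dvd (by norm_num) this
    omega
  simpa using cmr_unit hp (x := 8) h

private theorem cmr_recu (hp : p.Prime) (h5 : 5 ≤ p) (n : ℕ) :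
    8 * ((n : R3 p) + 1) ^ 2 * uN p (n + 1) = (2 * n + 1) ^ 2 * uN p n := by
  have hu := congrArg (Nat.cast : ℕ → R3 p) (uu_rec n)
  push_cast at hu
  have h32 := cmr_32 hp h5
  unfold uN
  rw [pow_succ (32 : R3 p)⁻¹ n]
  linear_combination (8 * (32 : R3 p)⁻¹ ^ n * (32 : R3 p)⁻¹) * hu +
    ((2 * (n : R3 p) + 1) ^ 2 * (uu n : R3 p) * (32 : R3 p)⁻¹ ^ n) * h32

/-- the terms of the exact identity, in `R3 p` -/
private noncomputable def cmr_D (p n : ℕ) : R3 p := (cmr_A p n : R3 p) * (2 : R3 p)⁻¹ ^ n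

private theorem cmr_recD (hp : p.Prime) (h5 : 5 ≤ p) (h2 : p % 2 = 1) (n : ℕ) :
    8 * ((n : R3 p) + 1) ^ 2 * cmr_D p (n + 1) = ((2 * n + 1) ^ 2 - 9 * (p : R3 p) ^ 2) * cmr_D p n := by
  have hA := congrArg (Int.cast : ℤ → R3 p) (cmr_recA h2 n)
  push_cast at hA
  have h22 := cmr_two hp h5
  unfold cmr_D
  rw [pow_succ (2 : R3 p)⁻¹ n]
  linear_combination (2 * (2 : R3 p)⁻¹ ^ n * (2 : R3 p)⁻¹) * hA +
    (((2 * (n : R3 p) + 1) ^ 2 - 9 * (p : R3 p) ^ 2) * (cmr_A p n : R3 p) * (2 : R3 p)⁻¹ ^ n) * h22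

private theorem cmr_A_zero {n : ℕ} (h : (3 * p - 1) / 2 < n) : cmr_A p n = 0 := by
  unfold cmr_A
  rw [Nat.choose_eq_zero_of_lt h]
  simp

private theorem cmr_sum (hp : p.Prime) (h5 : 5 ≤ p) (h : p % 4 = 1) : ∑ n ∈ range (2 * p), cmr_D p n = 0 := by
  obtain ⟨N, hN⟩ : ∃ N, N = (3 * p - 1) / 2 := ⟨_, rfl⟩
  have hNodd : N % 2 = 1 := by omega
  have h1 := Pool.Agent.ADC.lg_odd hNodd
  have hle : N + 1 ≤ 2 * p := by omega
  have h22 := cmr_two hp h5
  have h2 : ∑ n ∈ range (N + 1), cmr_D p n = ∑ n ∈ range (2 * p), cmr_D p n := by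
    apply Finset.sum_subset (Finset.range_mono hle)
    intro n _ hn
    have : N < n := by simpa using hn
    unfold cmr_D
    rw [cmr_A_zero (by rw [← hN]; exact this)]
    simp
  rw [← h2]
  have h3 : ∑ n ∈ range (N + 1), cmr_D p n = (2 : R3 p)⁻¹ ^ N * (Pool.Agent.ADC.lg N : R3 p) := by
    unfold Pool.Agent.ADC.lg
    push_cast
    rw [Finset.mul_sum]
    apply Finset.sum_congr rfl
    intro n hn
    have hn' : n ≤ N := by
      have := Finset.mem_range.mp hn
      omega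
    unfold cmr_D cmr_A
    rw [← hN]
    push_cast
    have h4 : (2 : R3 p)⁻¹ ^ N = (2 : R3 p)⁻¹ ^ (N - n) * (2 : R3 p)⁻¹ ^ n := by
      rw [← pow_add]
      congr 1
      omega
    have h5 : (2 : R3 p) ^ (N - n) * (2 : R3 p)⁻¹ ^ (N - n) = 1 := by
      rw [← mul_pow, h22, one_pow]
    rw [h4]
    linear_combination (-((-1) ^ n * ((N.choose n : ℕ) : R3 p) * (((N + n).choose n : ℕ) : R3 p) * (2 : R3 p)⁻¹ ^ n)) * h5
  rw [h3, h1]
  simp

private theorem cmr_cast (hp : p.Prime) {x : R3 p} (h : ZMod.castHom (dvd_pow_self p (by norm_num : 3 ≠ 0)) (ZMod p) x = 0) :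
    (p : R3 p) ^ 2 * x = 0 := by
  have : NeZero (p ^ 3) := ⟨pow_ne_zero 3 hp.ne_zero⟩
  have h1 : ((x.val : ℕ) : R3 p) = x := ZMod.natCast_zmod_val x
  rw [← h1, map_natCast] at h
  obtain ⟨k, hk⟩ := (ZMod.natCast_eq_zero_iff _ _).1 h
  rw [← h1, hk]
  push_cast
  have := cmr_p3 (p := p)
  linear_combination (k : R3 p) * this

private theorem cmr_sumsq (hp : p.Prime) (h5 : 5 ≤ p) : ∑ i ∈ range p, ((2 * (i : ZMod p) + 1)⁻¹) ^ 2 = 0 := by
  have : Fact p.Prime := ⟨hp⟩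
  have h2 : (2 : ZMod p) ≠ 0 := by
    intro h
    have h' : ((2 : ℕ) : ZMod p) = 0 := by exact_mod_cast h
    have := Nat.le_of_dvd (by norm_num) ((ZMod.natCast_eq_zero_iff _ _).1 h')
    omega
  have e1 : ∑ x : ZMod p, ((2 * x + 1)⁻¹) ^ 2 = ∑ i ∈ range p, ((2 * (i : ZMod p) + 1)⁻¹) ^ 2 := by
    apply Finset.sum_nbij' (ZMod.val) (fun i => (i : ZMod p))
    · intro x _
      exact Finset.mem_range.2 (ZMod.val_lt x)
    · intro i _
      exact Finset.mem_univ _
    · intro x _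
      exact ZMod.natCast_zmod_val x
    · intro i hi
      exact ZMod.val_cast_of_lt (Finset.mem_range.1 hi)
    · intro x _
      rw [ZMod.natCast_zmod_val]
  rw [← e1]
  have hb : Function.Bijective (fun x : ZMod p => 2 * x + 1) := by
    apply Function.Injective.bijective_of_finite
    intro x y hxy
    have : 2 * x + 1 = 2 * y + 1 := hxy
    have h3 : 2 * x = 2 * y := by linear_combination this
    exact mul_left_cancel₀ h2 h3
  have e2 : ∑ x : ZMod p, ((2 * x + 1)⁻¹) ^ 2 = ∑ y : ZMod p, (y⁻¹) ^ 2 :=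
    Fintype.sum_bijective (fun x : ZMod p => 2 * x + 1) hb _ _ (fun x => rfl)
  have e3 : ∑ y : ZMod p, (y⁻¹) ^ 2 = ∑ y : ZMod p, y ^ 2 :=
    Fintype.sum_bijective (fun y : ZMod p => y⁻¹) (inv_involutive.bijective) _ _ (fun x => rfl)
  rw [e2, e3]
  apply FiniteField.sum_pow_lt_card_sub_one
  rw [ZMod.card]
  omega

private theorem cmr_erase (hp : p.Prime) (h5 : 5 ≤ p) {m : ℕ} (hm : p = 2 * m + 1) :
    (p : R3 p) ^ 2 * ∑ i ∈ (range p).erase m, (((2 * i + 1 : ℕ) : R3 p)⁻¹) ^ 2 = 0 := by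
  have : Fact p.Prime := ⟨hp⟩
  apply cmr_cast hp
  rw [map_sum]
  have hmem : m ∈ range p := by
    rw [Finset.mem_range]
    omega
  have h0 : ((2 * (m : ZMod p) + 1)⁻¹) ^ 2 = 0 := by
    have : (2 * (m : ZMod p) + 1) = 0 := by
      have h' : ((p : ℕ) : ZMod p) = ((2 * m + 1 : ℕ) : ZMod p) := by rw [← hm]
      rw [ZMod.natCast_self] at h'
      push_cast at h'
      exact h'.symm
    rw [this]
    simp
  have h1 := cmr_sumsq hp h5
  rw [← Finset.add_sum_erase _ _ hmem, h0, zero_add] at h1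
  rw [← h1]
  apply Finset.sum_congr rfl
  intro i hi
  have hi1 : i ≠ m := Finset.ne_of_mem_erase hi
  have hi2 : i < p := Finset.mem_range.1 (Finset.mem_of_mem_erase hi)
  have hnd : ¬ p ∣ (2 * i + 1) := by
    rintro ⟨c, hc⟩
    have hc2 : c < 2 := by
      by_contra hcon
      have : p * 2 ≤ p * c := Nat.mul_le_mul_left _ (by omega)
      omega
    interval_cases c <;> omega
  have h2 := congrArg (ZMod.castHom (dvd_pow_self p (by norm_num : 3 ≠ 0)) (ZMod p)) (cmr_inv hp hnd)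
  rw [map_mul, map_one, map_natCast] at h2
  rw [map_pow]
  congr 1
  push_cast at h2 ⊢
  exact eq_inv_of_mul_eq_one_right h2

private theorem cmr_prodP (s : Finset ℕ) (w : ℕ → R3 p) (hw : ∀ i ∈ s, (2 * (i : R3 p) + 1) ^ 2 * w i = 1) :
    ∏ i ∈ s, ((2 * (i : R3 p) + 1) ^ 2 - 9 * (p : R3 p) ^ 2) =
      (∏ i ∈ s, (2 * (i : R3 p) + 1) ^ 2) * (1 - 9 * (p : R3 p) ^ 2 * ∑ i ∈ s, w i) := by
  classical
  induction s using Finset.induction_on with
  | empty => simp
  | insert a s ha ih =>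
    rw [Finset.prod_insert ha, Finset.prod_insert ha, Finset.sum_insert ha,
      ih (fun i hi => hw i (Finset.mem_insert_of_mem hi))]
    have h1 := hw a (Finset.mem_insert_self a s)
    have h3 := cmr_p3 (p := p)
    set P := ∏ i ∈ s, (2 * (i : R3 p) + 1) ^ 2
    set S := ∑ i ∈ s, w i
    linear_combination (9 * (p : R3 p) ^ 2 * P) * h1 + (81 * (p : R3 p) * P * S) * h3

private theorem cmr_int (h2 : p % 2 = 1) (n : ℕ) :
    cmr_A p n * 16 ^ n * ∏ i ∈ range n, (2 * (i : ℤ) + 1) ^ 2 =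
      (uu n : ℤ) * ∏ i ∈ range n, ((2 * (i : ℤ) + 1) ^ 2 - 9 * (p : ℤ) ^ 2) := by
  induction n with
  | zero => simp [cmr_A, uu]
  | succ n ih =>
    rw [Finset.prod_range_succ, Finset.prod_range_succ]
    have hA := cmr_recA h2 n
    have hu := congrArg (Nat.cast : ℕ → ℤ) (uu_rec n)
    push_cast at hu
    have hn1 : ((n : ℤ) + 1) ^ 2 ≠ 0 := by positivity
    apply mul_left_cancel₀ hn1
    set P := ∏ i ∈ range n, (2 * (i : ℤ) + 1) ^ 2
    set Q := ∏ i ∈ range n, ((2 * (i : ℤ) + 1) ^ 2 - 9 * (p : ℤ) ^ 2)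
    rw [pow_succ]
    linear_combination (4 * 16 ^ n * P * (2 * (n : ℤ) + 1) ^ 2) * hA +
      (4 * ((2 * (n : ℤ) + 1) ^ 2 - 9 * (p : ℤ) ^ 2) * (2 * (n : ℤ) + 1) ^ 2) * ih -
      (Q * ((2 * (n : ℤ) + 1) ^ 2 - 9 * (p : ℤ) ^ 2)) * hu

private theorem cmr_base (hp : p.Prime) (h5 : 5 ≤ p) {m : ℕ} (hm : p = 2 * m + 1) : cmr_D p p = -8 * uN p p := by
  have h2 : p % 2 = 1 := by omega
  have hI := cmr_int h2 p
  have hmem : m ∈ range p := by
    rw [Finset.mem_range]
    omega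
  rw [← Finset.mul_prod_erase _ _ hmem, ← Finset.mul_prod_erase _ _ hmem] at hI
  have hmz : (2 * (m : ℤ) + 1) = p := by
    rw [hm]
    push_cast
    ring
  rw [hmz] at hI
  have hpz : (p : ℤ) ^ 2 ≠ 0 := by
    have := hp.ne_zero
    positivity
  have hI2 : cmr_A p p * 16 ^ p * ∏ i ∈ (range p).erase m, (2 * (i : ℤ) + 1) ^ 2 =
      -8 * (uu p : ℤ) * ∏ i ∈ (range p).erase m, ((2 * (i : ℤ) + 1) ^ 2 - 9 * (p : ℤ) ^ 2) := by
    apply mul_left_cancel₀ hpz
    linear_combination hI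
  have hI3 := congrArg (Int.cast : ℤ → R3 p) hI2
  push_cast at hI3
  have hnd : ∀ i ∈ (range p).erase m, ¬ p ∣ (2 * i + 1) := by
    intro i hi
    have hi1 : i ≠ m := Finset.ne_of_mem_erase hi
    have hi2 : i < p := Finset.mem_range.1 (Finset.mem_of_mem_erase hi)
    rintro ⟨c, hc⟩
    have hc2 : c < 2 := by
      by_contra hcon
      have : p * 2 ≤ p * c := Nat.mul_le_mul_left _ (by omega)
      omega
    interval_cases c <;> omega
  have hw : ∀ i ∈ (range p).erase m, (2 * (i : R3 p) + 1) ^ 2 * (((2 * i + 1 : ℕ) : R3 p)⁻¹) ^ 2 = 1 := by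
    intro i hi
    have := cmr_inv hp (hnd i hi)
    rw [← mul_pow]
    push_cast at this ⊢
    rw [this, one_pow]
  rw [cmr_prodP _ _ hw] at hI3
  have hz := cmr_erase hp h5 hm
  set S := ∑ i ∈ (range p).erase m, (((2 * i + 1 : ℕ) : R3 p)⁻¹) ^ 2
  set P := ∏ i ∈ (range p).erase m, (2 * (i : R3 p) + 1) ^ 2 with hP
  have hPu : IsUnit P := by
    rw [hP]
    apply IsUnit.prod_iff.2
    intro i hi
    apply IsUnit.pow
    have := cmr_unit hp (hnd i hi)
    push_cast at this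
    exact this
  have hI4 : P * ((cmr_A p p : R3 p) * 16 ^ p) = P * (-8 * (uu p : R3 p)) := by
    linear_combination hI3 + (72 * (uu p : R3 p) * P) * hz
  have hI5 := hPu.mul_left_cancel hI4
  have h32 := cmr_32 hp h5
  have h22 := cmr_two hp h5
  have h16 : (16 : R3 p) * (32 : R3 p)⁻¹ = (2 : R3 p)⁻¹ := by
    linear_combination (2 : R3 p)⁻¹ * h32 - (16 * (32 : R3 p)⁻¹) * h22
  unfold cmr_D uN
  rw [← h16, mul_pow]
  linear_combination ((32 : R3 p)⁻¹ ^ p) * hI5

private theorem cmr_ratio (hp : p.Prime) (h5 : 5 ≤ p) (h2 : p % 2 = 1) (a : ℕ) (c : R3 p) (h0 : cmr_D p a = c * uN p a)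
    (k : ℕ) (hk : ∀ i, i < k → ¬ p ∣ (a + i + 1) ∧ ¬ p ∣ (2 * (a + i) + 1)) :
    cmr_D p (a + k) = c * uN p (a + k) * (1 - 9 * (p : R3 p) ^ 2 * ∑ i ∈ range k, (((2 * (a + i) + 1 : ℕ) : R3 p)⁻¹) ^ 2) := by
  induction k with
  | zero => simpa using h0
  | succ k ih =>
    have ih' := ih (fun i hi => hk i (by omega))
    obtain ⟨k1, k2⟩ := hk k (by omega)
    have hD := cmr_recD hp h5 h2 (a + k)
    have hu := cmr_recu hp h5 (a + k)
    have h3 := cmr_p3 (p := p)
    have hw := cmr_inv hp k2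
    have hun : IsUnit (8 * (((a + k : ℕ) : R3 p) + 1) ^ 2) := by
      apply IsUnit.mul (cmr_unit8 hp h5)
      apply IsUnit.pow
      have := cmr_unit hp k1
      push_cast at this ⊢
      exact this
    rw [Finset.sum_range_succ]
    apply hun.mul_left_cancel
    rw [← add_assoc, hD, ih']
    push_cast at hu hw ⊢
    set w := (2 * ((a : R3 p) + k) + 1)⁻¹ with hwdef
    set S := ∑ x ∈ range k, ((2 * ((a : R3 p) + x) + 1)⁻¹) ^ 2
    set U := uN p (a + k)
    set V := uN p (a + k + 1)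
    have hw2 : (2 * ((a : R3 p) + k) + 1) ^ 2 * w ^ 2 = 1 := by
      rw [← mul_pow, hw, one_pow]
    linear_combination (-(c * (1 - 9 * (p : R3 p) ^ 2 * (S + w ^ 2)))) * hu +
      (9 * (p : R3 p) ^ 2 * c * U) * hw2 + (81 * (p : R3 p) * c * U * S) * h3

private theorem cmr_shift (hp : p.Prime) {a : ℕ} (ha : ¬ p ∣ (2 * a + 1)) :
    (p : R3 p) ^ 2 * (((2 * (p + a) + 1 : ℕ) : R3 p)⁻¹) ^ 2 = (p : R3 p) ^ 2 * (((2 * a + 1 : ℕ) : R3 p)⁻¹) ^ 2 := by
  have hb : ¬ p ∣ (2 * (p + a) + 1) := by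
    intro h
    apply ha
    have : 2 * (p + a) + 1 = p * 2 + (2 * a + 1) := by ring
    rw [this] at h
    exact (Nat.dvd_add_right (Dvd.intro 2 rfl)).1 h
  have h1 := cmr_inv hp ha
  have h2 := cmr_inv hp hb
  have h3 := cmr_p3 (p := p)
  push_cast at h1 h2 ⊢
  set x := (2 * (a : R3 p) + 1)⁻¹
  set y := (2 * ((p : R3 p) + a) + 1)⁻¹
  have h4 : (p : R3 p) ^ 2 * (y - x) = 0 := by
    linear_combination ((p : R3 p) ^ 2 * x) * h2 - ((p : R3 p) ^ 2 * y) * h1 - (2 * x * y) * h3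
  linear_combination (y + x) * h4

private theorem cmr_u8 (hp : p.Prime) (h5 : 5 ≤ p) {j : ℕ} (hj : j < p) :
    (p : R3 p) ^ 2 * (8 * uN p (p + j)) = (p : R3 p) ^ 2 * uN p j := by
  obtain ⟨c1, c2, hb⟩ := blk_uN hp h5
  have h := hb 1 j hj
  rw [one_mul, add_comm j p] at h
  rw [h]
  have h3 := cmr_p3 (p := p)
  have h32 := cmr_32 hp h5
  have h1 : uN p 1 = 4 * (32 : R3 p)⁻¹ := by
    unfold uN uu
    norm_num
  rw [h1]
  push_cast
  linear_combination ((p : R3 p) ^ 2 * (uN p j)) * h32 + (32 * (32 : R3 p)⁻¹ * (c1 j + (p : R3 p) * c2 j)) * h3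

/-- PROOF. m0 := (p-1)/2. In the ring of rationals with denominator prime to p, or after multiplication by units in R3 p. uN p n are the images of uu n / 32^n. O j := ∑_{i<j} 1/(2i+1)^2 (j ≤ m0).
(a) n ≤ m0: dd = u n (1 - 9 p^2 O n) modulo p^3. (b) m0 < n < p: the factor i = m0 is -8, u n is divisible by p^2: dd = -8 u n. (c) n = p + j, j ≤ m0: the factor i = m0 is -8, the sum of 1/(2i+1)^2 over i < p, i ≠ m0 is 0 modulo p
(2 i + 1 runs over all residues; p ≥ 5), and for p ≤ i < p + j it is O j modulo p: dd = -8 u (p+j) (1 - 9 p^2 O j). (d) n = p + j, j > m0: the factor i = p + m0 is 1 - 9p^2/(3p)^2 = 0.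
So 0 = ∑_{j≤m0} u j (1 - 9p^2 O j) - 8 ∑_{m0<j<p} u j - 8 ∑_{j≤m0} u (p+j) (1 - 9 p^2 O j). Since u (p+j) = u 1 u j = u j / 8 modulo p (blk_uN), the terms with O cancel:
8 ∑_{j≤m0} u (p+j) = ∑_{j≤m0} u j - 8 ∑_{m0<j<p} u j.
(e) m0 < j < p: u (p+j) = (9/8) u j modulo p^3: u (p+j) = (1/8) (u j + p a + p^2 b) by blk_uN is not precise enough; directly: C(2j,j) = ∏_{i=1}^{2j} i / (j!)^2 and C(2p+2j,p+j) = C(2p,p) ∏_{i=1}^{2j} (2p+i) / ∏_{i=1}^{j} (p+i)^2, the factor i = p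
is 3p instead of p, the others are congruent modulo p and units: C(2p+2j,p+j) = 6 C(2j,j) modulo p^2, both are divisible by p, so the squares are 36 C(2j,j)^2 modulo p^3; 32^p = 32 modulo p.
Sum: 8 ∑_{j<p} u (p+j) = ∑_{j≤m0} u j - 8 ∑_{j>m0} u j + 9 ∑_{j>m0} u j. -/
theorem cmr (hp : p.Prime) (h5 : 5 ≤ p) (h : p % 4 = 1) : 8 * ∑ j ∈ range p, uN p (j + p) = ∑ j ∈ range p, uN p j := by
  obtain ⟨m, hm⟩ : ∃ m, p = 2 * m + 1 := ⟨p / 2, by omega⟩
  have h2 : p % 2 = 1 := by omega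
  have h3 := cmr_p3 (p := p)
  have h8 := cmr_unit8 hp h5
  have hmp : 2 * (m : R3 p) + 1 = p := by
    have : ((2 * m + 1 : ℕ) : R3 p) = (p : R3 p) := by rw [← hm]
    push_cast at this
    exact this
  -- part (a)
  have ha : ∀ n, n < m + 1 → cmr_D p n = uN p n * (1 - 9 * (p : R3 p) ^ 2 * ∑ i ∈ range n, (((2 * i + 1 : ℕ) : R3 p)⁻¹) ^ 2) := by
    intro n hn
    have h0 : cmr_D p 0 = 1 * uN p 0 := by
      unfold cmr_D cmr_A uN uu
      simp
    have := cmr_ratio hp h5 h2 0 1 h0 n (by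
      intro i hi
      constructor
      · intro hd
        have := Nat.le_of_dvd (by omega) hd
        omega
      · intro hd
        have := Nat.le_of_dvd (by omega) hd
        omega)
    simpa using this
  -- part (c)
  have hc : ∀ j, j < m + 1 → cmr_D p (p + j) = -8 * uN p (p + j) * (1 - 9 * (p : R3 p) ^ 2 * ∑ i ∈ range j, (((2 * i + 1 : ℕ) : R3 p)⁻¹) ^ 2) := by
    intro j hj
    have hnd : ∀ i, i < j → ¬ p ∣ (2 * i + 1) := by
      intro i hi hd
      have := Nat.le_of_dvd (by omega) hd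
      omega
    have := cmr_ratio hp h5 h2 p (-8) (cmr_base hp h5 hm) j (by
      intro i hi
      constructor
      · intro hd
        have hd' : p ∣ p + (i + 1) := by rw [← add_assoc]; exact hd
        have := (Nat.dvd_add_right (dvd_refl p)).1 hd'
        have := Nat.le_of_dvd (by omega) this
        omega
      · intro hd
        apply hnd i hi
        have e : 2 * (p + i) + 1 = p * 2 + (2 * i + 1) := by ring
        rw [e] at hd
        exact (Nat.dvd_add_right (Dvd.intro 2 rfl)).1 hd)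
    rw [this]
    have e : (p : R3 p) ^ 2 * ∑ i ∈ range j, (((2 * (p + i) + 1 : ℕ) : R3 p)⁻¹) ^ 2 =
        (p : R3 p) ^ 2 * ∑ i ∈ range j, (((2 * i + 1 : ℕ) : R3 p)⁻¹) ^ 2 := by
      rw [Finset.mul_sum, Finset.mul_sum]
      apply Finset.sum_congr rfl
      intro i hi
      exact cmr_shift hp (hnd i (Finset.mem_range.1 hi))
    linear_combination (72 * uN p (p + j)) * e
  -- units
  have hun : ∀ n : ℕ, ¬ p ∣ (n + 1) → IsUnit (8 * ((n : R3 p) + 1) ^ 2) := by
    intro n hn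
    apply IsUnit.mul h8
    apply IsUnit.pow
    have := cmr_unit hp hn
    push_cast at this
    exact this
  -- part (b), (e)
  have hb : ∀ k, k < m → (p : R3 p) * uN p (m + 1 + k) = 0 ∧ cmr_D p (m + 1 + k) = -8 * uN p (m + 1 + k) ∧
      (p : R3 p) * uN p (p + (m + 1 + k)) = 0 ∧ 8 * uN p (p + (m + 1 + k)) = 9 * uN p (m + 1 + k) := by
    intro k
    induction k with
    | zero =>
      intro hk
      have hu := cmr_recu hp h5 m
      have hD := cmr_recD hp h5 h2 m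
      have hu' := cmr_recu hp h5 (p + m)
      have hn1 : ¬ p ∣ (m + 1) := by
        intro hd
        have := Nat.le_of_dvd (by omega) hd
        omega
      have hn2 : ¬ p ∣ (p + m + 1) := by
        intro hd
        rw [add_assoc] at hd
        exact hn1 ((Nat.dvd_add_right (dvd_refl p)).1 hd)
      have hU := hun m hn1
      have hU' := hun (p + m) hn2
      have h88 := cmr_u8 hp h5 (j := m) (by omega)
      have haM := ha m (by omega)
      rw [haM] at hD
      set S := ∑ i ∈ range m, (((2 * i + 1 : ℕ) : R3 p)⁻¹) ^ 2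
      rw [hmp] at hu hD
      push_cast at hu' hU'
      have e3 : 2 * ((p : R3 p) + m) + 1 = 3 * p := by linear_combination hmp
      rw [e3] at hu'
      rw [Nat.add_zero, show p + (m + 1) = p + m + 1 by ring]
      have r1 : (p : R3 p) * uN p (m + 1) = 0 := by
        apply hU.mul_left_cancel
        linear_combination (p : R3 p) * hu + (uN p m) * h3
      have r2 : cmr_D p (m + 1) = -8 * uN p (m + 1) := by
        apply hU.mul_left_cancel
        linear_combination hD + 8 * hu + (72 * (p : R3 p) * uN p m * S) * h3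
      have r3 : (p : R3 p) * uN p (p + m + 1) = 0 := by
        apply hU'.mul_left_cancel
        linear_combination (p : R3 p) * hu' + (9 * uN p (p + m)) * h3
      have r4 : 8 * uN p (p + m + 1) = 9 * uN p (m + 1) := by
        apply hU.mul_left_cancel
        linear_combination 8 * hu' + 9 * h88 - 9 * hu - (64 * (2 * ((m : R3 p) + 1) + p)) * r3
      exact ⟨r1, r2, r3, r4⟩
    | succ k ih =>
      intro hk
      obtain ⟨q1, q2, q3, q4⟩ := ih (by omega)
      have hu := cmr_recu hp h5 (m + 1 + k)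
      have hD := cmr_recD hp h5 h2 (m + 1 + k)
      have hu' := cmr_recu hp h5 (p + (m + 1 + k))
      have hn1 : ¬ p ∣ (m + 1 + k + 1) := by
        intro hd
        have := Nat.le_of_dvd (by omega) hd
        omega
      have hn2 : ¬ p ∣ (p + (m + 1 + k) + 1) := by
        intro hd
        rw [add_assoc] at hd
        exact hn1 ((Nat.dvd_add_right (dvd_refl p)).1 hd)
      have hU := hun (m + 1 + k) hn1
      have hU' := hun (p + (m + 1 + k)) hn2
      rw [show m + 1 + (k + 1) = m + 1 + k + 1 by ring, show p + (m + 1 + k + 1) = p + (m + 1 + k) + 1 by ring]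
      rw [q2] at hD
      generalize m + 1 + k = n at *
      push_cast at hu' hU'
      have r1 : (p : R3 p) * uN p (n + 1) = 0 := by
        apply hU.mul_left_cancel
        linear_combination (p : R3 p) * hu + ((2 * (n : R3 p) + 1) ^ 2) * q1
      have r2 : cmr_D p (n + 1) = -8 * uN p (n + 1) := by
        apply hU.mul_left_cancel
        linear_combination hD + 8 * hu + (72 * (p : R3 p)) * q1
      have r3 : (p : R3 p) * uN p (p + n + 1) = 0 := by
        apply hU'.mul_left_cancel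
        linear_combination (p : R3 p) * hu' + ((2 * ((p : R3 p) + n) + 1) ^ 2) * q3
      have r4 : 8 * uN p (p + n + 1) = 9 * uN p (n + 1) := by
        apply hU.mul_left_cancel
        linear_combination 8 * hu' + ((2 * (n : R3 p) + 1) ^ 2) * q4 - 9 * hu +
          (8 * (4 * (2 * (n : R3 p) + 1) + 4 * p)) * q3 - (64 * (2 * ((n : R3 p) + 1) + p)) * r3
      exact ⟨r1, r2, r3, r4⟩
  have hsum := cmr_sum hp h5 h
  have e1 : 2 * p = ((m + 1) + m) + ((m + 1) + m) := by omega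
  have e2 : p = (m + 1) + m := by omega
  have split : ∀ f : ℕ → R3 p, ∑ n ∈ range p, f n = ∑ n ∈ range (m + 1), f n + ∑ k ∈ range m, f (m + 1 + k) := by
    intro f
    have := Finset.sum_range_add f (m + 1) m
    rw [← e2] at this
    exact this
  have split2 : ∑ n ∈ range (2 * p), cmr_D p n = ∑ n ∈ range p, cmr_D p n + ∑ j ∈ range p, cmr_D p (p + j) := by
    rw [two_mul, Finset.sum_range_add]
  rw [split2, split, split] at hsum
  rw [split, split]
  have z : ∑ k ∈ range m, cmr_D p (p + (m + 1 + k)) = 0 := by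
    apply Finset.sum_eq_zero
    intro k _
    unfold cmr_D
    rw [cmr_A_zero (by omega)]
    simp
  have s1 : ∑ k ∈ range m, cmr_D p (m + 1 + k) = -8 * ∑ k ∈ range m, uN p (m + 1 + k) := by
    rw [Finset.mul_sum]
    apply Finset.sum_congr rfl
    intro k hk
    exact (hb k (Finset.mem_range.1 hk)).2.1
  have s2 : 8 * ∑ k ∈ range m, uN p (m + 1 + k + p) = 9 * ∑ k ∈ range m, uN p (m + 1 + k) := by
    rw [Finset.mul_sum, Finset.mul_sum]
    apply Finset.sum_congr rfl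
    intro k hk
    rw [add_comm (m + 1 + k) p]
    exact (hb k (Finset.mem_range.1 hk)).2.2.2
  have s3 : ∑ n ∈ range (m + 1), cmr_D p n + ∑ j ∈ range (m + 1), cmr_D p (p + j) =
      ∑ n ∈ range (m + 1), uN p n - 8 * ∑ n ∈ range (m + 1), uN p (n + p) := by
    rw [Finset.mul_sum, ← Finset.sum_add_distrib, ← Finset.sum_sub_distrib]
    apply Finset.sum_congr rfl
    intro j hj
    have hj' := Finset.mem_range.1 hj
    rw [ha j hj', hc j hj', add_comm j p]
    have h88 := cmr_u8 hp h5 (j := j) (by omega)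
    set S := ∑ i ∈ range j, (((2 * i + 1 : ℕ) : R3 p)⁻¹) ^ 2
    linear_combination (9 * S) * h88
  rw [z, s1, add_zero] at hsum
  linear_combination s2 + (-1 : R3 p) * hsum + s3

end Pool.Agent.T33
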