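import Pool.Agent.T33.CmpB

/-! Project T33 (MP_9f27ff_nt), module Cla (size 3): Clausen's formula and the uniqueness of solutions of second order equations, over the rationals. -/

set_option autoImplicit false

namespace Pool.Agent.T33

open Finset PowerSeries
open Pool.Agent.ADC (cmp theta)

private theorem cla_ode {β : ℚ} {h : ℕ → ℚ}
    (hr : ∀ n : ℕ, ((n : ℚ) + 1) ^ 2 * h (n + 1) = (n ^ 2 + n / 2 + β) * h n) :
    (1 - X) * theta (theta (PowerSeries.mk h)) =
      X * (C (1 / 2) * theta (PowerSeries.mk h) + C β * PowerSeries.mk h) := by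
  ext n
  rw [sub_mul, one_mul, map_sub]
  cases n with
  | zero => simp [theta]
  | succ n =>
    rw [coeff_succ_X_mul, coeff_succ_X_mul, map_add, coeff_C_mul, coeff_C_mul]
    simp only [theta, coeff_mk]
    push_cast
    linear_combination hr n

private theorem cla_one : theta (1 : ℚ⟦X⟧) = 0 := by
  have := ADC.theta_natCast (A := ℚ) 1
  simpa using this

private theorem cla_zero_of {f : ℚ⟦X⟧} {n : ℕ} (h0 : constantCoeff f = 0)
    (h : (X : ℚ⟦X⟧) ^ n ∣ theta f) : (X : ℚ⟦X⟧) ^ n ∣ f := by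
  rw [X_pow_dvd_iff] at h ⊢
  intro m hm
  have h1 := h m hm
  rw [theta, coeff_mk] at h1
  cases m with
  | zero => rwa [← coeff_zero_eq_constantCoeff_apply] at h0
  | succ m =>
    rcases mul_eq_zero.1 h1 with h2 | h2
    · exfalso
      have : ((m + 1 : ℕ) : ℚ) ≠ 0 := by exact_mod_cast Nat.succ_ne_zero m
      exact this h2
    · exact h2

/-- Clausen's formula. PROOF. h := mk h, h1 := theta h, h2 := theta h1, (1 - X) h2 = X (h1 / 2 + β h) (coefficients), y := h^2, theta y = 2 h h1, theta theta y = 2 h1^2 + 2 h h2, ..: y satisfies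
theta^3 y = X (theta^2 + theta + 4 β)(theta + 1/2) y (multiply by (1 - X), use the derivative of the equation of h). Coefficients: (n+1)^3 y (n+1) = (n^2 + n + 4 β)(n + 1/2) y n, so y n = G n. -/
theorem clausen {β : ℚ} {h G : ℕ → ℚ} (h0 : h 0 = 1) (G0 : G 0 = 1) (hr : ∀ n : ℕ, ((n : ℚ) + 1) ^ 2 * h (n + 1) = (n ^ 2 + n / 2 + β) * h n)
    (Gr : ∀ n : ℕ, ((n : ℚ) + 1) ^ 3 * G (n + 1) = (n ^ 2 + n + 4 * β) * (n + 1 / 2) * G n) (n : ℕ) : ∑ ij ∈ antidiagonal n, h ij.1 * h ij.2 = G n := by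
  have e1 := cla_ode hr
  have e2 : theta ((1 - X) * theta (theta (PowerSeries.mk h))) =
      theta (X * (C (1 / 2) * theta (PowerSeries.mk h) + C β * PowerSeries.mk h)) := by rw [e1]
  rw [ADC.theta_mul, ADC.theta_mul, ADC.theta_sub, cla_one, ADC.theta_X, ADC.theta_add,
    ADC.theta_mul, ADC.theta_mul, ADC.theta_C, ADC.theta_C] at e2
  have hc : (2 : ℚ⟦X⟧) * C (1 / 2 : ℚ) = 1 := by
    have : (2 : ℚ⟦X⟧) = C (2 : ℚ) := (map_ofNat (C (R := ℚ)) 2).symm
    rw [this, ← map_mul]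
    norm_num
  have key : (1 - X) * theta (theta (theta (PowerSeries.mk h * PowerSeries.mk h))) =
      X * (C (3 / 2) * theta (theta (PowerSeries.mk h * PowerSeries.mk h)) +
        C (1 / 2 + 4 * β) * theta (PowerSeries.mk h * PowerSeries.mk h) +
        C (2 * β) * (PowerSeries.mk h * PowerSeries.mk h)) := by
    have c1 : (C (3 / 2) : ℚ⟦X⟧) = 3 * C (1 / 2) := by
      have : (3 : ℚ⟦X⟧) = C (3 : ℚ) := (map_ofNat (C (R := ℚ)) 3).symm
      rw [this, ← map_mul]
      norm_num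
    have c2 : (C (1 / 2 + 4 * β) : ℚ⟦X⟧) = C (1 / 2) + 4 * C β := by
      have : (4 : ℚ⟦X⟧) = C (4 : ℚ) := (map_ofNat (C (R := ℚ)) 4).symm
      rw [this, ← map_mul, ← map_add]
    have c3 : (C (2 * β) : ℚ⟦X⟧) = 2 * C β := by
      have : (2 : ℚ⟦X⟧) = C (2 : ℚ) := (map_ofNat (C (R := ℚ)) 2).symm
      rw [this, ← map_mul]
    rw [c1, c2, c3]
    simp only [ADC.theta_mul, ADC.theta_add]
    generalize theta (theta (theta (PowerSeries.mk h))) = H3 at *
    generalize theta (theta (PowerSeries.mk h)) = H2 at *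
    generalize theta (PowerSeries.mk h) = H1 at *
    generalize PowerSeries.mk h = H at *
    generalize (C (1 / 2 : ℚ) : ℚ⟦X⟧) = c at *
    generalize (C β : ℚ⟦X⟧) = b at *
    linear_combination 6 * H1 * e1 + 2 * H * e2 - 2 * X * H * H2 * hc
  have hco : ∀ m, ∑ ij ∈ antidiagonal m, h ij.1 * h ij.2 =
      coeff m (PowerSeries.mk h * PowerSeries.mk h) := by
    intro m
    rw [PowerSeries.coeff_mul]
    simp only [coeff_mk]
  rw [hco]
  induction n with
  | zero =>
    rw [PowerSeries.coeff_mul]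
    simp [h0, G0]
  | succ n ih =>
    have h3 := congrArg (coeff (n + 1)) key
    rw [sub_mul, one_mul, map_sub, coeff_succ_X_mul, coeff_succ_X_mul, map_add, map_add,
      coeff_C_mul, coeff_C_mul, coeff_C_mul] at h3
    simp only [theta, coeff_mk] at h3
    rw [ih] at h3
    have h4 := Gr n
    push_cast at h3
    have h5 : ((n : ℚ) + 1) ^ 3 ≠ 0 := by positivity
    apply mul_left_cancel₀ h5
    rw [h4]
    linear_combination h3

/-- PROOF. g0 := cmp h w, g1 := cmp (n h) w, g2 := cmp (n^2 h) w: (1 - w) g2 = w (g1 / 2 + β g0) (cmp_succ and hr), theta g0 = κ g1, theta g1 = κ g2 (cmp_theta). d0 := y - g0, d1 := y1 - g1: theta d0 = κ d1, (1 - w) theta d1 = κ w (d1 / 2 + β d0).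
If X^n divides d0 and d1 then (second relation, w is divisible by X, 1 - w a unit) theta d1 is divisible by X^(n+1), so X^(n+1) divides d1 up to the constant term for n = 0 (d1 has constant term 0: from theta d0 = κ d1, κ has a unit as constant term),
then the same for d0 (constant term 0). So d0 = 0. -/
theorem ode2_unique {β : ℚ} {h : ℕ → ℚ} (h0 : h 0 = 1) (hr : ∀ n : ℕ, ((n : ℚ) + 1) ^ 2 * h (n + 1) = (n ^ 2 + n / 2 + β) * h n)
    {w κ y y1 : ℚ⟦X⟧} (hw : X ∣ w) (hκ : theta w = κ * w) (hκ0 : constantCoeff κ ≠ 0) (hy0 : constantCoeff y = 1) (hy : theta y = κ * y1)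
    (hy1 : (1 - w) * theta y1 = κ * w * (C (1 / 2) * y1 + C β * y)) : y = cmp h w := by
  have hg0 : (1 - w) * cmp (fun n => (n : ℚ) * ((n : ℚ) * h n)) w =
      w * (C (1 / 2) * cmp (fun n => (n : ℚ) * h n) w + C β * cmp h w) := by
    have h1 := ADC.cmp_succ (c := fun n => (n : ℚ) * ((n : ℚ) * h n)) hw
    have h2 : (fun n : ℕ => (((n + 1 : ℕ) : ℚ)) * ((((n + 1 : ℕ)) : ℚ) * h (n + 1))) =
        fun n : ℕ => ((n : ℚ) * ((n : ℚ) * h n)) + (1 / 2 * ((n : ℚ) * h n) + β * h n) := by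
      funext n
      push_cast
      linear_combination hr n
    rw [h2, ADC.cmp_add _ _ hw, ADC.cmp_add _ _ hw, ADC.cmp_mulC _ hw, ADC.cmp_mulC _ hw] at h1
    simp only [Nat.cast_zero, zero_mul, map_zero, zero_add] at h1
    linear_combination h1
  have t0 := ADC.cmp_theta (c := h) hw hκ
  have t1 := ADC.cmp_theta (c := fun n => (n : ℚ) * h n) hw hκ
  have cc0 : constantCoeff (cmp h w) = 1 := by rw [ADC.cmp_cc hw, h0]
  set g0 := cmp h w with hg0'
  set g1 := cmp (fun n => (n : ℚ) * h n) w with hg1'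
  have d0 : theta (y - g0) = κ * (y1 - g1) := by
    rw [ADC.theta_sub, hy, t0]
    ring
  have d1 : (1 - w) * theta (y1 - g1) = κ * w * (C (1 / 2) * (y1 - g1) + C β * (y - g0)) := by
    rw [ADC.theta_sub, t1]
    linear_combination hy1 - κ * hg0
  have cd0 : constantCoeff (y - g0) = 0 := by
    rw [map_sub, hy0, cc0, sub_self]
  have cd1 : constantCoeff (y1 - g1) = 0 := by
    have h1 := congrArg constantCoeff d0
    rw [map_mul, ← coeff_zero_eq_constantCoeff_apply, theta, coeff_mk] at h1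
    simp only [Nat.cast_zero, zero_mul] at h1
    rcases mul_eq_zero.1 h1.symm with h2 | h2
    · exact absurd h2 hκ0
    · exact h2
  have hu : IsUnit (1 - w : ℚ⟦X⟧) := by
    rw [PowerSeries.isUnit_iff_constantCoeff, map_sub, map_one, X_dvd_iff.1 hw, sub_zero]
    exact isUnit_one
  have key : ∀ n : ℕ, (X : ℚ⟦X⟧) ^ n ∣ y - g0 ∧ (X : ℚ⟦X⟧) ^ n ∣ y1 - g1 := by
    intro n
    induction n with
    | zero => simp
    | succ n ih =>
      obtain ⟨i0, i1⟩ := ih
      have h1 : (X : ℚ⟦X⟧) ^ (n + 1) ∣ (1 - w) * theta (y1 - g1) := by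
        rw [d1, pow_succ']
        refine mul_dvd_mul (dvd_mul_of_dvd_right hw κ) ?_
        exact dvd_add (dvd_mul_of_dvd_right i1 _) (dvd_mul_of_dvd_right i0 _)
      have h2 : (X : ℚ⟦X⟧) ^ (n + 1) ∣ theta (y1 - g1) := (hu.dvd_mul_left).1 h1
      have h3 := cla_zero_of cd1 h2
      have h4 : (X : ℚ⟦X⟧) ^ (n + 1) ∣ theta (y - g0) := by
        rw [d0]
        exact dvd_mul_of_dvd_right h3 κ
      exact ⟨cla_zero_of cd0 h4, h3⟩
  have h5 : y - g0 = 0 := by
    ext m
    exact (X_pow_dvd_iff.1 (key (m + 1)).1) m (by omega)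
  exact sub_eq_zero.1 h5

/-- fourth roots. PROOF. Recursively: theta R = δ R with δ = theta Q / (4 Q) (n * R n = ∑_{i+j=n} δ i R j, δ 0 = 0), R 0 = 1. theta (R^4 Q⁻¹) = 0, so R^4 = Q. -/
theorem root4 {Q : ℚ⟦X⟧} (hQ : constantCoeff Q = 1) : ∃ R : ℚ⟦X⟧, constantCoeff R = 1 ∧ R ^ 4 = Q ∧ 4 * Q * theta R = theta Q * R := by
  have hz : X ∣ Q - 1 := by
    rw [X_dvd_iff, map_sub, hQ, map_one, sub_self]
  set B : ℚ⟦X⟧ := PowerSeries.binomialSeries ℚ (1 / 4 : ℚ) with hB
  set R : ℚ⟦X⟧ := cmp (fun n => coeff n B) (Q - 1) with hR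
  have hmul : ∀ F G : ℚ⟦X⟧, cmp (fun n => coeff n (F * G)) (Q - 1) =
      cmp (fun n => coeff n F) (Q - 1) * cmp (fun n => coeff n G) (Q - 1) := by
    intro F G
    rw [← cmp_mul _ _ hz]
    congr 1
    funext n
    rw [PowerSeries.coeff_mul]
  have hB4 : B * B * (B * B) = 1 + X := by
    rw [hB, ← PowerSeries.binomialSeries_add, ← PowerSeries.binomialSeries_add]
    have h1 : (1 / 4 + 1 / 4 + (1 / 4 + 1 / 4) : ℚ) = ((1 : ℕ) : ℚ) := by norm_num
    rw [h1, PowerSeries.binomialSeries_nat, pow_one]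
  have hR4 : R ^ 4 = Q := by
    have h1 : R ^ 4 = cmp (fun n => coeff n (B * B * (B * B))) (Q - 1) := by
      rw [hmul, hmul]
      ring
    rw [h1, hB4]
    symm
    apply ADC.cmp_unique hz
    intro K
    rcases K with _ | _ | K
    · simp
    · simpa using hz
    · rw [Finset.sum_range_succ', Finset.sum_range_succ']
      have h2 : ∑ k ∈ range K, C (coeff (k + 1 + 1) (1 + X : ℚ⟦X⟧)) * (Q - 1) ^ (k + 1 + 1) = 0 := by
        apply Finset.sum_eq_zero
        intro k _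
        rw [map_add, coeff_one, coeff_X]
        simp
      rw [h2]
      simp [coeff_X]
  refine ⟨R, ?_, hR4, ?_⟩
  · rw [hR, ADC.cmp_cc hz, coeff_zero_eq_constantCoeff_apply, hB,
      PowerSeries.binomialSeries_constantCoeff]
  · have h1 : theta Q = 4 * R ^ 3 * theta R := by
      rw [← hR4, ADC.theta_pow]
      push_cast
      ring
    rw [h1]
    linear_combination (-4 * theta R) * hR4

/-- `f := mk uu`: (1 - 16 X) f2 = 16 X f1 + 4 X f. PROOF. uu_rec: (n+1)^2 uu (n+1) = (16 n^2 + 16 n + 4) uu n. -/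
theorem fQ_ode {uu : ℕ → ℚ} (hr : ∀ n : ℕ, ((n : ℚ) + 1) ^ 2 * uu (n + 1) = 4 * (2 * n + 1) ^ 2 * uu n) :
    (1 - 16 * X) * theta (theta (PowerSeries.mk uu)) = 16 * X * theta (PowerSeries.mk uu) + 4 * X * PowerSeries.mk uu := by
  ext n
  rw [sub_mul, one_mul, map_sub, map_add]
  have e16 : (16 : ℚ⟦X⟧) = C (16 : ℚ) := (map_ofNat (C (R := ℚ)) 16).symm
  have e4 : (4 : ℚ⟦X⟧) = C (4 : ℚ) := (map_ofNat (C (R := ℚ)) 4).symm
  rw [e16, e4, mul_assoc, mul_assoc, mul_assoc, coeff_C_mul, coeff_C_mul, coeff_C_mul]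
  cases n with
  | zero => simp [theta]
  | succ n =>
    rw [coeff_succ_X_mul, coeff_succ_X_mul, coeff_succ_X_mul]
    simp only [theta, coeff_mk]
    push_cast
    linear_combination hr n

end Pool.Agent.T33
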