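import Pool.Agent.ADC.Cmp

/-! Project T33 (MP_9f27ff_nt), module CmpB (size 3): second order versions of the lemmas of ADC/Cmp. -/

set_option autoImplicit false

namespace Pool.Agent.T33

open Finset PowerSeries
open Pool.Agent.ADC (cmp theta)

variable {A B : Type} [CommRing A] [CommRing B] {z : A⟦X⟧}

theorem cmp_X (c : ℕ → A) : cmp c X = PowerSeries.mk c := by
  ext N
  rw [Pool.Agent.ADC.cmp, coeff_mk, coeff_mk]
  rw [Finset.sum_eq_single N]
  · rw [coeff_X_pow_self, mul_one]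
  · intro n _ hn
    rw [coeff_X_pow, if_neg (Ne.symm hn), mul_zero]
  · intro h
    exact absurd (mem_range.2 (Nat.lt_succ_self N)) h

theorem theta_mk (c : ℕ → A) : theta (PowerSeries.mk c) = PowerSeries.mk (fun n => n * c n) := by
  ext n
  rw [theta, coeff_mk, coeff_mk, coeff_mk]

private theorem cmpB_aeval (c : ℕ → A) (z : A⟦X⟧) (K : ℕ) :
    Polynomial.aeval z (∑ n ∈ range K, Polynomial.C (c n) * Polynomial.X ^ n) = ∑ n ∈ range K, C (c n) * z ^ n := by
  rw [map_sum]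
  refine Finset.sum_congr rfl fun n _ => ?_
  rw [map_mul, map_pow, Polynomial.aeval_X, Polynomial.aeval_C]
  rfl

private theorem cmpB_coeff (c : ℕ → A) (K m : ℕ) :
    (∑ n ∈ range K, Polynomial.C (c n) * Polynomial.X ^ n).coeff m = if m < K then c m else 0 := by
  rw [Polynomial.finsetSum_coeff]
  simp only [Polynomial.coeff_C_mul, Polynomial.coeff_X_pow, mul_ite, mul_one, mul_zero]
  rw [Finset.sum_ite_eq]
  simp only [mem_range]

/-- PROOF. Cauchy product; coefficients of z ^ (i + j), or by cmp_unique. -/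
theorem cmp_mul (c d : ℕ → A) (hz : X ∣ z) :
    cmp (fun n => ∑ ij ∈ antidiagonal n, c ij.1 * d ij.2) z = cmp c z * cmp d z := by
  symm
  apply Pool.Agent.ADC.cmp_unique hz
  intro K
  have e1 := Pool.Agent.ADC.cmp_trunc (c := c) hz K
  have e2 := Pool.Agent.ADC.cmp_trunc (c := d) hz K
  have e3 : (X : A⟦X⟧) ^ K ∣ cmp c z * cmp d z -
      (∑ n ∈ range K, C (c n) * z ^ n) * (∑ n ∈ range K, C (d n) * z ^ n) := by
    have h1 := dvd_mul_of_dvd_left e1 (cmp d z)
    have h2 := dvd_mul_of_dvd_right e2 (∑ n ∈ range K, C (c n) * z ^ n)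
    have h3 := dvd_add h1 h2
    convert h3 using 1
    ring
  have e4 : (X : A⟦X⟧) ^ K ∣ (∑ n ∈ range K, C (c n) * z ^ n) * (∑ n ∈ range K, C (d n) * z ^ n) -
      ∑ n ∈ range K, C (∑ ij ∈ antidiagonal n, c ij.1 * d ij.2) * z ^ n := by
    have hp : (Polynomial.X : Polynomial A) ^ K ∣
        (∑ n ∈ range K, Polynomial.C (c n) * Polynomial.X ^ n) * (∑ n ∈ range K, Polynomial.C (d n) * Polynomial.X ^ n) -
        ∑ n ∈ range K, Polynomial.C (∑ ij ∈ antidiagonal n, c ij.1 * d ij.2) * Polynomial.X ^ n := by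
      rw [Polynomial.X_pow_dvd_iff]
      intro m hm
      rw [Polynomial.coeff_sub, cmpB_coeff, if_pos hm, Polynomial.coeff_mul, sub_eq_zero]
      refine Finset.sum_congr rfl fun x hx => ?_
      have hx' := mem_antidiagonal.1 hx
      rw [cmpB_coeff, cmpB_coeff, if_pos (by omega), if_pos (by omega)]
    obtain ⟨Q, hQ⟩ := hp
    have h5 := congrArg (Polynomial.aeval z) hQ
    rw [map_sub, map_mul, cmpB_aeval, cmpB_aeval, cmpB_aeval, map_mul, map_pow, Polynomial.aeval_X] at h5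
    rw [h5]
    exact dvd_mul_of_dvd_left (pow_dvd_pow_of_dvd hz K) _
  have e5 := dvd_add e3 e4
  convert e5 using 1
  ring

/-- PROOF. The same sum. -/
theorem cmp_scale (c : ℕ → A) (τ : A) (hz : X ∣ z) : cmp (fun n => c n * τ ^ n) z = cmp c (C τ * z) := by
  ext N
  simp only [Pool.Agent.ADC.cmp, coeff_mk]
  refine Finset.sum_congr rfl fun n _ => ?_
  rw [mul_pow, ← map_pow, coeff_C_mul]
  ring

/-- PROOF. rescale is a ring homomorphism and preserves divisibility by X ^ K (cmp_unique). -/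
theorem cmp_rescale (c : ℕ → A) (τ : A) (hz : X ∣ z) : PowerSeries.rescale τ (cmp c z) = cmp c (PowerSeries.rescale τ z) := by
  ext N
  rw [coeff_rescale]
  simp only [Pool.Agent.ADC.cmp, coeff_mk]
  rw [Finset.mul_sum]
  refine Finset.sum_congr rfl fun n _ => ?_
  rw [← map_pow, coeff_rescale]
  ring

/-- PROOF. as cmp_block. -/
theorem cmp_block3 {p : ℕ} (hp : 0 < p) (hz : X ∣ z) (c c1 c2 : ℕ → A)
    (hc : ∀ m n, n < p → c (n + m * p) = c m * (c n + p * m * c1 n + p ^ 2 * m ^ 2 * c2 n)) :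
    cmp c z = (∑ n ∈ range p, C (c n) * z ^ n) * cmp c (z ^ p) +
      C (p : A) * (∑ n ∈ range p, C (c1 n) * z ^ n) * cmp (fun m => m * c m) (z ^ p) +
      C (p : A) ^ 2 * (∑ n ∈ range p, C (c2 n) * z ^ n) * cmp (fun m => m ^ 2 * c m) (z ^ p) := by
  symm
  have hzp : X ∣ z ^ p := dvd_trans hz (dvd_pow_self z hp.ne')
  apply Pool.Agent.ADC.cmp_unique_block hp hz
  intro K
  have e1 := dvd_mul_of_dvd_right (Pool.Agent.ADC.cmp_trunc (c := c) hzp K) (∑ n ∈ range p, C (c n) * z ^ n)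
  have e2 := dvd_mul_of_dvd_right (Pool.Agent.ADC.cmp_trunc (c := fun m => (m : A) * c m) hzp K)
    (C (p : A) * (∑ n ∈ range p, C (c1 n) * z ^ n))
  have e2' := dvd_mul_of_dvd_right (Pool.Agent.ADC.cmp_trunc (c := fun m => (m : A) ^ 2 * c m) hzp K)
    (C (p : A) ^ 2 * (∑ n ∈ range p, C (c2 n) * z ^ n))
  have e3 := dvd_add (dvd_add e1 e2) e2'
  convert e3 using 1
  have key : ∑ n ∈ range (K * p), C (c n) * z ^ n =
      (∑ n ∈ range p, C (c n) * z ^ n) * (∑ n ∈ range K, C (c n) * (z ^ p) ^ n) +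
      C (p : A) * (∑ n ∈ range p, C (c1 n) * z ^ n) * (∑ n ∈ range K, C ((n : A) * c n) * (z ^ p) ^ n) +
      C (p : A) ^ 2 * (∑ n ∈ range p, C (c2 n) * z ^ n) * (∑ n ∈ range K, C ((n : A) ^ 2 * c n) * (z ^ p) ^ n) := by
    rw [Pool.Agent.ADC.cmp_sum_blocks, Finset.mul_sum (range K), Finset.mul_sum (range K), Finset.mul_sum (range K),
      ← Finset.sum_add_distrib, ← Finset.sum_add_distrib]
    refine Finset.sum_congr rfl fun m _ => ?_
    rw [mul_assoc (C (p : A)), mul_assoc (C (p : A) ^ 2), Finset.sum_mul, Finset.sum_mul, Finset.sum_mul,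
      Finset.mul_sum (range p), Finset.mul_sum (range p), ← Finset.sum_add_distrib, ← Finset.sum_add_distrib]
    refine Finset.sum_congr rfl fun n hn => ?_
    rw [hc m n (mem_range.1 hn)]
    simp only [map_mul, map_add, map_natCast, map_pow]
    rw [pow_add, mul_comm m p, pow_mul]
    ring
  rw [key]
  ring

private theorem cmpB_pow {p : ℕ} (h3 : (p : A) ^ 3 = 0) {t : A} (ht : 2 * t = 1) (e : A⟦X⟧) (m : ℕ) :
    (1 + C (p : A) * e) ^ m = 1 + (m : A⟦X⟧) * (C (p : A) * e) +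
      C t * ((m : A⟦X⟧) ^ 2 - (m : A⟦X⟧)) * (C (p : A) * e) ^ 2 := by
  have h4 : (C (p : A) * e : A⟦X⟧) ^ 3 = 0 := by
    rw [mul_pow, ← map_pow, h3, map_zero, zero_mul]
  have ht' : 2 * (C t : A⟦X⟧) = 1 := by
    have := congrArg (C (R := A)) ht
    rw [map_mul, map_one] at this
    rw [← this]
    congr 1
  generalize (C (p : A) * e : A⟦X⟧) = y at *
  generalize (C t : A⟦X⟧) = s at *
  induction m with
  | zero => simp
  | succ m ih =>
    rw [pow_succ, ih]
    push_cast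
    linear_combination (s * ((m : A⟦X⟧) ^ 2 - (m : A⟦X⟧))) * h4 - (m : A⟦X⟧) * y ^ 2 * ht'

/-- PROOF. as cmp_perturb: y := C p * e, y ^ 3 = 0, (1 + y) ^ m = 1 + m y + t (m^2 - m) y^2. -/
theorem cmp_perturb3 {p : ℕ} (h3 : (p : A) ^ 3 = 0) {t : A} (ht : 2 * t = 1) {w : A⟦X⟧} (hw : X ∣ w) (c : ℕ → A) (e : A⟦X⟧) :
    cmp c (w * (1 + C (p : A) * e)) = cmp c w + (C (p : A) * e - C t * (C (p : A) * e) ^ 2) * cmp (fun m => m * c m) w +
      C t * (C (p : A) * e) ^ 2 * cmp (fun m => m ^ 2 * c m) w := by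
  symm
  apply Pool.Agent.ADC.cmp_unique (dvd_mul_of_dvd_left hw _)
  intro K
  have e1 := Pool.Agent.ADC.cmp_trunc (c := c) hw K
  have e2 := dvd_mul_of_dvd_right (Pool.Agent.ADC.cmp_trunc (c := fun m => (m : A) * c m) hw K)
    (C (p : A) * e - C t * (C (p : A) * e) ^ 2)
  have e2' := dvd_mul_of_dvd_right (Pool.Agent.ADC.cmp_trunc (c := fun m => (m : A) ^ 2 * c m) hw K)
    (C t * (C (p : A) * e) ^ 2)
  have e3 := dvd_add (dvd_add e1 e2) e2'
  convert e3 using 1
  have key : ∑ n ∈ range K, C (c n) * (w * (1 + C (p : A) * e)) ^ n =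
      (∑ n ∈ range K, C (c n) * w ^ n) +
      (C (p : A) * e - C t * (C (p : A) * e) ^ 2) * (∑ n ∈ range K, C ((n : A) * c n) * w ^ n) +
      C t * (C (p : A) * e) ^ 2 * ∑ n ∈ range K, C ((n : A) ^ 2 * c n) * w ^ n := by
    rw [Finset.mul_sum, Finset.mul_sum, ← Finset.sum_add_distrib, ← Finset.sum_add_distrib]
    refine Finset.sum_congr rfl fun n _ => ?_
    rw [mul_pow, cmpB_pow h3 ht]
    simp only [map_mul, map_natCast, map_pow]
    ring
  rw [key]
  ring

end Pool.Agent.T33
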