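import Pool.Agent.T33.Seq

/-! Project T33 (MP_9f27ff_nt), module Sma (size 4): the primes below 2000 by kernel computation. -/

set_option autoImplicit false

namespace Pool.Agent.T33

open Finset

/-- call by value for natural numbers -/
noncomputable def Sma_force {α : Type} (n : ℕ) (f : ℕ → α) : α :=
  Nat.rec (f 0) (fun k _ => f (k + 1)) n

theorem Sma_force_eq {α : Type} (n : ℕ) (f : ℕ → α) : Sma_force n f = f n := by
  cases n <;> rfl

/-- the loop: numerator and denominator of the partial sums modulo `m` -/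
noncomputable def Sma_loop (m B : ℕ) (num : ℕ → ℕ) (fuel : ℕ) : ℕ → ℕ → ℕ → ℕ → ℕ × ℕ :=
  Nat.rec (fun _ _ d S => (d, S))
    (fun _ ih k a d S =>
      Sma_force (Nat.mod (Nat.mul a (num k)) m) fun a' =>
      Sma_force (Nat.succ k) fun k' =>
      Sma_force (Nat.mod (Nat.mul (Nat.pow k' (nat_lit 3)) B) m) fun u =>
      Sma_force (Nat.mod (Nat.mul d u) m) fun d' =>
      Sma_force (Nat.mod (Nat.add (Nat.mul S u) a') m) fun S' => ih k' a' d' S') fuel

theorem Sma_loop_zero (m B : ℕ) (num : ℕ → ℕ) (k a d S : ℕ) :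
    Sma_loop m B num 0 k a d S = (d, S) := rfl

theorem Sma_loop_succ (m B : ℕ) (num : ℕ → ℕ) (f k a d S : ℕ) :
    Sma_loop m B num (f + 1) k a d S =
      Sma_loop m B num f (k + 1) (a * num k % m) (d * ((k + 1) ^ 3 * B % m) % m)
        ((S * ((k + 1) ^ 3 * B % m) + a * num k % m) % m) := by
  have h : Sma_loop m B num (f + 1) k a d S =
      Sma_force (a * num k % m) fun a' =>
      Sma_force (k + 1) fun k' =>
      Sma_force (k' ^ 3 * B % m) fun u =>
      Sma_force (d * u % m) fun d' =>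
      Sma_force ((S * u + a') % m) fun S' => Sma_loop m B num f k' a' d' S' := rfl
  rw [h]
  simp only [Sma_force_eq]

noncomputable def Sma_numB (k : ℕ) : ℕ :=
  Nat.mul (nat_lit 8) (Nat.pow (Nat.succ (Nat.mul (nat_lit 2) k)) (nat_lit 3))

noncomputable def Sma_numC (k : ℕ) : ℕ :=
  Nat.mul (Nat.mul (Nat.mul (nat_lit 24) (Nat.succ (Nat.mul (nat_lit 2) k)))
    (Nat.succ (Nat.mul (nat_lit 6) k))) (Nat.add (Nat.mul (nat_lit 6) k) (nat_lit 5))

theorem Sma_numB_eq (k : ℕ) : Sma_numB k = 8 * (2 * k + 1) ^ 3 := rfl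

theorem Sma_numC_eq (k : ℕ) : Sma_numC k = 24 * (2 * k + 1) * (6 * k + 1) * (6 * k + 5) := rfl

/-- comparison of two quotients up to the sign `a ^ (p / 2)` modulo `p` -/
noncomputable def Sma_cmp (p m a dx sx dy sy : ℕ) : Bool :=
  (Nat.beq (a ^ (p / 2) % p) 1 && Nat.beq (sx * dy % m) (sy * dx % m)) ||
  (Nat.beq (a ^ (p / 2) % p) (p - 1) && Nat.beq ((sx * dy + sy * dx) % m) 0)

noncomputable def Sma_chk (p : ℕ) : Bool :=
  Sma_force (p ^ 3) fun m =>
    Prod.rec (fun dB SB => Prod.rec (fun dC SC => Prod.rec (fun dE SE =>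
      Sma_cmp p m 3 dB SB dC SC && Sma_cmp p m 33 dB SB dE SE)
      (Sma_loop m 287496 Sma_numC (p - 1) 0 1 1 1))
      (Sma_loop m 1728 Sma_numC (p - 1) 0 1 1 1))
      (Sma_loop m 64 Sma_numB (p - 1) 0 1 1 1)

/-- some `d` with `2 ≤ d < 2 + n` divides `p` properly -/
noncomputable def Sma_div (p n : ℕ) : Bool :=
  Nat.rec false (fun k ih => (Nat.beq (p % (k + 2)) 0 && Nat.blt (k + 2) p) || ih) n

noncomputable def Sma_ok (p : ℕ) : Bool :=
  !(Nat.beq (p % 4) 1) || Nat.blt p 5 || Sma_div p 43 || Sma_chk p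

noncomputable def Sma_rng (lo n : ℕ) : Bool :=
  Nat.rec true (fun k ih => Sma_force (lo + k) (fun p => Sma_ok p) && ih) n

theorem Sma_rng_spec {lo n : ℕ} (h : Sma_rng lo n = true) {p : ℕ} (h1 : lo ≤ p) (h2 : p < lo + n) :
    Sma_ok p = true := by
  induction n with
  | zero => omega
  | succ n ih =>
    have h3 : Sma_rng lo (n + 1) = (Sma_force (lo + n) (fun p => Sma_ok p) && Sma_rng lo n) := rfl
    rw [h3, Sma_force_eq, Bool.and_eq_true] at h
    rcases Nat.lt_or_ge p (lo + n) with h4 | h4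
    · exact ih h.2 h4
    · have h5 : p = lo + n := by omega
      rw [h5]
      exact h.1

theorem Sma_div_spec {p : ℕ} (hp : p.Prime) (n : ℕ) : Sma_div p n = false := by
  induction n with
  | zero => rfl
  | succ n ih =>
    have h3 : Sma_div p (n + 1) = ((Nat.beq (p % (n + 2)) 0 && Nat.blt (n + 2) p) || Sma_div p n) := rfl
    rw [h3, ih, Bool.or_false, Bool.and_eq_false_iff]
    by_contra hc
    push Not at hc
    obtain ⟨h4, h5⟩ := hc
    rw [ne_eq, Bool.not_eq_false] at h4 h5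
    have h6 : p % (n + 2) = 0 := Nat.eq_of_beq_eq_true h4
    have h7 : n + 2 < p := Nat.le_of_ble_eq_true h5
    have h8 : n + 2 ∣ p := Nat.dvd_of_mod_eq_zero h6
    rcases (Nat.dvd_prime hp).1 h8 with h9 | h9 <;> omega


set_option maxRecDepth 100000 in
theorem Sma_r1 : Sma_rng 0 900 = true := by decide +kernel

set_option maxRecDepth 100000 in
theorem Sma_r2 : Sma_rng 900 400 = true := by decide +kernel

set_option maxRecDepth 100000 in
theorem Sma_r3 : Sma_rng 1300 300 = true := by decide +kernel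

set_option maxRecDepth 100000 in
theorem Sma_r4 : Sma_rng 1600 200 = true := by decide +kernel

set_option maxRecDepth 100000 in
theorem Sma_r5 : Sma_rng 1800 200 = true := by decide +kernel

theorem Sma_all {p : ℕ} (h : p < 2000) : Sma_ok p = true := by
  rcases Nat.lt_or_ge p 900 with h1 | h1
  · exact Sma_rng_spec Sma_r1 (by omega) (by omega)
  rcases Nat.lt_or_ge p 1300 with h2 | h2
  · exact Sma_rng_spec Sma_r2 (by omega) (by omega)
  rcases Nat.lt_or_ge p 1600 with h3 | h3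
  · exact Sma_rng_spec Sma_r3 (by omega) (by omega)
  rcases Nat.lt_or_ge p 1800 with h4 | h4
  · exact Sma_rng_spec Sma_r4 (by omega) (by omega)
  · exact Sma_rng_spec Sma_r5 (by omega) (by omega)

theorem Sma_cast_mod {R : Type} [CommRing R] {m : ℕ} (hm : (m : R) = 0) (x : ℕ) :
    ((x % m : ℕ) : R) = (x : R) := by
  have h := Nat.mod_add_div x m
  have h2 := congrArg (Nat.cast (R := R)) h
  push_cast at h2
  rw [hm, zero_mul, add_zero] at h2
  exact h2

theorem Sma_loop_spec {R : Type} [CommRing R] (m B : ℕ) (num : ℕ → ℕ) (c : ℕ → R) (τ : R)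
    (hm : (m : R) = 0) (hB : (B : R) * τ = 1)
    (hrec : ∀ k : ℕ, ((k : R) + 1) ^ 3 * c (k + 1) = (num k : R) * c k) (f : ℕ) :
    ∀ k a d S : ℕ, (a : R) = d * (c k * τ ^ k) → (S : R) = d * ∑ n ∈ range (k + 1), c n * τ ^ n →
      (∀ j : ℕ, k ≤ j → j < k + f → IsUnit ((j : R) + 1)) → IsUnit (d : R) →
      IsUnit ((Sma_loop m B num f k a d S).1 : R) ∧ ((Sma_loop m B num f k a d S).2 : R) =
        (Sma_loop m B num f k a d S).1 * ∑ n ∈ range (k + f + 1), c n * τ ^ n := by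
  induction f with
  | zero =>
    intro k a d S _ hS _ hd
    rw [Sma_loop_zero]
    exact ⟨hd, hS⟩
  | succ f ih =>
    intro k a d S ha hS hu hd
    rw [Sma_loop_succ, show k + (f + 1) + 1 = (k + 1) + f + 1 by ring]
    have e1 : ((a * num k % m : ℕ) : R) = a * num k := by rw [Sma_cast_mod hm]; push_cast; ring
    have e2 : ((d * ((k + 1) ^ 3 * B % m) % m : ℕ) : R) = d * (((k : R) + 1) ^ 3 * B) := by
      rw [Sma_cast_mod hm]
      push_cast
      rw [Sma_cast_mod hm]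
      push_cast
      ring
    have e3 : (((S * ((k + 1) ^ 3 * B % m) + a * num k % m) % m : ℕ) : R) =
        S * (((k : R) + 1) ^ 3 * B) + a * num k := by
      rw [Sma_cast_mod hm]
      push_cast
      rw [Sma_cast_mod hm, Sma_cast_mod hm]
      push_cast
      ring
    have hr := hrec k
    refine ih (k + 1) _ _ _ ?_ ?_ ?_ ?_
    · rw [e1, e2, ha, pow_succ]
      linear_combination (-(d * τ ^ k)) * hr - (d * ((k : R) + 1) ^ 3 * c (k + 1) * τ ^ k) * hB
    · rw [e3, e2, hS, ha, Finset.sum_range_succ (fun n => c n * τ ^ n) (k + 1), pow_succ]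
      linear_combination (-(d * τ ^ k)) * hr - (d * ((k : R) + 1) ^ 3 * c (k + 1) * τ ^ k) * hB
    · intro j hj1 hj2
      exact hu j (by omega) (by omega)
    · rw [e2]
      exact hd.mul (((hu k le_rfl (by omega)).pow 3).mul (IsUnit.of_mul_eq_one _ hB))

theorem Sma_sign {p : ℕ} [Fact p.Prime] (h5 : 5 ≤ p) (a : ℕ) :
    (a ^ (p / 2) % p = 1 → legendreSym p (a : ℤ) = 1) ∧
    (a ^ (p / 2) % p = p - 1 → legendreSym p (a : ℤ) = -1) := by
  have hp : p.Prime := Fact.out
  have h1 := legendreSym.eq_pow p (a : ℤ)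
  have hm : ((p : ℕ) : ZMod p) = 0 := ZMod.natCast_self p
  have hmod : ((a ^ (p / 2) % p : ℕ) : ZMod p) = (((a : ℤ) : ZMod p)) ^ (p / 2) := by
    rw [Sma_cast_mod hm]
    push_cast
    ring
  have h2ne : (2 : ZMod p) ≠ 0 := by
    intro h
    have h3 : ((2 : ℕ) : ZMod p) = 0 := by exact_mod_cast h
    rw [ZMod.natCast_eq_zero_iff] at h3
    have := Nat.le_of_dvd (by norm_num) h3
    omega
  have hane : a ^ (p / 2) % p ≠ 0 → ((a : ℤ) : ZMod p) ≠ 0 := by
    intro h h0
    rw [h0, zero_pow (by omega)] at hmod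
    rw [ZMod.natCast_eq_zero_iff] at hmod
    have h3 := Nat.mod_lt (a ^ (p / 2)) hp.pos
    exact h (Nat.eq_zero_of_dvd_of_lt hmod h3)
  constructor
  · intro h
    rw [h] at hmod
    have ha := hane (by omega)
    rcases legendreSym.eq_one_or_neg_one p ha with h3 | h3
    · exact h3
    · exfalso
      rw [h3, ← hmod] at h1
      push_cast at h1
      apply h2ne
      linear_combination -h1
  · intro h
    have hpc : ((p - 1 : ℕ) : ZMod p) = -1 := by
      rw [Nat.cast_sub (by omega), hm]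
      simp
    rw [h, hpc] at hmod
    have ha := hane (by omega)
    rcases legendreSym.eq_one_or_neg_one p ha with h3 | h3
    · exfalso
      rw [h3, ← hmod] at h1
      push_cast at h1
      apply h2ne
      linear_combination h1
    · exact h3

theorem Sma_cmp_spec {p : ℕ} [Fact p.Prime] (h5 : 5 ≤ p) {a dx sx dy sy : ℕ} {x y : R3 p}
    (h : Sma_cmp p (p ^ 3) a dx sx dy sy = true)
    (hx : IsUnit (dx : R3 p)) (hx' : (sx : R3 p) = dx * x)
    (hy : IsUnit (dy : R3 p)) (hy' : (sy : R3 p) = dy * y) :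
    x = (legendreSym p (a : ℤ) : R3 p) * y := by
  have hm : ((p ^ 3 : ℕ) : R3 p) = 0 := ZMod.natCast_self _
  rw [Sma_cmp, Bool.or_eq_true, Bool.and_eq_true, Bool.and_eq_true] at h
  have hxy := hx.mul hy
  rcases h with ⟨h1, h2⟩ | ⟨h1, h2⟩
  · have h3 := Nat.eq_of_beq_eq_true h1
    have h4 := Nat.eq_of_beq_eq_true h2
    rw [(Sma_sign h5 a).1 h3]
    have h6 := congrArg (Nat.cast (R := R3 p)) h4
    rw [Sma_cast_mod hm, Sma_cast_mod hm] at h6
    push_cast at h6 ⊢
    apply hxy.mul_left_cancel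
    rw [hx', hy'] at h6
    linear_combination h6
  · have h3 := Nat.eq_of_beq_eq_true h1
    have h4 := Nat.eq_of_beq_eq_true h2
    rw [(Sma_sign h5 a).2 h3]
    have h6 := congrArg (Nat.cast (R := R3 p)) h4
    rw [Sma_cast_mod hm] at h6
    push_cast at h6 ⊢
    apply hxy.mul_left_cancel
    rw [hx', hy'] at h6
    linear_combination h6

/-- PROOF. Define a checker over ℕ, evaluated by decide +kernel. For one p: loop k = 0 .. p-1 with state (c, acc): exact c = cB k (resp. cC k) by the recurrences (division exact: c' = c * 24 (2k+1)(6k+1)(6k+5) / (k+1)^3), Horner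
acc' = (acc * B + c) % p^3, so acc = ∑_{k<p} c k B^(p-1-k) modulo p^3. Sign s3: 3^(p/2) % p is 1 or p - 1 (legendreSym.eq_pow), s33 likewise. Check SA * 1728^(p-1) = ± SB * 64^(p-1) and SA * 287496^(p-1) = ± SC * 64^(p-1) modulo p^3.
Check for all p < 2000 with p % 4 = 1 and no divisor d with 2 ≤ d ≤ 44, d < p (if p is prime this holds). Split the range into several theorems if needed (kernel time; structural recursion on fuel; Nat arithmetic is by GMP).
Prove that the checker computes the sums (induction), then divide by the units. -/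
theorem sma {p : ℕ} [Fact p.Prime] (h5 : 5 ≤ p) (hlt : p < 2000) (h : p % 4 = 1) :
    ∑ n ∈ range p, (cB n : R3 p) * (64 : R3 p)⁻¹ ^ n = (legendreSym p 3 : R3 p) * ∑ n ∈ range p, (cC n : R3 p) * (1728 : R3 p)⁻¹ ^ n ∧
    ∑ n ∈ range p, (cB n : R3 p) * (64 : R3 p)⁻¹ ^ n = (legendreSym p 33 : R3 p) * ∑ n ∈ range p, (cC n : R3 p) * (287496 : R3 p)⁻¹ ^ n := by
  have hp : p.Prime := Fact.out
  have hm : ((p ^ 3 : ℕ) : R3 p) = 0 := ZMod.natCast_self _
  have hcop : ∀ x : ℕ, Nat.Coprime x p → IsUnit (x : R3 p) := fun x hx =>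
    (ZMod.isUnit_iff_coprime x (p ^ 3)).2 (Nat.Coprime.pow_right 3 hx)
  have hunit : ∀ j : ℕ, j < p - 1 → IsUnit ((j : R3 p) + 1) := by
    intro j hj
    have h1 := hcop (j + 1) ((Nat.coprime_of_lt_prime (by omega) (by omega) hp).symm)
    push_cast at h1
    exact h1
  have c2 : Nat.Coprime 2 p := (Nat.coprime_primes Nat.prime_two hp).2 (by omega)
  have c3 : Nat.Coprime 3 p := (Nat.coprime_primes Nat.prime_three hp).2 (by omega)
  have c11 : Nat.Coprime 11 p := (Nat.coprime_primes (by norm_num) hp).2 (by omega)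
  have u64 : ((64 : ℕ) : R3 p) * ((64 : ℕ) : R3 p)⁻¹ = 1 :=
    ZMod.mul_inv_of_unit _ (hcop 64 (by
      rw [show 64 = 2 ^ 6 by norm_num]; exact Nat.Coprime.pow_left 6 c2))
  have u1728 : ((1728 : ℕ) : R3 p) * ((1728 : ℕ) : R3 p)⁻¹ = 1 :=
    ZMod.mul_inv_of_unit _ (hcop 1728 (by
      rw [show 1728 = 2 ^ 6 * 3 ^ 3 by norm_num]
      exact Nat.Coprime.mul_left (Nat.Coprime.pow_left 6 c2) (Nat.Coprime.pow_left 3 c3)))
  have u287 : ((287496 : ℕ) : R3 p) * ((287496 : ℕ) : R3 p)⁻¹ = 1 :=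
    ZMod.mul_inv_of_unit _ (hcop 287496 (by
      rw [show 287496 = 2 ^ 3 * 3 ^ 3 * 11 ^ 3 by norm_num]
      exact Nat.Coprime.mul_left (Nat.Coprime.mul_left (Nat.Coprime.pow_left 3 c2)
        (Nat.Coprime.pow_left 3 c3)) (Nat.Coprime.pow_left 3 c11)))
  have hB : ∀ k : ℕ, ((k : R3 p) + 1) ^ 3 * (cB (k + 1) : R3 p) = (Sma_numB k : R3 p) * (cB k : R3 p) := by
    intro k
    have h1 := congrArg (Nat.cast (R := R3 p)) (cB_rec k)
    rw [Sma_numB_eq]
    push_cast at h1 ⊢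
    exact h1
  have hC : ∀ k : ℕ, ((k : R3 p) + 1) ^ 3 * (cC (k + 1) : R3 p) = (Sma_numC k : R3 p) * (cC k : R3 p) := by
    intro k
    have h1 := congrArg (Nat.cast (R := R3 p)) (cC_rec k)
    rw [Sma_numC_eq]
    push_cast at h1 ⊢
    exact h1
  have hcB0 : (cB 0 : R3 p) = 1 := by simp [cB]
  have hcC0 : (cC 0 : R3 p) = 1 := by simp [cC]
  have hr : 0 + (p - 1) + 1 = p := by omega
  have L1 := Sma_loop_spec (p ^ 3) 64 Sma_numB (fun n => (cB n : R3 p)) _ hm u64 hB (p - 1) 0 1 1 1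
    (by simp only [hcB0]; simp) (by simp [hcB0]) (fun j _ hj => hunit j (by omega)) (by simp)
  have L2 := Sma_loop_spec (p ^ 3) 1728 Sma_numC (fun n => (cC n : R3 p)) _ hm u1728 hC (p - 1) 0 1 1 1
    (by simp only [hcC0]; simp) (by simp [hcC0]) (fun j _ hj => hunit j (by omega)) (by simp)
  have L3 := Sma_loop_spec (p ^ 3) 287496 Sma_numC (fun n => (cC n : R3 p)) _ hm u287 hC (p - 1) 0 1 1 1
    (by simp only [hcC0]; simp) (by simp [hcC0]) (fun j _ hj => hunit j (by omega)) (by simp)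
  rw [hr] at L1 L2 L3
  have hok := Sma_all hlt
  rw [Sma_ok, Sma_div_spec hp, h, Bool.or_false] at hok
  have h6 : Nat.blt p 5 = false := by
    rw [Bool.eq_false_iff]
    intro h7
    have := Nat.le_of_ble_eq_true h7
    omega
  rw [h6] at hok
  have hok' : Sma_chk p = true := hok
  rw [Sma_chk, Sma_force_eq] at hok'
  have hok2 : (Sma_cmp p (p ^ 3) 3 (Sma_loop (p ^ 3) 64 Sma_numB (p - 1) 0 1 1 1).1
      (Sma_loop (p ^ 3) 64 Sma_numB (p - 1) 0 1 1 1).2
      (Sma_loop (p ^ 3) 1728 Sma_numC (p - 1) 0 1 1 1).1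
      (Sma_loop (p ^ 3) 1728 Sma_numC (p - 1) 0 1 1 1).2 &&
      Sma_cmp p (p ^ 3) 33 (Sma_loop (p ^ 3) 64 Sma_numB (p - 1) 0 1 1 1).1
      (Sma_loop (p ^ 3) 64 Sma_numB (p - 1) 0 1 1 1).2
      (Sma_loop (p ^ 3) 287496 Sma_numC (p - 1) 0 1 1 1).1
      (Sma_loop (p ^ 3) 287496 Sma_numC (p - 1) 0 1 1 1).2) = true := by
    generalize Sma_loop (p ^ 3) 64 Sma_numB (p - 1) 0 1 1 1 = x1 at hok' ⊢
    generalize Sma_loop (p ^ 3) 1728 Sma_numC (p - 1) 0 1 1 1 = x2 at hok' ⊢
    generalize Sma_loop (p ^ 3) 287496 Sma_numC (p - 1) 0 1 1 1 = x3 at hok' ⊢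
    obtain ⟨a1, b1⟩ := x1
    obtain ⟨a2, b2⟩ := x2
    obtain ⟨a3, b3⟩ := x3
    exact hok'
  rw [Bool.and_eq_true] at hok2
  have R1 := Sma_cmp_spec h5 hok2.1 L1.1 L1.2 L2.1 L2.2
  have R2 := Sma_cmp_spec h5 hok2.2 L1.1 L1.2 L3.1 L3.2
  exact ⟨by simpa using R1, by simpa using R2⟩

end Pool.Agent.T33
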