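import Pool.Agent.T33.Apl
import Pool.Agent.T33.Sma

/-! Project T33 (MP_9f27ff_nt), module Core: the theorem modulo p ^ 3, for all p = 1 mod 4. -/

set_option autoImplicit false

namespace Pool.Agent.T33

open Finset

variable {p : ℕ}

theorem core [Fact p.Prime] (h5 : 5 ≤ p) (h : p % 4 = 1) :
    ∑ n ∈ range p, (cB n : R3 p) * (64 : R3 p)⁻¹ ^ n = (legendreSym p 3 : R3 p) * ∑ n ∈ range p, (cC n : R3 p) * (1728 : R3 p)⁻¹ ^ n ∧
    ∑ n ∈ range p, (cB n : R3 p) * (64 : R3 p)⁻¹ ^ n = (legendreSym p 33 : R3 p) * ∑ n ∈ range p, (cC n : R3 p) * (287496 : R3 p)⁻¹ ^ n := by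
  rcases le_or_gt 2000 p with hb | hb
  · exact apl hb h
  · exact sma h5 hb h

/-- `sum a n / B ^ n` as a fraction of integers -/
def nI (a : ℕ → ℕ) (B N : ℕ) : ℤ := ∑ n ∈ range N, (a n : ℤ) * (B : ℤ) ^ (N - n)

theorem nI_rat (a : ℕ → ℕ) {B : ℕ} (hB : B ≠ 0) (N : ℕ) :
    ∑ n ∈ range N, (a n : ℚ) / (B : ℚ) ^ n = (nI a B N : ℚ) / ((B ^ N : ℤ) : ℚ) := by
  have hB' : (B : ℚ) ≠ 0 := by exact_mod_cast hB
  rw [nI]
  push_cast
  rw [Finset.sum_div]
  apply Finset.sum_congr rfl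
  intro n hn
  have e : (B : ℚ) ^ N = B ^ n * B ^ (N - n) := by rw [← pow_add]; congr 1; have := mem_range.1 hn; omega
  rw [e]
  field_simp

theorem nI_red {a : ℕ → ℕ} {B : ℕ} (hu : (B : R3 p) * (B : R3 p)⁻¹ = 1) (N : ℕ) :
    (nI a B N : R3 p) = (B : R3 p) ^ N * ∑ n ∈ range N, (a n : R3 p) * (B : R3 p)⁻¹ ^ n := by
  rw [nI, Finset.mul_sum]
  push_cast
  apply Finset.sum_congr rfl
  intro n hn
  have e : (B : R3 p) ^ N = B ^ n * B ^ (N - n) := by rw [← pow_add]; congr 1; have := mem_range.1 hn; omega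
  have e2 : (B : R3 p) ^ n * (B : R3 p)⁻¹ ^ n = 1 := by rw [← mul_pow, hu, one_pow]
  rw [e]
  linear_combination (-(a n : R3 p) * B ^ (N - n)) * e2

theorem den_of (hp : p.Prime) (K : ℤ) {B : ℕ} (hB : ¬ p ∣ B) : ¬ p ∣ ((K : ℚ) / (B : ℚ)).den := by
  intro h
  have h1 : (((K : ℚ) / ((B : ℤ) : ℚ)).den : ℤ) ∣ (B : ℤ) := by
    rw [← Rat.divInt_eq_div]
    exact Rat.den_dvd K B
  have h2 : ((K : ℚ) / (B : ℚ)).den ∣ B := by exact_mod_cast h1
  exact hB (h.trans h2)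

/-- transfer of a congruence to rational numbers -/
theorem transfer (hp : p.Prime) {a b : ℕ → ℕ} {B B' N N' : ℕ} (hB : ¬ p ∣ B) (hB' : ¬ p ∣ B') {s t : ℤ}
    (h : (s : R3 p) * ∑ n ∈ range N, (a n : R3 p) * (B : R3 p)⁻¹ ^ n = (t : R3 p) * ∑ n ∈ range N', (b n : R3 p) * (B' : R3 p)⁻¹ ^ n) :
    ¬ p ∣ ((s : ℚ) * ∑ n ∈ range N, (a n : ℚ) / (B : ℚ) ^ n).den ∧
    ¬ p ∣ ((t : ℚ) * ∑ n ∈ range N', (b n : ℚ) / (B' : ℚ) ^ n).den ∧
    ∃ z : ℚ, ¬ p ∣ z.den ∧ (s : ℚ) * (∑ n ∈ range N, (a n : ℚ) / (B : ℚ) ^ n) - (t : ℚ) * (∑ n ∈ range N', (b n : ℚ) / (B' : ℚ) ^ n) = (p : ℚ) ^ 3 * z := by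
  have h0 : B ≠ 0 := by rintro rfl; exact hB (dvd_zero p)
  have h0' : B' ≠ 0 := by rintro rfl; exact hB' (dvd_zero p)
  have hN : ¬ p ∣ B ^ N := fun h => hB (hp.dvd_of_dvd_pow h)
  have hN' : ¬ p ∣ B' ^ N' := fun h => hB' (hp.dvd_of_dvd_pow h)
  have hu := r3_inv hp hB
  have hu' := r3_inv hp hB'
  have key : ((p ^ 3 : ℕ) : ℤ) ∣ s * nI a B N * B' ^ N' - t * nI b B' N' * B ^ N := by
    rw [← ZMod.intCast_zmod_eq_zero_iff_dvd]
    push_cast
    rw [nI_red hu, nI_red hu']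
    linear_combination ((B : R3 p) ^ N * (B' : R3 p) ^ N') * h
  obtain ⟨K, hK⟩ := key
  have hK' : (s : ℚ) * nI a B N * B' ^ N' - t * nI b B' N' * B ^ N = (p : ℚ) ^ 3 * K := by exact_mod_cast hK
  have hq : (B : ℚ) ≠ 0 := by exact_mod_cast h0
  have hq' : (B' : ℚ) ≠ 0 := by exact_mod_cast h0'
  refine ⟨?_, ?_, (K : ℚ) / ((B ^ N * B' ^ N' : ℕ) : ℚ), den_of hp K ?_, ?_⟩
  · rw [nI_rat a h0]
    have := den_of hp (s * nI a B N) hN
    convert this using 3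
    push_cast
    ring
  · rw [nI_rat b h0']
    have := den_of hp (t * nI b B' N') hN'
    convert this using 3
    push_cast
    ring
  · intro h
    rcases (Nat.Prime.dvd_mul hp).1 h with h | h
    · exact hN h
    · exact hN' h
  · rw [nI_rat a h0, nI_rat b h0']
    push_cast
    field_simp
    linear_combination hK'

/-- the first sum may be truncated: PROOF. p divides C(2n, n) for p/2 < n < p. -/
theorem trunc (hp : p.Prime) (h2 : p ≠ 2) : ∑ n ∈ range p, (cB n : R3 p) * (64 : R3 p)⁻¹ ^ n =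
    ∑ n ∈ range ((p - 1) / 2 + 1), (cB n : R3 p) * (64 : R3 p)⁻¹ ^ n := by
  have hodd : p % 2 = 1 := hp.eq_two_or_odd.resolve_left h2
  symm
  apply Finset.sum_subset
  · intro x hx
    simp only [mem_range] at hx ⊢
    have := hp.two_le
    omega
  · intro n hn hn'
    simp only [mem_range, not_lt] at hn hn'
    have hd : p ∣ (2 * n).choose n := by
      have h3 := Nat.choose_mul_factorial_mul_factorial (show n ≤ 2 * n by omega)
      have h4 : 2 * n - n = n := by omega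
      rw [h4] at h3
      have h5 : p ∣ (2 * n).choose n * n.factorial * n.factorial := by
        rw [h3]; exact (hp.dvd_factorial).2 (by omega)
      have h6 : ¬ p ∣ n.factorial := fun h => by have := (hp.dvd_factorial).1 h; omega
      rcases (Nat.Prime.dvd_mul hp).1 h5 with h | h
      · rcases (Nat.Prime.dvd_mul hp).1 h with h | h
        · exact h
        · exact absurd h h6
      · exact absurd h h6
    have h7 : (cB n : R3 p) = 0 := by
      rw [cB, ZMod.natCast_eq_zero_iff]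
      exact pow_dvd_pow_of_dvd hd 3
    rw [h7, zero_mul]

end Pool.Agent.T33
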