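import Pool.Agent.ADC.Cmp

/-! Project T33 (MP_9f27ff_nt: three sums modulo p^3), module Defs (size 0). -/

set_option autoImplicit false

namespace Pool.Agent.T33

open Finset PowerSeries
open Pool.Agent.ADC (cmp theta)

/-- the ring of integers modulo `p ^ 3` -/
abbrev R3 (p : ℕ) := ZMod (p ^ 3)

def uu (n : ℕ) : ℕ := ((2 * n).choose n) ^ 2

def cB (n : ℕ) : ℕ := ((2 * n).choose n) ^ 3

def cC (n : ℕ) : ℕ := (2 * n).choose n * (3 * n).choose n * (6 * n).choose (3 * n)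

/-- functions of `m` which are quadratic polynomials in `p * m` -/
def An (p : ℕ) (g : ℕ → R3 p) : Prop := ∃ a0 a1 a2 : R3 p, ∀ m : ℕ, g m = a0 + p * m * a1 + p ^ 2 * m ^ 2 * a2

/-- the block property -/
def Blk (p : ℕ) (c : ℕ → R3 p) : Prop := ∃ c1 c2 : ℕ → R3 p, ∀ m n : ℕ, n < p →
  c (n + m * p) = c m * (c n + p * m * c1 n + p ^ 2 * m ^ 2 * c2 n)

/-- normalized coefficients of the weight one function at `lambda = X / 2` -/
def uN (p n : ℕ) : R3 p := (uu n : R3 p) * (32 : R3 p)⁻¹ ^ n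

/-- the weight one function -/
noncomputable def fF (p : ℕ) : (R3 p)⟦X⟧ := PowerSeries.mk (uN p)

/-- `g` is a rational function with numerator and denominator of degree at most `d`, defined at 0 and at 1, with value `v` at 1 -/
def Rt (p d : ℕ) (g : (R3 p)⟦X⟧) (v : R3 p) : Prop :=
  ∃ P Q : Polynomial (R3 p), P.natDegree ≤ d ∧ Q.natDegree ≤ d ∧ IsUnit (Q.coeff 0) ∧ IsUnit (Q.eval 1) ∧
    (Q : (R3 p)⟦X⟧) * g = P ∧ Q.eval 1 * v = P.eval 1

/-- the Frobenius lift `X -> X ^ p` -/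
noncomputable def fr (p : ℕ) [Fact p.Prime] : (R3 p)⟦X⟧ →ₐ[R3 p] (R3 p)⟦X⟧ := PowerSeries.expand p (Fact.out : p.Prime).ne_zero

end Pool.Agent.T33
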