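import Pool.Agent.T33.Defs

/-! Project T33 (MP_9f27ff_nt), module RtA (size 4): calculus of rational functions of bounded height. -/

set_option autoImplicit false

namespace Pool.Agent.T33

open Finset PowerSeries
open Pool.Agent.ADC (cmp theta)

variable {p d e : ℕ} {g h : (R3 p)⟦X⟧} {v w : R3 p}

theorem Rt.mono (hg : Rt p d g v) (hde : d ≤ e) : Rt p e g v := by
  obtain ⟨P, Q, h1, h2, h3, h4, h5, h6⟩ := hg
  exact ⟨P, Q, h1.trans hde, h2.trans hde, h3, h4, h5, h6⟩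

theorem Rt.ofPoly (P : Polynomial (R3 p)) (hd : P.natDegree ≤ d) : Rt p d (P : (R3 p)⟦X⟧) (P.eval 1) := by
  refine ⟨P, 1, hd, ?_, ?_, ?_, ?_, ?_⟩
  · rw [Polynomial.natDegree_one]
    exact Nat.zero_le _
  · rw [Polynomial.coeff_one_zero]
    exact isUnit_one
  · rw [Polynomial.eval_one]
    exact isUnit_one
  · rw [Polynomial.coe_one, one_mul]
  · rw [Polynomial.eval_one, one_mul]

theorem Rt.C (a : R3 p) : Rt p 0 (PowerSeries.C a : (R3 p)⟦X⟧) a := by
  have h1 := Rt.ofPoly (p := p) (d := 0) (Polynomial.C a) (by rw [Polynomial.natDegree_C])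
  rw [Polynomial.coe_C, Polynomial.eval_C] at h1
  exact h1

theorem Rt.natCast (n : ℕ) : Rt p 0 (n : (R3 p)⟦X⟧) n := by
  have h1 := Rt.C (p := p) (n : R3 p)
  rw [map_natCast] at h1
  exact h1

theorem Rt.one : Rt p 0 (1 : (R3 p)⟦X⟧) 1 := by
  have h1 := Rt.natCast (p := p) 1
  rw [Nat.cast_one, Nat.cast_one] at h1
  exact h1

theorem Rt.X : Rt p 1 (PowerSeries.X : (R3 p)⟦X⟧) 1 := by
  have h1 := Rt.ofPoly (p := p) (d := 1) Polynomial.X Polynomial.natDegree_X_le
  rw [Polynomial.coe_X, Polynomial.eval_X] at h1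
  exact h1

theorem Rt.add (hg : Rt p d g v) (hh : Rt p e h w) : Rt p (d + e) (g + h) (v + w) := by
  obtain ⟨P1, Q1, h1, h2, h3, h4, h5, h6⟩ := hg
  obtain ⟨P2, Q2, k1, k2, k3, k4, k5, k6⟩ := hh
  refine ⟨P1 * Q2 + P2 * Q1, Q1 * Q2, ?_, ?_, ?_, ?_, ?_, ?_⟩
  · refine (Polynomial.natDegree_add_le _ _).trans (max_le ?_ ?_)
    · exact (Polynomial.natDegree_mul_le).trans (Nat.add_le_add h1 k2)
    · rw [Nat.add_comm d e]
      exact (Polynomial.natDegree_mul_le).trans (Nat.add_le_add k1 h2)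
  · exact (Polynomial.natDegree_mul_le).trans (Nat.add_le_add h2 k2)
  · rw [Polynomial.mul_coeff_zero]
    exact h3.mul k3
  · rw [Polynomial.eval_mul]
    exact h4.mul k4
  · rw [Polynomial.coe_mul, Polynomial.coe_add, Polynomial.coe_mul, Polynomial.coe_mul, ← h5, ← k5]
    ring
  · rw [Polynomial.eval_mul, Polynomial.eval_add, Polynomial.eval_mul, Polynomial.eval_mul, ← h6, ← k6]
    ring

theorem Rt.neg (hg : Rt p d g v) : Rt p d (-g) (-v) := by
  obtain ⟨P, Q, h1, h2, h3, h4, h5, h6⟩ := hg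
  refine ⟨-P, Q, ?_, h2, h3, h4, ?_, ?_⟩
  · rw [Polynomial.natDegree_neg]
    exact h1
  · rw [mul_neg, h5, Polynomial.coe_neg]
  · rw [mul_neg, h6, Polynomial.eval_neg]

theorem Rt.sub (hg : Rt p d g v) (hh : Rt p e h w) : Rt p (d + e) (g - h) (v - w) := by
  rw [sub_eq_add_neg, sub_eq_add_neg]
  exact hg.add hh.neg

theorem Rt.mul (hg : Rt p d g v) (hh : Rt p e h w) : Rt p (d + e) (g * h) (v * w) := by
  obtain ⟨P1, Q1, h1, h2, h3, h4, h5, h6⟩ := hg
  obtain ⟨P2, Q2, k1, k2, k3, k4, k5, k6⟩ := hh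
  refine ⟨P1 * P2, Q1 * Q2, ?_, ?_, ?_, ?_, ?_, ?_⟩
  · exact (Polynomial.natDegree_mul_le).trans (Nat.add_le_add h1 k1)
  · exact (Polynomial.natDegree_mul_le).trans (Nat.add_le_add h2 k2)
  · rw [Polynomial.mul_coeff_zero]
    exact h3.mul k3
  · rw [Polynomial.eval_mul]
    exact h4.mul k4
  · rw [Polynomial.coe_mul, Polynomial.coe_mul, ← h5, ← k5]
    ring
  · rw [Polynomial.eval_mul, Polynomial.eval_mul, ← h6, ← k6]
    ring

theorem Rt.pow (hg : Rt p d g v) (n : ℕ) : Rt p (n * d) (g ^ n) (v ^ n) := by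
  induction n with
  | zero =>
    rw [pow_zero, pow_zero, Nat.zero_mul]
    exact Rt.one
  | succ n ih =>
    rw [pow_succ g n, pow_succ v n, Nat.succ_mul]
    exact ih.mul hg

/-- PROOF. Q1 g = P1, Q2 g = P2, so Q2 P1 = Q1 P2 as polynomials (Polynomial.coe_injective); evaluate at 1. -/
theorem Rt.uniq (hg : Rt p d g v) (hh : Rt p e g w) : v = w := by
  obtain ⟨P1, Q1, h1, h2, h3, h4, h5, h6⟩ := hg
  obtain ⟨P2, Q2, k1, k2, k3, k4, k5, k6⟩ := hh
  have h7 : Q2 * P1 = Q1 * P2 := by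
    apply Polynomial.coe_injective
    rw [Polynomial.coe_mul, Polynomial.coe_mul, ← h5, ← k5]
    ring
  have h8 := congrArg (Polynomial.eval 1) h7
  rw [Polynomial.eval_mul, Polynomial.eval_mul, ← h6, ← k6] at h8
  have h9 : (Q1.eval 1 * Q2.eval 1) * v = (Q1.eval 1 * Q2.eval 1) * w := by linear_combination h8
  exact (h4.mul k4).mul_left_cancel h9

/-- PROOF. Q g = P: the constant coefficient of P is a unit, P 1 = Q 1 * v is a unit, P h = Q. -/
theorem Rt.inv (hg : Rt p d g v) (h1 : g * h = 1) (h2 : v * w = 1) : Rt p d h w := by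
  obtain ⟨P, Q, k1, k2, k3, k4, k5, k6⟩ := hg
  refine ⟨Q, P, k2, k1, ?_, ?_, ?_, ?_⟩
  · have h3 := congrArg (constantCoeff (R := R3 p)) k5
    rw [map_mul, Polynomial.constantCoeff_coe, Polynomial.constantCoeff_coe] at h3
    have h4 := congrArg (constantCoeff (R := R3 p)) h1
    rw [map_mul, map_one] at h4
    rw [← h3]
    exact k3.mul (IsUnit.of_mul_eq_one _ h4)
  · rw [← k6]
    exact k4.mul (IsUnit.of_mul_eq_one _ h2)
  · rw [← k5, mul_assoc, h1, mul_one]
  · rw [← k6, mul_assoc, h2, mul_one]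

/-- PROOF. Q^N * ∑_{n<N} a n g^n = ∑ a n P^n Q^(N-n). -/
theorem Rt.comp (hg : Rt p d g v) (N : ℕ) (a : ℕ → R3 p) :
    Rt p (N * d) (∑ n ∈ range N, PowerSeries.C (a n) * g ^ n) (∑ n ∈ range N, a n * v ^ n) := by
  obtain ⟨P, Q, k1, k2, k3, k4, k5, k6⟩ := hg
  refine ⟨∑ n ∈ range N, Polynomial.C (a n) * P ^ n * Q ^ (N - n), Q ^ N, ?_, ?_, ?_, ?_, ?_, ?_⟩
  · apply Polynomial.natDegree_sum_le_of_forall_le
    intro n hn
    have hn' := mem_range.1 hn
    have h1 : (P ^ n).natDegree ≤ n * d := Polynomial.natDegree_pow_le.trans (Nat.mul_le_mul_left _ k1)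
    have h2 : (Q ^ (N - n)).natDegree ≤ (N - n) * d := Polynomial.natDegree_pow_le.trans (Nat.mul_le_mul_left _ k2)
    have h3 : (Polynomial.C (a n) * P ^ n).natDegree ≤ n * d := (Polynomial.natDegree_C_mul_le _ _).trans h1
    have h4 : N * d = n * d + (N - n) * d := by
      rw [← Nat.add_mul]
      congr 1
      omega
    rw [h4]
    exact (Polynomial.natDegree_mul_le).trans (Nat.add_le_add h3 h2)
  · exact Polynomial.natDegree_pow_le.trans (Nat.mul_le_mul_left _ k2)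
  · rw [Polynomial.coeff_zero_eq_eval_zero, Polynomial.eval_pow, ← Polynomial.coeff_zero_eq_eval_zero]
    exact k3.pow N
  · rw [Polynomial.eval_pow]
    exact k4.pow N
  · have hco : ((∑ n ∈ range N, Polynomial.C (a n) * P ^ n * Q ^ (N - n) : Polynomial (R3 p)) : (R3 p)⟦X⟧) =
        ∑ n ∈ range N, PowerSeries.C (a n) * (P : (R3 p)⟦X⟧) ^ n * (Q : (R3 p)⟦X⟧) ^ (N - n) := by
      rw [← Polynomial.coeToPowerSeries.ringHom_apply, map_sum]
      refine Finset.sum_congr rfl fun n _ => ?_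
      rw [map_mul, map_mul, map_pow, map_pow]
      simp only [Polynomial.coeToPowerSeries.ringHom_apply, Polynomial.coe_C]
    rw [hco, Polynomial.coe_pow, Finset.mul_sum]
    refine Finset.sum_congr rfl fun n hn => ?_
    have hn' := mem_range.1 hn
    rw [← k5, mul_pow]
    have h4 : (Q : (R3 p)⟦X⟧) ^ N = (Q : (R3 p)⟦X⟧) ^ n * (Q : (R3 p)⟦X⟧) ^ (N - n) := by
      rw [← pow_add]
      congr 1
      omega
    rw [h4]
    ring
  · rw [Polynomial.eval_pow, Polynomial.eval_finsetSum, Finset.mul_sum]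
    refine Finset.sum_congr rfl fun n hn => ?_
    have hn' := mem_range.1 hn
    rw [Polynomial.eval_mul, Polynomial.eval_mul, Polynomial.eval_C, Polynomial.eval_pow, Polynomial.eval_pow, ← k6, mul_pow]
    have h4 : Q.eval 1 ^ N = Q.eval 1 ^ n * Q.eval 1 ^ (N - n) := by
      rw [← pow_add]
      congr 1
      omega
    rw [h4]
    ring

end Pool.Agent.T33
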