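import Pool.Agent.T33.Has
import Pool.Agent.T33.RtA
import Pool.Agent.T33.CmpB

/-! Project T33 (MP_9f27ff_nt), module Ind (size 4): independence over rational functions of small height. -/

set_option autoImplicit false

namespace Pool.Agent.T33

open Finset PowerSeries
open Pool.Agent.ADC (cmp theta)

variable {p : ℕ}

private noncomputable def Indf (p : ℕ) : R3 p →+* ZMod p := ZMod.castHom (dvd_pow_self p three_ne_zero) (ZMod p)

private theorem Indf_nat (n : ℕ) : Indf p (n : R3 p) = (n : ZMod p) := map_natCast _ n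

private theorem Indf_ker (hp : p.Prime) {x : R3 p} (h : Indf p x = 0) : ∃ y : R3 p, x = (p : R3 p) * y := by
  have : NeZero (p ^ 3) := ⟨pow_ne_zero 3 hp.ne_zero⟩
  rw [← ZMod.natCast_zmod_val x, Indf_nat, ZMod.natCast_eq_zero_iff] at h
  obtain ⟨k, hk⟩ := h
  refine ⟨(k : R3 p), ?_⟩
  rw [← ZMod.natCast_zmod_val x, hk]
  push_cast
  ring

private theorem Indf_ann (hp : p.Prime) {x : R3 p} {k : ℕ} (hk : k < 3) (h : (p : R3 p) ^ k * x = 0) : Indf p x = 0 := by
  have : NeZero (p ^ 3) := ⟨pow_ne_zero 3 hp.ne_zero⟩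
  rw [← ZMod.natCast_zmod_val x] at h ⊢
  rw [Indf_nat, ZMod.natCast_eq_zero_iff]
  rw [← Nat.cast_pow, ← Nat.cast_mul, ZMod.natCast_eq_zero_iff] at h
  have key : ∀ v : ℕ, p ^ 3 ∣ p ^ k * v → p ∣ v := by
    rintro v ⟨l, hl⟩
    refine ⟨p ^ (2 - k) * l, ?_⟩
    have h3 : p ^ 3 = p ^ k * (p * p ^ (2 - k)) := by
      rw [← pow_succ', ← pow_add]
      congr 1
      omega
    have hpk : 0 < p ^ k := pow_pos hp.pos k
    rw [h3] at hl
    refine Nat.eq_of_mul_eq_mul_left hpk ?_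
    rw [hl]
    ring
  exact key _ h

private theorem Ind_poly (hp : p.Prime) {P : Polynomial (R3 p)} {N : ℕ} (hN : P.natDegree ≤ N) (h : Polynomial.map (Indf p) P = 0) :
    ∃ Q : Polynomial (R3 p), P = Polynomial.C (p : R3 p) * Q ∧ Q.natDegree ≤ N := by
  have h1 : ∀ n, ∃ y : R3 p, P.coeff n = (p : R3 p) * y := fun n =>
    Indf_ker hp (by rw [← Polynomial.coeff_map, h, Polynomial.coeff_zero])
  choose g hg using h1
  refine ⟨∑ n ∈ P.support, Polynomial.monomial n (g n), ?_, ?_⟩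
  · conv_lhs => rw [P.as_sum_support]
    rw [Finset.mul_sum]
    refine Finset.sum_congr rfl fun n _ => ?_
    rw [hg n, Polynomial.C_mul_monomial]
  · refine Polynomial.natDegree_sum_le_of_forall_le _ _ fun n hn => ?_
    exact (Polynomial.natDegree_monomial_le _).trans ((Polynomial.le_natDegree_of_mem_supp n hn).trans hN)

private theorem Ind_ser (hp : p.Prime) {F : (R3 p)⟦X⟧} {k : ℕ} (hk : k < 3) (h : C ((p : R3 p) ^ k) * F = 0) :
    PowerSeries.map (Indf p) F = 0 := by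
  ext n
  rw [coeff_map, map_zero]
  refine Indf_ann hp hk ?_
  have := congrArg (coeff n) h
  rwa [coeff_C_mul, map_zero] at this

private theorem Ind_expand_coe {A : Type} [CommRing A] (hp : p ≠ 0) (P : Polynomial A) :
    expand p hp (P : A⟦X⟧) = ((Polynomial.expand A p P : Polynomial A) : A⟦X⟧) := by
  ext n
  rw [coeff_expand, Polynomial.coeff_coe, Polynomial.coeff_coe, Polynomial.coeff_expand (Nat.pos_of_ne_zero hp)]

private theorem Ind_32 (hp : p.Prime) (h5 : 5 ≤ p) : Indf p ((32 : R3 p)⁻¹) = (32 : ZMod p)⁻¹ := by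
  have : Fact p.Prime := ⟨hp⟩
  have hc : Nat.Coprime 32 p := by
    rw [show 32 = 2 ^ 5 by norm_num]
    exact Nat.Coprime.pow_left 5 ((Nat.coprime_primes Nat.prime_two hp).2 (by omega))
  have h1 : (32 : R3 p) * (32 : R3 p)⁻¹ = 1 := by
    have := ZMod.coe_mul_inv_eq_one (n := p ^ 3) 32 (Nat.Coprime.pow_right 3 hc)
    exact_mod_cast this
  have h2 : (32 : ZMod p) * Indf p ((32 : R3 p)⁻¹) = 1 := by
    have := congrArg (Indf p) h1
    rw [map_mul, map_one, map_ofNat] at this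
    exact this
  exact eq_inv_of_mul_eq_one_right h2

private theorem Ind_uN (hp : p.Prime) (h5 : 5 ≤ p) (n : ℕ) : Indf p (uN p n) = (uu n : ZMod p) * (32 : ZMod p)⁻¹ ^ n := by
  rw [uN, map_mul, map_pow, Indf_nat, Ind_32 hp h5]

private theorem Ind_blk (hp : p.Prime) (h5 : 5 ≤ p) (m n : ℕ) (hn : n < p) :
    (uu (n + m * p) : ZMod p) * (32 : ZMod p)⁻¹ ^ (n + m * p) =
      ((uu m : ZMod p) * (32 : ZMod p)⁻¹ ^ m) * ((uu n : ZMod p) * (32 : ZMod p)⁻¹ ^ n) := by
  obtain ⟨c1, c2, h⟩ := blk_uN hp h5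
  have := congrArg (Indf p) (h m n hn)
  rw [Ind_uN hp h5, map_mul, Ind_uN hp h5, map_add, map_add, Ind_uN hp h5] at this
  rw [this]
  simp only [map_mul, map_pow, map_natCast]
  simp

private theorem Ind_F [Fact p.Prime] (h5 : 5 ≤ p) :
    (PowerSeries.mk fun n => (uu n : ZMod p) * (32 : ZMod p)⁻¹ ^ n) =
      ((hP p : Polynomial (ZMod p)) : (ZMod p)⟦X⟧) * PowerSeries.expand p (Fact.out : p.Prime).ne_zero (PowerSeries.mk fun n => (uu n : ZMod p) * (32 : ZMod p)⁻¹ ^ n) ∧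
    (PowerSeries.mk fun n => n * ((uu n : ZMod p) * (32 : ZMod p)⁻¹ ^ n)) =
      ((hQ p : Polynomial (ZMod p)) : (ZMod p)⟦X⟧) * PowerSeries.expand p (Fact.out : p.Prime).ne_zero (PowerSeries.mk fun n => (uu n : ZMod p) * (32 : ZMod p)⁻¹ ^ n) := by
  have hp : p.Prime := Fact.out
  have h2 : p ≠ 2 := by omega
  have hXp : expand p hp.ne_zero (PowerSeries.mk fun n => (uu n : ZMod p) * (32 : ZMod p)⁻¹ ^ n) =
      cmp (fun n => (uu n : ZMod p) * (32 : ZMod p)⁻¹ ^ n) ((X : (ZMod p)⟦X⟧) ^ p) := by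
    rw [← cmp_X, Pool.Agent.ADC.cmp_expand hp.ne_zero (dvd_refl X), expand_X]
  have hsub : range ((p - 1) / 2 + 1) ⊆ range p := by
    intro n hn
    rw [mem_range] at *
    have := hp.two_le
    omega
  constructor
  · rw [hXp, ← cmp_X, Pool.Agent.ADC.cmp_block0 hp.pos (dvd_refl X) (c := fun n => (uu n : ZMod p) * (32 : ZMod p)⁻¹ ^ n)
      (fun n => (uu n : ZMod p) * (32 : ZMod p)⁻¹ ^ n) (fun m n hn => Ind_blk hp h5 m n hn)]
    congr 1
    rw [hP, ← Polynomial.coeToPowerSeries.ringHom_apply, map_sum]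
    symm
    have : ∀ n, Polynomial.coeToPowerSeries.ringHom (Polynomial.C ((uu n : ZMod p) * (32 : ZMod p)⁻¹ ^ n) * Polynomial.X ^ n) =
        C ((uu n : ZMod p) * (32 : ZMod p)⁻¹ ^ n) * (X : (ZMod p)⟦X⟧) ^ n := by
      intro n
      rw [Polynomial.coeToPowerSeries.ringHom_apply, Polynomial.coe_mul, Polynomial.coe_pow, Polynomial.coe_X, Polynomial.coe_C]
    rw [Finset.sum_congr rfl fun n _ => this n]
    refine Finset.sum_subset hsub fun n hn hn' => ?_
    rw [mem_range] at hn hn'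
    rw [has_zero hp h2 (by omega) hn]
    simp
  · rw [hXp, ← cmp_X, Pool.Agent.ADC.cmp_block0 hp.pos (dvd_refl X) (c := fun n => (uu n : ZMod p) * (32 : ZMod p)⁻¹ ^ n)
      (fun n => (n : ZMod p) * ((uu n : ZMod p) * (32 : ZMod p)⁻¹ ^ n)) (by
        intro m n hn
        rw [Ind_blk hp h5 m n hn]
        push_cast
        simp
        ring)]
    congr 1
    rw [hQ, ← Polynomial.coeToPowerSeries.ringHom_apply, map_sum]
    symm
    have : ∀ n : ℕ, Polynomial.coeToPowerSeries.ringHom (Polynomial.C ((n : ZMod p) * ((uu n : ZMod p) * (32 : ZMod p)⁻¹ ^ n)) * Polynomial.X ^ n) =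
        C ((n : ZMod p) * ((uu n : ZMod p) * (32 : ZMod p)⁻¹ ^ n)) * (X : (ZMod p)⟦X⟧) ^ n := by
      intro n
      rw [Polynomial.coeToPowerSeries.ringHom_apply, Polynomial.coe_mul, Polynomial.coe_pow, Polynomial.coe_X, Polynomial.coe_C]
    rw [Finset.sum_congr rfl fun n _ => this n]
    refine Finset.sum_subset hsub fun n hn hn' => ?_
    rw [mem_range] at hn hn'
    rw [has_zero hp h2 (by omega) hn]
    simp

/-- modulo p. PROOF. F := mk (uu n / 32^n) in (ZMod p)⟦X⟧. cmp_block0 (blk_uN modulo p, has_zero): F = hP * expand F, theta F = hQ * expand F. So expand F = expand hP * W, expand (theta F) = expand hQ * W with W := expand (expand F), constant term 1 (unit).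
Cancel W^2; expand hP = hP^p (ZMod.expand_card), so A hP^(2p) + B hP^p hQ^p + D hQ^(2p) = 0 in (ZMod p)[X]. has_cop: hP^p divides D, degree p (p-1)/2 (has_deg) > natDegree D, so D = 0. Then hP^p divides B, B = 0, then A = 0. -/
theorem ind_modp [Fact p.Prime] (h5 : 5 ≤ p) {A B D : Polynomial (ZMod p)} (hB : B.natDegree < p * ((p - 1) / 2)) (hD : D.natDegree < p * ((p - 1) / 2))
    (h : (A : (ZMod p)⟦X⟧) * (PowerSeries.expand p (Fact.out : p.Prime).ne_zero (PowerSeries.mk fun n => (uu n : ZMod p) * (32 : ZMod p)⁻¹ ^ n)) ^ 2 +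
      (B : (ZMod p)⟦X⟧) * (PowerSeries.expand p (Fact.out : p.Prime).ne_zero (PowerSeries.mk fun n => (uu n : ZMod p) * (32 : ZMod p)⁻¹ ^ n) *
        PowerSeries.expand p (Fact.out : p.Prime).ne_zero (PowerSeries.mk fun n => n * ((uu n : ZMod p) * (32 : ZMod p)⁻¹ ^ n))) +
      (D : (ZMod p)⟦X⟧) * (PowerSeries.expand p (Fact.out : p.Prime).ne_zero (PowerSeries.mk fun n => n * ((uu n : ZMod p) * (32 : ZMod p)⁻¹ ^ n))) ^ 2 = 0) :
    A = 0 ∧ B = 0 ∧ D = 0 := by
  have hp : p.Prime := Fact.out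
  have h2 : p ≠ 2 := by omega
  obtain ⟨hF, hF1⟩ := Ind_F (p := p) h5
  set F : (ZMod p)⟦X⟧ := PowerSeries.mk fun n => (uu n : ZMod p) * (32 : ZMod p)⁻¹ ^ n with hFd
  set F1 : (ZMod p)⟦X⟧ := PowerSeries.mk fun n => n * ((uu n : ZMod p) * (32 : ZMod p)⁻¹ ^ n) with hF1d
  set W : (ZMod p)⟦X⟧ := PowerSeries.expand p hp.ne_zero (PowerSeries.expand p hp.ne_zero F) with hW
  have hWu : IsUnit W := by
    rw [isUnit_iff_constantCoeff, hW, constantCoeff_expand, constantCoeff_expand, hFd, ← coeff_zero_eq_constantCoeff_apply, coeff_mk]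
    simp [uu]
  have e0 : PowerSeries.expand p hp.ne_zero F = ((hP p ^ p : Polynomial (ZMod p)) : (ZMod p)⟦X⟧) * W := by
    conv_lhs => rw [hF]
    rw [map_mul, Ind_expand_coe, ZMod.expand_card]
  have e1 : PowerSeries.expand p hp.ne_zero F1 = ((hQ p ^ p : Polynomial (ZMod p)) : (ZMod p)⟦X⟧) * W := by
    conv_lhs => rw [hF1]
    rw [map_mul, Ind_expand_coe, ZMod.expand_card]
  have h' : ((A * (hP p ^ p) ^ 2 + B * (hP p ^ p * hQ p ^ p) + D * (hQ p ^ p) ^ 2 : Polynomial (ZMod p)) : (ZMod p)⟦X⟧) = 0 := by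
    refine (hWu.pow 2).mul_left_eq_zero.1 ?_
    rw [e0, e1] at h
    simp only [Polynomial.coe_add, Polynomial.coe_mul, Polynomial.coe_pow] at h ⊢
    rw [← h]
    ring
  have hpoly : A * (hP p ^ p) ^ 2 + B * (hP p ^ p * hQ p ^ p) + D * (hQ p ^ p) ^ 2 = 0 :=
    Polynomial.coe_injective _ (by rw [h']; simp)
  have hcop : IsCoprime (hP p ^ p) (hQ p ^ p) := (has_cop hp h2).pow
  have hdeg : (hP p ^ p).natDegree = p * ((p - 1) / 2) := by rw [Polynomial.natDegree_pow, has_deg hp h2]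
  have hne : hP p ^ p ≠ 0 := by
    intro h0
    rw [h0, Polynomial.natDegree_zero] at hdeg
    omega
  have hD0 : D = 0 := by
    by_contra hne'
    have hd : hP p ^ p ∣ D := by
      have : hP p ^ p ∣ D * (hQ p ^ p) ^ 2 :=
        ⟨-(A * hP p ^ p + B * hQ p ^ p), by linear_combination hpoly⟩
      exact (hcop.pow_right (n := 2)).dvd_of_dvd_mul_right this
    have := Polynomial.natDegree_le_of_dvd hd hne'
    omega
  have hAB : A * hP p ^ p + B * hQ p ^ p = 0 := by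
    rw [hD0] at hpoly
    have : hP p ^ p * (A * hP p ^ p + B * hQ p ^ p) = 0 := by linear_combination hpoly
    exact (mul_eq_zero.1 this).resolve_left hne
  have hB0 : B = 0 := by
    by_contra hne'
    have hd : hP p ^ p ∣ B := by
      have : hP p ^ p ∣ B * hQ p ^ p := ⟨-A, by linear_combination hAB⟩
      exact hcop.dvd_of_dvd_mul_right this
    have := Polynomial.natDegree_le_of_dvd hd hne'
    omega
  rw [hB0, zero_mul, add_zero] at hAB
  exact ⟨(mul_eq_zero.1 hAB).resolve_right hne, hB0, hD0⟩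

private theorem Ind_descent [Fact p.Prime] (h5 : 5 ≤ p) {N : ℕ} (hN : N < p * ((p - 1) / 2)) {A B D : Polynomial (R3 p)}
    (hA : A.natDegree ≤ N) (hB : B.natDegree ≤ N) (hD : D.natDegree ≤ N)
    (h : (A : (R3 p)⟦X⟧) * fr p (fF p) ^ 2 + (B : (R3 p)⟦X⟧) * (fr p (fF p) * fr p (theta (fF p))) + (D : (R3 p)⟦X⟧) * fr p (theta (fF p)) ^ 2 = 0)
    (k : ℕ) (hk : k ≤ 3) :
    ∃ A1 B1 D1 : Polynomial (R3 p), A = Polynomial.C ((p : R3 p) ^ k) * A1 ∧ B = Polynomial.C ((p : R3 p) ^ k) * B1 ∧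
      D = Polynomial.C ((p : R3 p) ^ k) * D1 ∧ A1.natDegree ≤ N ∧ B1.natDegree ≤ N ∧ D1.natDegree ≤ N := by
  have hp : p.Prime := Fact.out
  induction k with
  | zero => exact ⟨A, B, D, by simp, by simp, by simp, hA, hB, hD⟩
  | succ k ih =>
    obtain ⟨A1, B1, D1, eA, eB, eD, dA, dB, dD⟩ := ih (by omega)
    have h1 : C ((p : R3 p) ^ k) * ((A1 : (R3 p)⟦X⟧) * fr p (fF p) ^ 2 + (B1 : (R3 p)⟦X⟧) * (fr p (fF p) * fr p (theta (fF p))) +
        (D1 : (R3 p)⟦X⟧) * fr p (theta (fF p)) ^ 2) = 0 := by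
      rw [← h, eA, eB, eD, Polynomial.coe_mul, Polynomial.coe_mul, Polynomial.coe_mul, Polynomial.coe_C]
      ring
    have h2 := Ind_ser hp (by omega : k < 3) h1
    have hF : PowerSeries.map (Indf p) (fr p (fF p)) = PowerSeries.expand p hp.ne_zero (PowerSeries.mk fun n => (uu n : ZMod p) * (32 : ZMod p)⁻¹ ^ n) := by
      rw [fr, PowerSeries.map_expand]
      congr 1
      ext n
      rw [coeff_map, fF, coeff_mk, coeff_mk, Ind_uN hp h5]
    have hF1 : PowerSeries.map (Indf p) (fr p (theta (fF p))) =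
        PowerSeries.expand p hp.ne_zero (PowerSeries.mk fun n => n * ((uu n : ZMod p) * (32 : ZMod p)⁻¹ ^ n)) := by
      rw [fr, PowerSeries.map_expand]
      congr 1
      ext n
      rw [coeff_map, fF, theta_mk, coeff_mk, coeff_mk, map_mul, Indf_nat, Ind_uN hp h5]
    rw [map_add, map_add, map_mul, map_mul, map_mul, map_mul, map_pow, map_pow, hF, hF1, ← Polynomial.polynomial_map_coe,
      ← Polynomial.polynomial_map_coe, ← Polynomial.polynomial_map_coe] at h2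
    obtain ⟨zA, zB, zD⟩ := ind_modp h5 ((Polynomial.natDegree_map_le.trans dB).trans_lt hN) ((Polynomial.natDegree_map_le.trans dD).trans_lt hN) h2
    obtain ⟨A2, eA2, dA2⟩ := Ind_poly hp dA zA
    obtain ⟨B2, eB2, dB2⟩ := Ind_poly hp dB zB
    obtain ⟨D2, eD2, dD2⟩ := Ind_poly hp dD zD
    have hC : Polynomial.C ((p : R3 p) ^ (k + 1)) = Polynomial.C ((p : R3 p) ^ k) * Polynomial.C (p : R3 p) := by
      have hpw : ∀ x : R3 p, x ^ (k + 1) = x ^ k * x := fun x => by ring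
      rw [← Polynomial.C_mul, hpw]
    refine ⟨A2, B2, D2, ?_, ?_, ?_, dA2, dB2, dD2⟩
    · rw [eA, eA2, hC, mul_assoc]
    · rw [eB, eB2, hC, mul_assoc]
    · rw [eD, eD2, hC, mul_assoc]

/-- PROOF. Common denominator Q = Q1 Q2 Q3 (a unit of the power series ring): polynomials A, B, D of degree ≤ a + b + c over R3 p with A f'^2 + B f' f1' + D f1'^2 = 0. If A = p^k A1, B = p^k B1, D = p^k D1 with k < 3
(coefficientwise; degrees ≤ a + b + c), then p^k (A1 f'^2 + ..) = 0, so A1 f'^2 + .. is 0 modulo p, ind_modp: A1, B1, D1 are 0 modulo p. Three steps: A = B = D = 0. Q α = A = 0, so α = 0. -/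
theorem indep [Fact p.Prime] (h5 : 5 ≤ p) {a b c : ℕ} {α β γ : (R3 p)⟦X⟧} {va vb vc : R3 p} (hα : Rt p a α va) (hβ : Rt p b β vb) (hγ : Rt p c γ vc)
    (hd : a + b + c < p * ((p - 1) / 2))
    (h : α * fr p (fF p) ^ 2 + β * (fr p (fF p) * fr p (theta (fF p))) + γ * fr p (theta (fF p)) ^ 2 = 0) :
    α = 0 ∧ β = 0 ∧ γ = 0 := by
  have hp : p.Prime := Fact.out
  obtain ⟨P1, Q1, dP1, dQ1, u1, -, e1, -⟩ := hα
  obtain ⟨P2, Q2, dP2, dQ2, u2, -, e2, -⟩ := hβ
  obtain ⟨P3, Q3, dP3, dQ3, u3, -, e3, -⟩ := hγ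
  have U1 : IsUnit (Q1 : (R3 p)⟦X⟧) := by
    rw [isUnit_iff_constantCoeff, ← coeff_zero_eq_constantCoeff_apply, Polynomial.coeff_coe]; exact u1
  have U2 : IsUnit (Q2 : (R3 p)⟦X⟧) := by
    rw [isUnit_iff_constantCoeff, ← coeff_zero_eq_constantCoeff_apply, Polynomial.coeff_coe]; exact u2
  have U3 : IsUnit (Q3 : (R3 p)⟦X⟧) := by
    rw [isUnit_iff_constantCoeff, ← coeff_zero_eq_constantCoeff_apply, Polynomial.coeff_coe]; exact u3
  have hAd : (P1 * Q2 * Q3).natDegree ≤ a + b + c :=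
    Polynomial.natDegree_mul_le_of_le (Polynomial.natDegree_mul_le_of_le dP1 dQ2) dQ3
  have hBd : (Q1 * P2 * Q3).natDegree ≤ a + b + c :=
    Polynomial.natDegree_mul_le_of_le (Polynomial.natDegree_mul_le_of_le dQ1 dP2) dQ3
  have hDd : (Q1 * Q2 * P3).natDegree ≤ a + b + c :=
    Polynomial.natDegree_mul_le_of_le (Polynomial.natDegree_mul_le_of_le dQ1 dQ2) dP3
  have hh : ((P1 * Q2 * Q3 : Polynomial (R3 p)) : (R3 p)⟦X⟧) * fr p (fF p) ^ 2 +
      ((Q1 * P2 * Q3 : Polynomial (R3 p)) : (R3 p)⟦X⟧) * (fr p (fF p) * fr p (theta (fF p))) +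
      ((Q1 * Q2 * P3 : Polynomial (R3 p)) : (R3 p)⟦X⟧) * fr p (theta (fF p)) ^ 2 = 0 := by
    simp only [Polynomial.coe_mul]
    rw [← e1, ← e2, ← e3]
    linear_combination ((Q1 : (R3 p)⟦X⟧) * (Q2 : (R3 p)⟦X⟧) * (Q3 : (R3 p)⟦X⟧)) * h
  obtain ⟨A3, B3, D3, eA, eB, eD, -, -, -⟩ := Ind_descent h5 hd hAd hBd hDd hh 3 le_rfl
  have hp3 : (p : R3 p) ^ 3 = 0 := by
    rw [← Nat.cast_pow]
    exact ZMod.natCast_self (p ^ 3)
  rw [hp3, Polynomial.C_0, zero_mul] at eA eB eD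
  refine ⟨?_, ?_, ?_⟩
  · have := congrArg (fun P : Polynomial (R3 p) => (P : (R3 p)⟦X⟧)) eA
    simp only [Polynomial.coe_mul, Polynomial.coe_zero] at this
    rw [← e1] at this
    exact U1.mul_right_eq_zero.1 (U2.mul_left_eq_zero.1 (U3.mul_left_eq_zero.1 this))
  · have := congrArg (fun P : Polynomial (R3 p) => (P : (R3 p)⟦X⟧)) eB
    simp only [Polynomial.coe_mul, Polynomial.coe_zero] at this
    rw [← e2] at this
    exact U2.mul_right_eq_zero.1 (U1.mul_right_eq_zero.1 (U3.mul_left_eq_zero.1 this))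
  · have := congrArg (fun P : Polynomial (R3 p) => (P : (R3 p)⟦X⟧)) eD
    simp only [Polynomial.coe_mul, Polynomial.coe_zero] at this
    rw [← e3] at this
    exact U3.mul_right_eq_zero.1 ((U1.mul U2).mul_right_eq_zero.1 this)

end Pool.Agent.T33
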