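import Pool.Agent.T33.RtB
import Pool.Agent.T33.Ana

/-! Project T33 (MP_9f27ff_nt), module Rho (size 3): the multiplier of a square root. -/

set_option autoImplicit false

namespace Pool.Agent.T33

open Finset PowerSeries
open Pool.Agent.ADC (cmp theta)

variable {p : ℕ}

private theorem Rho_eq {A : Type*} [CommRing A] {a b : A} (h : a ^ 2 = b ^ 2)
    (hu : IsUnit (a + b)) : a = b := by
  have h1 : (a - b) * (a + b) = 0 := by linear_combination h
  have h2 : a - b = 0 := (IsUnit.mul_left_eq_zero hu).1 h1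
  linear_combination h2

/-- PROOF. Q is a unit (constant coefficient 1). t := 2⁻¹. Rt.frob: Q^p = fr Q + p η, q^p = q + p w. ε := η (fr Q)⁻¹, value w/q, height 3 p e; so 1 + p w / q = q^(p-1). s1 := 1 + t p ε - t^3 p^2 ε^2 (height 9 p e), s1^2 = 1 + p ε.
ρ := (Q⁻¹)^((p-1)/2) * s1, height at most 10 p e. r^p = r Q^((p-1)/2). (r^p)^2 = Q^p = fr Q (1 + p ε) = (s1 fr r)^2, and r^p + s1 fr r has constant coefficient 1 + (1 + p ..), a unit (2 is one), so r^p = s1 fr r.
Value of s1: v1^2 = q^(p-1) = (s q^((p-1)/2))^2, v1 = 1 + p .., s q^((p-1)/2) = s^2 + p .. = 1 + p .., the sum is a unit, so v1 = s q^((p-1)/2), and the value of ρ is s. -/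
theorem rho [Fact p.Prime] (h5 : 5 ≤ p) {r Q : (R3 p)⟦X⟧} {q s : R3 p} {e : ℕ} (hr : r ^ 2 = Q) (hc : constantCoeff r = 1) (hQ : Rt p e Q q)
    (hq : IsUnit q) (hs : s ^ 2 = 1) (hs' : ∃ y, q ^ ((p - 1) / 2) = s + p * y) :
    ∃ ρ, Rt p (11 * p * e) ρ s ∧ r = ρ * fr p r := by
  have hp : p.Prime := Fact.out
  obtain ⟨y, hy⟩ := hs'
  obtain ⟨h, hh⟩ : ∃ h, p = 2 * h + 1 := by
    rcases hp.eq_two_or_odd with h | h
    · omega
    · exact ⟨p / 2, by omega⟩
  have hh1 : (p - 1) / 2 = h := by omega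
  rw [hh1] at hy
  have hcube : (p : R3 p) ^ 3 = 0 := r3_cube
  have hcube' : (p : (R3 p)⟦X⟧) ^ 3 = 0 := by
    rw [← map_natCast (PowerSeries.C (R := R3 p)) p, ← map_pow, hcube, map_zero]
  obtain ⟨t, ht⟩ : ∃ t : R3 p, 2 * t = 1 := by
    have h2 := r3_unit hp (x := 2) (fun h1 => by have := Nat.le_of_dvd (by norm_num) h1; omega)
    obtain ⟨t, ht⟩ := h2.exists_right_inv
    exact ⟨t, by exact_mod_cast ht⟩
  have hunit : ∀ z : R3 p, IsUnit (2 + (p : R3 p) * z) := by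
    intro z
    refine IsUnit.of_mul_eq_one (t - t ^ 2 * (p * z) + t ^ 3 * (p * z) ^ 2) ?_
    linear_combination (1 - t * (p * z) + t ^ 2 * (p * z) ^ 2) * ht + t ^ 3 * z ^ 3 * hcube
  obtain ⟨qi, hqi⟩ := hq.exists_right_inv
  have hQc : constantCoeff Q = 1 := by rw [← hr, map_pow, hc, one_pow]
  obtain ⟨Qi, hQi⟩ : ∃ Qi, Q * Qi = 1 :=
    (PowerSeries.isUnit_iff_constantCoeff.2 (by rw [hQc]; exact isUnit_one)).exists_right_inv
  obtain ⟨η, w, hη, hQp, hqp⟩ := hQ.frob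
  have hFI : fr p Q * fr p Qi = 1 := by rw [← map_mul, hQi, map_one]
  have hfrQi : Rt p (p * e) (fr p Qi) qi := hQ.fr.inv hFI hqi
  have hε : Rt p (2 * p * e + p * e) (η * fr p Qi) (w * qi) := hη.mul hfrQi
  have hE1 : (p : (R3 p)⟦X⟧) * (η * fr p Qi) * fr p Q = p * η := by
    linear_combination ((p : (R3 p)⟦X⟧) * η) * hFI
  have hE2 : 1 + (p : R3 p) * (w * qi) = (q ^ h) ^ 2 := by
    have e1 : q ^ p = q * (q ^ h) ^ 2 := by
      have : q ^ p = q ^ (2 * h + 1) := congrArg (fun n => q ^ n) hh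
      rw [this]
      ring
    rw [e1] at hqp
    linear_combination (-1 + (q ^ h) ^ 2) * hqi - qi * hqp
  generalize hE : η * fr p Qi = E at *
  generalize hEv : w * qi = Ev at *
  obtain ⟨T, hTt⟩ : ∃ T, T = PowerSeries.C t := ⟨_, rfl⟩
  have hT : (2 : (R3 p)⟦X⟧) * T = 1 := by
    have := congrArg (PowerSeries.C (R := R3 p)) ht
    rw [map_mul, map_ofNat, map_one] at this
    rw [hTt]
    exact this
  obtain ⟨s1, hs1⟩ : ∃ s1, s1 = 1 + T * p * E - T ^ 3 * p ^ 2 * E ^ 2 := ⟨_, rfl⟩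
  obtain ⟨v1, hv1⟩ : ∃ v1, v1 = 1 + t * p * Ev - t ^ 3 * p ^ 2 * Ev ^ 2 := ⟨_, rfl⟩
  have hRs1 : Rt p (9 * p * e) s1 v1 := by
    have h1 := (Rt.one (p := p)).add ((Rt.C (p := p) (t * p)).mul hε)
    have h2 := h1.sub ((Rt.C (p := p) (t ^ 3 * p ^ 2)).mul (hε.pow 2))
    have e1 : s1 = 1 + PowerSeries.C (t * (p : R3 p)) * E -
        PowerSeries.C (t ^ 3 * (p : R3 p) ^ 2) * E ^ 2 := by
      rw [hs1, hTt]
      simp only [map_mul, map_pow, map_natCast]
    rw [e1, hv1]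
    refine h2.mono ?_
    nlinarith
  have hs1sq : s1 ^ 2 = 1 + p * E := by
    rw [hs1]
    linear_combination (p * E - T ^ 2 * p ^ 2 * E ^ 2) * hT +
      (-2 * T ^ 4 * E ^ 3 + T ^ 6 * p * E ^ 4) * hcube'
  have hv1sq : v1 ^ 2 = (q ^ h) ^ 2 := by
    rw [← hE2, hv1]
    linear_combination (p * Ev - t ^ 2 * p ^ 2 * Ev ^ 2) * ht +
      (-2 * t ^ 4 * Ev ^ 3 + t ^ 6 * p * Ev ^ 4) * hcube
  have hrp : r ^ p = r * Q ^ h := by
    have : r ^ p = r ^ (2 * h + 1) := congrArg (fun n => r ^ n) hh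
    rw [this, ← hr]
    ring
  have hkey : r ^ p = s1 * fr p r := by
    apply Rho_eq
    · have e1 : (r ^ p) ^ 2 = Q ^ p := by rw [← hr]; ring
      have e2 : (fr p r) ^ 2 = fr p Q := by rw [← map_pow, hr]
      rw [e1, hQp, mul_pow, hs1sq, e2]
      linear_combination - hE1
    · rw [PowerSeries.isUnit_iff_constantCoeff]
      have e3 : constantCoeff (fr p r) = 1 := by
        rw [← hc]
        exact PowerSeries.constantCoeff_expand p _ r
      have e4 : constantCoeff (r ^ p + s1 * fr p r) =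
          2 + (p : R3 p) * (t * constantCoeff E - t ^ 3 * p * (constantCoeff E) ^ 2) := by
        rw [map_add, map_pow, hc, map_mul, e3, hs1, hTt]
        simp only [map_add, map_sub, map_mul, map_pow, map_natCast, map_one,
          PowerSeries.constantCoeff_C]
        ring
      rw [e4]
      exact hunit _
  have hval : v1 = s * q ^ h := by
    apply Rho_eq
    · rw [hv1sq]
      linear_combination (-(q ^ h) ^ 2) * hs
    · have e1 : v1 + s * q ^ h = 2 + (p : R3 p) * (t * Ev - t ^ 3 * p * Ev ^ 2 + s * y) := by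
        rw [hv1, hy]
        linear_combination hs
      rw [e1]
      exact hunit _
  refine ⟨Qi ^ h * s1, ?_, ?_⟩
  · have h1 : Rt p e Qi qi := hQ.inv hQi hqi
    have h2 := (h1.pow h).mul hRs1
    have e1 : qi ^ h * v1 = s := by
      rw [hval]
      have : (q * qi) ^ h = 1 := by rw [hqi, one_pow]
      rw [mul_pow] at this
      linear_combination s * this
    rw [e1] at h2
    refine h2.mono ?_
    have : h ≤ p := by omega
    nlinarith
  · have e1 : Q ^ h * Qi ^ h = 1 := by rw [← mul_pow, hQi, one_pow]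
    rw [hrp] at hkey
    linear_combination (-r) * e1 + Qi ^ h * hkey
end Pool.Agent.T33
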