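import Pool.Agent.T33.RtB
import Pool.Agent.T33.CmpB
import Pool.Agent.T33.CMr

/-! Project T33 (MP_9f27ff_nt), module RowF (size 3): the row of the weight one function. -/

set_option autoImplicit false

namespace Pool.Agent.T33

open Finset PowerSeries
open Pool.Agent.ADC (cmp theta)

variable {p : ℕ}

private theorem rowF_nd (hp : p.Prime) (h5 : 5 ≤ p) (k : ℕ) : ¬ p ∣ 2 ^ k := by
  intro h
  have := Nat.le_of_dvd (by norm_num) (hp.dvd_of_dvd_pow h)
  omega

private theorem rowF_32 (hp : p.Prime) (h5 : 5 ≤ p) : (32 : R3 p) * (32 : R3 p)⁻¹ = 1 := by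
  have := r3_inv hp (rowF_nd hp h5 5)
  norm_num at this
  exact this

private theorem rowF_rec (hp : p.Prime) (h5 : 5 ≤ p) (n : ℕ) :
    8 * ((n : R3 p) + 1) ^ 2 * uN p (n + 1) = (2 * (n : R3 p) + 1) ^ 2 * uN p n := by
  have h := congrArg (Nat.cast (R := R3 p)) (uu_rec n)
  push_cast at h
  have h32 := rowF_32 hp h5
  unfold uN
  set s : R3 p := (32 : R3 p)⁻¹ with hs
  have hps : s ^ (n + 1) = s ^ n * s := pow_succ s n
  rw [hps]
  linear_combination (8 * s ^ n * s) * h + ((2 * (n : R3 p) + 1) ^ 2 * (uu n : R3 p) * s ^ n) * h32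

/-- PROOF. coefficients: uu_rec. (2 - X) θ^2 f = X θ f + (X / 4) f. -/
theorem fF_ode (hp : p.Prime) (h5 : 5 ≤ p) : 4 * (2 - X) * theta (theta (fF p)) = 4 * X * theta (fF p) + X * fF p := by
  have e4 : (4 : (R3 p)⟦X⟧) = C (4 : R3 p) := (map_ofNat (PowerSeries.C (R := R3 p)) 4).symm
  have e8 : (8 : (R3 p)⟦X⟧) = C (8 : R3 p) := (map_ofNat (PowerSeries.C (R := R3 p)) 8).symm
  have hL : 4 * (2 - X) * theta (theta (fF p)) = C 8 * theta (theta (fF p)) - C 4 * (X * theta (theta (fF p))) := by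
    rw [← e4, ← e8]; ring
  have hR : 4 * X * theta (fF p) + X * fF p = C 4 * (X * theta (fF p)) + X * fF p := by
    rw [← e4]; ring
  rw [hL, hR]
  ext n
  cases n with
  | zero =>
    simp only [map_sub, map_add, coeff_C_mul, coeff_zero_X_mul]
    simp [Pool.Agent.ADC.theta]
  | succ n =>
    simp only [map_sub, map_add, coeff_C_mul, coeff_succ_X_mul]
    simp only [Pool.Agent.ADC.theta, coeff_mk, fF]
    have h := rowF_rec hp h5 n
    push_cast
    linear_combination h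

private theorem rowF_poly (c : ℕ → R3 p) : Rt p p (∑ n ∈ range p, PowerSeries.C (c n) * X ^ n : (R3 p)⟦X⟧) (∑ n ∈ range p, c n) := by
  have h := Rt.ofPoly (p := p) (d := p) (∑ n ∈ range p, Polynomial.C (c n) * Polynomial.X ^ n) ?_
  · convert h using 1
    · rw [← Polynomial.coeToPowerSeries.ringHom_apply, map_sum]
      refine Finset.sum_congr rfl fun n _ => ?_
      rw [map_mul, map_pow, Polynomial.coeToPowerSeries.ringHom_apply, Polynomial.coeToPowerSeries.ringHom_apply, Polynomial.coe_C,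
        Polynomial.coe_X]
    · rw [Polynomial.eval_finsetSum]
      exact Finset.sum_congr rfl fun n _ => by simp
  · apply Polynomial.natDegree_sum_le_of_forall_le
    intro n hn
    exact (Polynomial.natDegree_C_mul_X_pow_le _ _).trans (mem_range.1 hn).le

private theorem rowF_val (hp : p.Prime) (h5 : 5 ≤ p) (h : p % 4 = 1) (c1 c2 : ℕ → R3 p)
    (hc : ∀ m n : ℕ, n < p → uN p (n + m * p) = uN p m * (uN p n + p * m * c1 n + p ^ 2 * m ^ 2 * c2 n)) :
    (p : R3 p) * ∑ n ∈ range p, c1 n + (p : R3 p) ^ 2 * ∑ n ∈ range p, c2 n = 0 := by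
  have h1 := cmr hp h5 h
  have h32 := rowF_32 hp h5
  have hu : 8 * uN p 1 = 1 := by
    unfold uN uu
    norm_num
    linear_combination h32
  have h2 : ∑ j ∈ range p, uN p (j + p) = uN p 1 * (∑ n ∈ range p, uN p n + ((p : R3 p) * ∑ n ∈ range p, c1 n + (p : R3 p) ^ 2 * ∑ n ∈ range p, c2 n)) := by
    rw [Finset.mul_sum, Finset.mul_sum, ← Finset.sum_add_distrib, ← Finset.sum_add_distrib, Finset.mul_sum]
    refine Finset.sum_congr rfl fun n hn => ?_
    have := hc 1 n (mem_range.1 hn)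
    rw [one_mul] at this
    rw [this]
    push_cast
    ring
  rw [h2] at h1
  linear_combination h1 - (∑ n ∈ range p, uN p n + ((p : R3 p) * ∑ n ∈ range p, c1 n + (p : R3 p) ^ 2 * ∑ n ∈ range p, c2 n)) * hu

/-- PROOF. cmp_block3 for uN (blk_uN: c1, c2) at z = X: f = U0' fr f + p U1' fr (theta f) + p^2 U2' fr (theta (theta f)) (cmp_X, theta_mk, cmp_expand), all polynomials of degree < p. With fr of fF_ode:
v1 := X (2-X)⁻¹, v0 := v1 / 4, U0 := U0' + p^2 U2' fr v0, U1 := p U1' + p^2 U2' fr v1. The value of U1 at 1 is p ∑ c1 + p^2 ∑ c2 (v1 = 1 at 1). Blk with m = 1: ∑_{j<p} uN (j+p) = uN 1 (∑ uN j + p ∑ c1 j + p^2 ∑ c2 j),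
uN 1 = 4/32 = 1/8, so cmr gives that the value is 0. -/
theorem rowF [Fact p.Prime] (h5 : 5 ≤ p) (h : p % 4 = 1) : ∃ U0 U1 V, Rt p (4 * p) U0 V ∧ Rt p (4 * p) U1 0 ∧
    fF p = U0 * fr p (fF p) + U1 * fr p (theta (fF p)) := by
  have hp : p.Prime := Fact.out
  obtain ⟨c1, c2, hc⟩ := blk_uN (p := p) hp h5
  have hb := cmp_block3 (A := R3 p) (z := X) hp.pos (dvd_refl X) (uN p) c1 c2 hc
  have hex : ∀ c : ℕ → R3 p, cmp c ((X : (R3 p)⟦X⟧) ^ p) = fr p (PowerSeries.mk c) := by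
    intro c
    have := Pool.Agent.ADC.cmp_expand (c := c) (z := (X : (R3 p)⟦X⟧)) hp.ne_zero (dvd_refl X)
    rw [cmp_X, expand_X] at this
    rw [← this]
    rfl
  have ht2 : (PowerSeries.mk fun m => (m : R3 p) ^ 2 * uN p m) = theta (theta (fF p)) := by
    rw [fF, theta_mk, theta_mk]
    congr 1
    ext m
    ring
  rw [cmp_X, hex, hex, hex, ht2, ← theta_mk] at hb
  -- the inverse of 2 - X
  have h2u : IsUnit (2 : R3 p) := by
    have := r3_unit hp (rowF_nd hp h5 1)
    norm_num at this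
    exact this
  have hR2 : Rt p 1 ((2 : (R3 p)⟦X⟧) - X) 1 := by
    have h1 := (Rt.natCast (p := p) 2).sub (Rt.X (p := p))
    norm_num at h1
    exact h1
  have hun : IsUnit ((2 : (R3 p)⟦X⟧) - X) := by
    rw [PowerSeries.isUnit_iff_constantCoeff, map_sub, constantCoeff_X, sub_zero, map_ofNat]
    exact h2u
  obtain ⟨w, hw⟩ := hun.exists_right_inv
  have hRw : Rt p 1 w 1 := hR2.inv hw (by ring)
  have h4u : (4 : R3 p) * (4 : R3 p)⁻¹ = 1 := by
    have := r3_inv hp (rowF_nd hp h5 2)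
    norm_num at this
    exact this
  set t : R3 p := (4 : R3 p)⁻¹ with ht
  have h4C : (4 : (R3 p)⟦X⟧) * C t = 1 := by
    have : (4 : (R3 p)⟦X⟧) = C (4 : R3 p) := (map_ofNat (PowerSeries.C (R := R3 p)) 4).symm
    rw [this, ← map_mul, h4u, map_one]
  have hRv1 : Rt p 2 (X * w) 1 := by
    have := (Rt.X (p := p)).mul hRw
    norm_num at this
    exact this
  have hRv0 : Rt p 2 (C t * (X * w)) t := by
    have := (Rt.C (p := p) t).mul hRv1
    norm_num at this
    exact this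
  have hode : theta (theta (fF p)) = (X * w) * theta (fF p) + (C t * (X * w)) * fF p := by
    have h1 := fF_ode hp h5
    linear_combination (w * C t) * h1 - (theta (theta (fF p))) * hw - theta (theta (fF p)) * (2 - X) * w * h4C + (X * w) * theta (fF p) * h4C
  have hfr := congrArg (fr p) hode
  rw [map_add, map_mul (fr p) (X * w), map_mul (fr p) (C t * (X * w))] at hfr
  have hF1 := hRv1.fr
  have hF0 := hRv0.fr
  set P0 : (R3 p)⟦X⟧ := ∑ n ∈ range p, PowerSeries.C (uN p n) * X ^ n with hP0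
  set P1 : (R3 p)⟦X⟧ := ∑ n ∈ range p, PowerSeries.C (c1 n) * X ^ n with hP1
  set P2 : (R3 p)⟦X⟧ := ∑ n ∈ range p, PowerSeries.C (c2 n) * X ^ n with hP2
  have r0 : Rt p p P0 (∑ n ∈ range p, uN p n) := rowF_poly (uN p)
  have r1 : Rt p p P1 (∑ n ∈ range p, c1 n) := rowF_poly c1
  have r2 : Rt p p P2 (∑ n ∈ range p, c2 n) := rowF_poly c2
  have k1 := (Rt.C (p := p) (p : R3 p))
  have k2 := (Rt.C (p := p) ((p : R3 p) ^ 2))
  have a0 := r0.add ((k2.mul r2).mul hF0)
  have a1 := (k1.mul r1).add ((k2.mul r2).mul hF1)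
  have hv := rowF_val hp h5 h c1 c2 hc
  have a1' : Rt p (4 * p) (C (p : R3 p) * P1 + C ((p : R3 p) ^ 2) * P2 * fr p (X * w)) 0 := by
    have := a1.mono (e := 4 * p) (by omega)
    rw [mul_one, hv] at this
    exact this
  refine ⟨P0 + C ((p : R3 p) ^ 2) * P2 * fr p (C t * (X * w)), C (p : R3 p) * P1 + C ((p : R3 p) ^ 2) * P2 * fr p (X * w), _, a0.mono (by omega), a1', ?_⟩
  have hb' : fF p = P0 * fr p (fF p) + C (p : R3 p) * P1 * fr p (theta (fF p)) + C (p : R3 p) ^ 2 * P2 * fr p (theta (theta (fF p))) := hb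
  have hpw : C ((p : R3 p) ^ 2) = (C (p : R3 p) : (R3 p)⟦X⟧) ^ 2 := map_pow C (p : R3 p) 2
  rw [hpw]
  rw [hfr] at hb'
  linear_combination hb'

end Pool.Agent.T33
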