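import Pool.Agent.T33.Row
import Pool.Agent.T33.RowF
import Pool.Agent.T33.Ind
import Pool.Agent.T33.Rho

/-! Project T33 (MP_9f27ff_nt), module Gen (size 5): the generic theorem. -/

set_option autoImplicit false

namespace Pool.Agent.T33

open Finset PowerSeries
open Pool.Agent.ADC (cmp theta)

variable {p : ℕ}

/-- the purely algebraic part of the elimination; here k, d, kd, dd, v0, v1 stand for the Frobenius images of kappa, delta, theta kappa, theta delta, v0, v1. PROOF. α - t d β + t (d^2 + d v1 - dd - 2 v0) γ = k^3 (c0 - ρ (..)), linear_combination. -/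
theorem gen_elim {S : Type} [CommRing S] {t k d kd dd v0 v1 c0 c1 c2 U0 U1 ρ : S} (ht : 2 * t = 1) (hk : IsUnit k)
    (hγ : 2 * k * c2 - k ^ 3 * ρ * U1 ^ 2 = 0)
    (hβ : 2 * k ^ 2 * c1 + c2 * (k * (4 * d + 2 * v1) - 2 * kd) - 2 * k ^ 3 * ρ * (U0 * U1) = 0)
    (hα : k ^ 3 * c0 + k ^ 2 * c1 * d + c2 * (k * (d ^ 2 + dd + 2 * v0) - kd * d) - k ^ 3 * ρ * U0 ^ 2 = 0) :
    c0 = ρ * (U0 ^ 2 - d * (U0 * U1) + t * U1 ^ 2 * (d ^ 2 + d * v1 - dd - 2 * v0)) := by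
  have hE : k ^ 3 * (c0 - ρ * (U0 ^ 2 - d * (U0 * U1) + t * U1 ^ 2 * (d ^ 2 + d * v1 - dd - 2 * v0))) = 0 := by
    linear_combination hα - t * d * hβ + t * (d ^ 2 + d * v1 - dd - 2 * v0) * hγ +
      (k ^ 2 * c1 * d - c2 * kd * d + c2 * k * (d ^ 2 + dd + 2 * v0) - k ^ 3 * ρ * d * (U0 * U1)) * ht
  exact sub_eq_zero.1 ((hk.pow 3).mul_right_eq_zero.1 hE)

/-- The generic theorem. PROOF. V, U0, U1 from rowF. w := X^a μ, g0 := cmp c w, g1 := cmp (n c) w, g2 := cmp (n^2 c) w, f := fF p, f1 := theta f, f2 := theta f1 = v1 f1 + v0 f (fF_ode, v1 = X (2-X)⁻¹, v0 = v1 / 4).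
κ := a + theta μ μ⁻¹: theta w = κ w (cmp_theta: theta g0 = κ g1, theta g1 = κ g2), the constant coefficient of κ is a, a unit. δ := t theta Q Q⁻¹: theta r = δ r (2 r theta r = theta Q).
κ g1 = r (δ f^2 + 2 f f1). κ^3 g2 = r (κ ((δ^2 + theta δ + 2 v0) f^2 + (4 δ + 2 v1) f f1 + 2 f1^2) - theta κ (δ f^2 + 2 f f1)) (apply theta to κ g1 = .., multiply by κ).
row: g0 = c0 fr g0 + c1 fr g1 + c2 fr g2; g0 = r f^2 = ρ fr r (U0 fr f + U1 fr f1)^2 (rho with e = 2). Apply fr to the relations, multiply by (fr κ)^3, cancel the unit fr r: α f'^2 + β f' f1' + γ f1'^2 = 0 with the α, β, γ of gen_elim.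
Heights (e = 6): c0 6p, c1, c2 72p, ρ 22p, U0, U1 4p, κ 18, κ' 18p, theta κ 36, kd 36p, δ 6, d 6p, dd 12p, v0', v1' 2p. γ: 90p + 84p; β: 108p + 134p + 84p; α: 60p + 114p + 158p + 84p; total 916 p < p (p-1)/2 for p ≥ 2000.
indep, gen_elim, then the values at 1 (Rt.uniq): c0 has value ∑_{n<p} c n, U1 has value 0: ∑ c n = s V^2. -/
theorem gen [Fact p.Prime] (hbig : 2000 ≤ p) (h : p % 4 = 1) : ∃ V : R3 p, ∀ (c : ℕ → R3 p) (a : ℕ) (μ r Q : (R3 p)⟦X⟧) (q s : R3 p),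
    Blk p c → 0 < a → a < p → IsUnit μ → Rt p 6 μ 1 → Rt p 6 (X ^ a * μ) 1 → r ^ 2 = Q → constantCoeff r = 1 → Rt p 2 Q q → IsUnit q → s ^ 2 = 1 →
    (∃ y, q ^ ((p - 1) / 2) = s + p * y) → cmp c (X ^ a * μ) = r * fF p ^ 2 → ∑ n ∈ range p, c n = s * V ^ 2 := by
  have hp : p.Prime := Fact.out
  have h5 : 5 ≤ p := by omega
  obtain ⟨U0, U1, V, hU0, hU1, hf⟩ := rowF (p := p) h5 h
  refine ⟨V, ?_⟩
  intro c a μ r Q q s hc ha hap hμ hR hw hrQ hr1 hQ hq hs hs' hg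
  have hode := fF_ode (p := p) hp h5
  -- one half
  have h2p : ¬ p ∣ 2 := fun hd => by
    have := Nat.le_of_dvd (by norm_num) hd
    omega
  obtain ⟨t0, ht0⟩ : ∃ t0 : R3 p, 2 * t0 = 1 := ⟨_, by
    have h1 := r3_inv (p := p) hp h2p
    push_cast at h1
    exact h1⟩
  have hT : (2 : (R3 p)⟦X⟧) * PowerSeries.C t0 = 1 := by
    have h1 := congrArg (PowerSeries.C (R := R3 p)) ht0
    rw [map_mul, map_one, map_ofNat] at h1
    exact h1
  have h2Rt : Rt p 0 (2 : (R3 p)⟦X⟧) (2 : R3 p) := by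
    have h1 := Rt.natCast (p := p) 2
    push_cast at h1
    exact h1
  -- the differential equation
  have h2u : IsUnit (2 - X : (R3 p)⟦X⟧) := by
    rw [PowerSeries.isUnit_iff_constantCoeff, map_sub, constantCoeff_X, sub_zero, map_ofNat]
    exact IsUnit.of_mul_eq_one _ ht0
  obtain ⟨Z, hZ⟩ := h2u.exists_right_inv
  have hZRt : Rt p 1 Z 1 := by
    have h1 : Rt p (0 + 1) (2 - X : (R3 p)⟦X⟧) (2 - 1) := h2Rt.sub Rt.X
    exact (h1.mono (by omega)).inv hZ (by ring)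
  -- w
  have hXw : X ∣ X ^ a * μ := Dvd.dvd.mul_right (dvd_pow_self X ha.ne') μ
  obtain ⟨μ', hμ'⟩ := hμ.exists_right_inv
  have hμ'Rt : Rt p 6 μ' 1 := hR.inv hμ' (mul_one 1)
  obtain ⟨vμ, hθμ⟩ := hR.theta
  obtain ⟨κ, hκ⟩ : ∃ κ : (R3 p)⟦X⟧, κ = (a : (R3 p)⟦X⟧) + theta μ * μ' := ⟨_, rfl⟩
  have hκw : theta (X ^ a * μ) = κ * (X ^ a * μ) := by
    rw [Pool.Agent.ADC.theta_mul, Pool.Agent.ADC.cmp_theta_pow (τ := 1) (by rw [Pool.Agent.ADC.theta_X, one_mul]) a, hκ]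
    linear_combination (-(X ^ a * theta μ)) * hμ'
  have hκRt : Rt p 18 κ (a + vμ * 1) := by
    rw [hκ]
    exact ((Rt.natCast a).add (hθμ.mul hμ'Rt)).mono (by omega)
  have hκu : IsUnit κ := by
    rw [PowerSeries.isUnit_iff_constantCoeff, hκ, map_add, map_mul, map_natCast]
    have h1 : constantCoeff (theta μ) = 0 := by
      rw [← coeff_zero_eq_constantCoeff_apply, Pool.Agent.ADC.theta, coeff_mk, Nat.cast_zero, zero_mul]
    rw [h1, zero_mul, add_zero]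
    apply r3_unit hp
    intro hd
    have := Nat.le_of_dvd ha hd
    omega
  have hg0 := Pool.Agent.ADC.cmp_theta (c := c) hXw hκw
  have hg1 := Pool.Agent.ADC.cmp_theta (c := fun n => (n : R3 p) * c n) hXw hκw
  have hfun : (fun n : ℕ => (n : R3 p) * ((n : R3 p) * c n)) = fun n : ℕ => (n : R3 p) ^ 2 * c n := by
    funext n
    ring
  rw [hfun] at hg1
  -- the square root
  have hQ1 : constantCoeff Q = 1 := by rw [← hrQ, map_pow, hr1, one_pow]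
  have hQu : IsUnit Q := by
    rw [PowerSeries.isUnit_iff_constantCoeff, hQ1]
    exact isUnit_one
  have hru : IsUnit r := by
    rw [PowerSeries.isUnit_iff_constantCoeff, hr1]
    exact isUnit_one
  obtain ⟨Q', hQQ'⟩ := hQu.exists_right_inv
  obtain ⟨q', hqq'⟩ := hq.exists_right_inv
  have hQ'Rt : Rt p 2 Q' q' := hQ.inv hQQ' hqq'
  obtain ⟨vQ, hθQ⟩ := hQ.theta
  obtain ⟨δ, hδ⟩ : ∃ δ : (R3 p)⟦X⟧, δ = PowerSeries.C t0 * theta Q * Q' := ⟨_, rfl⟩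
  have hθr : theta r = δ * r := by
    have e1 : theta Q = 2 * r * theta r := by
      rw [← hrQ, sq, Pool.Agent.ADC.theta_mul]
      ring
    rw [hδ]
    linear_combination -PowerSeries.C t0 * Q' * r * e1 - theta r * 2 * PowerSeries.C t0 * Q' * hrQ - theta r * (Q * Q') * hT - theta r * hQQ'
  have hδRt : Rt p 6 δ (t0 * vQ * q') := by
    rw [hδ]
    exact (((Rt.C t0).mul hθQ).mul hQ'Rt).mono (by omega)
  obtain ⟨vκ, hθκRt⟩ := hκRt.theta
  obtain ⟨vδ, hθδRt⟩ := hδRt.theta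
  -- v1, v0
  obtain ⟨v1, hv1⟩ : ∃ v1 : (R3 p)⟦X⟧, v1 = X * Z := ⟨_, rfl⟩
  obtain ⟨v0, hv0⟩ : ∃ v0 : (R3 p)⟦X⟧, v0 = PowerSeries.C t0 * PowerSeries.C t0 * (X * Z) := ⟨_, rfl⟩
  have hv1Rt : Rt p 2 v1 (1 * 1) := by
    rw [hv1]
    exact Rt.X.mul hZRt
  have hv0Rt : Rt p 2 v0 (t0 * t0 * (1 * 1)) := by
    rw [hv0]
    exact (((Rt.C t0).mul (Rt.C t0)).mul (Rt.X.mul hZRt)).mono (by omega)
  have hf2 : theta (theta (fF p)) = v1 * theta (fF p) + v0 * fF p := by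
    rw [hv1, hv0]
    linear_combination (PowerSeries.C t0 ^ 2 * Z) * hode - theta (theta (fF p)) * hZ -
      theta (theta (fF p)) * ((2 - X) * Z) * (2 * PowerSeries.C t0 + 1) * hT + theta (fF p) * X * Z * (2 * PowerSeries.C t0 + 1) * hT
  -- rows
  obtain ⟨c1, c2, w1, w2, hc1, hc2, hrow⟩ := row (p := p) h5 hc ha hμ hR hw
  have hc0 := hw.comp p c
  obtain ⟨ρ, hρRt, hρ⟩ := rho (p := p) h5 hrQ hr1 hQ hq hs hs'
  -- relations
  generalize hG0 : cmp c (X ^ a * μ) = g0 at hg0 hrow hg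
  generalize hG1 : cmp (fun n => (n : R3 p) * c n) (X ^ a * μ) = g1 at hg0 hg1 hrow
  generalize hG2 : cmp (fun n => (n : R3 p) ^ 2 * c n) (X ^ a * μ) = g2 at hg1 hrow
  generalize hc0' : (∑ n ∈ range p, PowerSeries.C (c n) * (X ^ a * μ) ^ n) = c0 at hrow hc0
  have A0 : κ * g1 = r * (δ * (fF p * fF p) + (fF p * theta (fF p) + fF p * theta (fF p))) := by
    rw [← hg0, hg, sq, Pool.Agent.ADC.theta_mul, Pool.Agent.ADC.theta_mul, hθr]
    ring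
  have B0 := congrArg theta A0
  simp only [Pool.Agent.ADC.theta_mul, Pool.Agent.ADC.theta_add] at B0
  rw [hg1, hf2, hθr] at B0
  have B1 : κ ^ 3 * g2 = r * (κ * ((δ ^ 2 + theta δ + 2 * v0) * fF p ^ 2 + (4 * δ + 2 * v1) * (fF p * theta (fF p)) + 2 * theta (fF p) ^ 2) -
      theta κ * (δ * fF p ^ 2 + 2 * (fF p * theta (fF p)))) := by
    linear_combination κ * B0 - theta κ * A0
  -- apply Frobenius
  have A1 := congrArg (fr p) hg
  have A2 := congrArg (fr p) A0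
  have A3 := congrArg (fr p) B1
  simp only [map_mul, map_add, map_sub, map_pow, map_ofNat] at A1 A2 A3
  have e0 : g0 = ρ * fr p r * (U0 * fr p (fF p) + U1 * fr p (theta (fF p))) ^ 2 := by
    rw [hg]
    linear_combination fF p ^ 2 * hρ + ρ * fr p r * (fF p + U0 * fr p (fF p) + U1 * fr p (theta (fF p))) * hf
  have hkRt := hκRt.fr
  have hdRt := hδRt.fr
  have hkdRt := hθκRt.fr
  have hddRt := hθδRt.fr
  have hw0Rt := hv0Rt.fr
  have hw1Rt := hv1Rt.fr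
  have hku : IsUnit (fr p κ) := hκu.map (fr p)
  have hr'u : IsUnit (fr p r) := hru.map (fr p)
  generalize fr p κ = k at A2 A3 hkRt hku
  generalize fr p δ = d at A2 A3 hdRt
  generalize fr p (theta κ) = kd at A3 hkdRt
  generalize fr p (theta δ) = dd at A3 hddRt
  generalize fr p v0 = y0 at A3 hw0Rt
  generalize fr p v1 = y1 at A3 hw1Rt
  have hα : Rt p (416 * p) (k ^ 3 * c0 + k ^ 2 * c1 * d + c2 * (k * (d ^ 2 + dd + 2 * y0) - kd * d) - k ^ 3 * ρ * U0 ^ 2) _ :=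
    (((((hkRt.pow 3).mul hc0).add (((hkRt.pow 2).mul hc1).mul hdRt)).add
      (hc2.mul ((hkRt.mul (((hdRt.pow 2).add hddRt).add (h2Rt.mul hw0Rt))).sub (hkdRt.mul hdRt)))).sub
      (((hkRt.pow 3).mul hρRt).mul (hU0.pow 2))).mono (by omega)
  have hβ : Rt p (326 * p) (2 * k ^ 2 * c1 + c2 * (k * (4 * d + 2 * y1) - 2 * kd) - 2 * k ^ 3 * ρ * (U0 * U1)) _ :=
    ((((h2Rt.mul (hkRt.pow 2)).mul hc1).add
      (hc2.mul ((hkRt.mul (((Rt.natCast (p := p) 4).mul hdRt).add (h2Rt.mul hw1Rt))).sub (h2Rt.mul hkdRt)))).sub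
      (((h2Rt.mul (hkRt.pow 3)).mul hρRt).mul (hU0.mul hU1))).mono (by omega)
  have hγ : Rt p (174 * p) (2 * k * c2 - k ^ 3 * ρ * U1 ^ 2) _ :=
    (((h2Rt.mul hkRt).mul hc2).sub (((hkRt.pow 3).mul hρRt).mul (hU1.pow 2))).mono (by omega)
  have hsum : (k ^ 3 * c0 + k ^ 2 * c1 * d + c2 * (k * (d ^ 2 + dd + 2 * y0) - kd * d) - k ^ 3 * ρ * U0 ^ 2) * fr p (fF p) ^ 2 +
      (2 * k ^ 2 * c1 + c2 * (k * (4 * d + 2 * y1) - 2 * kd) - 2 * k ^ 3 * ρ * (U0 * U1)) * (fr p (fF p) * fr p (theta (fF p))) +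
      (2 * k * c2 - k ^ 3 * ρ * U1 ^ 2) * fr p (theta (fF p)) ^ 2 = 0 := by
    apply hr'u.mul_right_eq_zero.1
    linear_combination -k ^ 3 * hrow + k ^ 3 * e0 - k ^ 3 * c0 * A1 - k ^ 2 * c1 * A2 - c2 * A3
  have hm : 916 < (p - 1) / 2 := by omega
  have hdeg : 416 * p + 326 * p + 174 * p < p * ((p - 1) / 2) := by
    have h1 : p * 916 < p * ((p - 1) / 2) := Nat.mul_lt_mul_of_pos_left hm (by omega)
    omega
  obtain ⟨eα, eβ, eγ⟩ := indep (p := p) h5 hα hβ hγ hdeg hsum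
  have hfin := gen_elim (t := PowerSeries.C t0) hT hku eγ eβ eα
  have hRt2 : Rt p _ (ρ * (U0 ^ 2 - d * (U0 * U1) + PowerSeries.C t0 * U1 ^ 2 * (d ^ 2 + d * y1 - dd - 2 * y0))) _ :=
    hρRt.mul (((hU0.pow 2).sub (hdRt.mul (hU0.mul hU1))).add
      (((Rt.C t0).mul (hU1.pow 2)).mul ((((hdRt.pow 2).add (hdRt.mul hw1Rt)).sub hddRt).sub (h2Rt.mul hw0Rt))))
  rw [← hfin] at hRt2
  have hval := hc0.uniq hRt2
  simp only [one_pow, mul_one] at hval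
  rw [hval]
  ring

end Pool.Agent.T33
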