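import Pool.Agent.T33.Seq

/-! Project T33 (MP_9f27ff_nt), module Has (size 4): the Hasse polynomial modulo p and its derivative are coprime. -/

set_option autoImplicit false

namespace Pool.Agent.T33

open Finset Polynomial

variable {p : ℕ}

/-- the Hasse polynomial, lambda = X / 2 -/
noncomputable def hP (p : ℕ) : (ZMod p)[X] := ∑ n ∈ range ((p - 1) / 2 + 1), C ((uu n : ZMod p) * (32 : ZMod p)⁻¹ ^ n) * X ^ n

/-- its derivative, X d/dX -/
noncomputable def hQ (p : ℕ) : (ZMod p)[X] := ∑ n ∈ range ((p - 1) / 2 + 1), C (n * ((uu n : ZMod p) * (32 : ZMod p)⁻¹ ^ n)) * X ^ n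

private theorem has_half (hp : p.Prime) (h2 : p ≠ 2) : 2 * ((p - 1) / 2) + 1 = p := by
  have hodd : p % 2 = 1 := by
    rcases hp.eq_two_or_odd with h | h
    · exact absurd h h2
    · exact h
  omega

private theorem has_rec {K : Type} [Field K] (n : ℕ) :
    ((n : K) + 1) ^ 2 * (uu (n + 1) : K) = 4 * (2 * (n : K) + 1) ^ 2 * (uu n : K) := by
  have := uu_rec n
  have h := congrArg (Nat.cast : ℕ → K) this
  push_cast at h
  exact h

private theorem has_cast_ne {K : Type} [Field K] [CharP K p] {n : ℕ} (h0 : 0 < n) (h : n < p) : (n : K) ≠ 0 := by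
  intro h1
  rw [CharP.cast_eq_zero_iff K p] at h1
  exact absurd (Nat.le_of_dvd h0 h1) (by omega)

private theorem has_top (hp : p.Prime) (h2 : p ≠ 2) {K : Type} [Field K] [CharP K p] :
    (2 * (((p - 1) / 2 : ℕ) : K) + 1) = 0 := by
  have h : p ∣ 2 * ((p - 1) / 2) + 1 := by rw [has_half hp h2]
  rw [← CharP.cast_eq_zero_iff K p] at h
  push_cast at h
  exact_mod_cast h

private theorem has_two (hp : p.Prime) (h2 : p ≠ 2) {K : Type} [Field K] [CharP K p] : (2 : K) ≠ 0 := by
  have h3 : 2 < p := lt_of_le_of_ne hp.two_le (Ne.symm h2)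
  have := has_cast_ne (p := p) (K := K) (n := 2) (by omega) h3
  exact_mod_cast this

private theorem has_32 (hp : p.Prime) (h2 : p ≠ 2) {K : Type} [Field K] [CharP K p] : (32 : K) ≠ 0 := by
  rw [show (32 : K) = 2 ^ 5 by norm_num]
  exact pow_ne_zero _ (has_two (p := p) hp h2)

theorem has_zero (hp : p.Prime) (h2 : p ≠ 2) {n : ℕ} (h : (p - 1) / 2 < n) (h1 : n < p) : (uu n : ZMod p) = 0 := by
  haveI : Fact p.Prime := ⟨hp⟩
  have key : ∀ m : ℕ, (p - 1) / 2 + 1 + m < p → (uu ((p - 1) / 2 + 1 + m) : ZMod p) = 0 := by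
    intro m
    induction m with
    | zero =>
      intro hm
      have hr := has_rec (K := ZMod p) ((p - 1) / 2)
      have ht := has_top (p := p) hp h2 (K := ZMod p)
      have h3 : (((p - 1) / 2 : ℕ) : ZMod p) + 1 ≠ 0 := by
        have := has_cast_ne (p := p) (K := ZMod p) (n := (p - 1) / 2 + 1) (by omega) (by omega)
        rw [Nat.cast_add, Nat.cast_one] at this
        exact this
      have h4 : ((((p - 1) / 2 : ℕ) : ZMod p) + 1) ^ 2 * (uu ((p - 1) / 2 + 1) : ZMod p) = 0 := by
        rw [hr, ht]
        ring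
      rcases mul_eq_zero.mp h4 with h5 | h5
      · exact absurd (pow_eq_zero_iff (two_ne_zero)|>.mp h5) h3
      · exact h5
    | succ m ih =>
      intro hm
      have ih' := ih (by omega)
      have hr := has_rec (K := ZMod p) ((p - 1) / 2 + 1 + m)
      have h3 : (((p - 1) / 2 + 1 + m : ℕ) : ZMod p) + 1 ≠ 0 := by
        have := has_cast_ne (p := p) (K := ZMod p) (n := (p - 1) / 2 + 1 + m + 1) (by omega) (by omega)
        rw [Nat.cast_add _ 1, Nat.cast_one] at this
        exact this
      rw [ih', mul_zero] at hr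
      rcases mul_eq_zero.mp hr with h5 | h5
      · exact absurd (pow_eq_zero_iff (two_ne_zero)|>.mp h5) h3
      · exact h5
  have := key (n - ((p - 1) / 2 + 1)) (by omega)
  rwa [show (p - 1) / 2 + 1 + (n - ((p - 1) / 2 + 1)) = n by omega] at this

private theorem has_uu_zero : uu 0 = 1 := by
  simp [uu]

private theorem has_uu_ne (hp : p.Prime) (h2 : p ≠ 2) {K : Type} [Field K] [CharP K p] {n : ℕ} (h : n ≤ (p - 1) / 2) :
    (uu n : K) ≠ 0 := by
  induction n with
  | zero => rw [has_uu_zero]; simp
  | succ n ih =>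
    have ih' := ih (by omega)
    have hr := has_rec (K := K) n
    intro h0
    rw [h0, mul_zero] at hr
    have ha : (4 : K) ≠ 0 := by
      rw [show (4 : K) = 2 ^ 2 by norm_num]
      exact pow_ne_zero _ (has_two (p := p) hp h2)
    have hh := has_half hp h2
    have hb : 2 * (n : K) + 1 ≠ 0 := by
      have := has_cast_ne (p := p) (K := K) (n := 2 * n + 1) (by omega) (by omega)
      push_cast at this; exact this
    exact (mul_ne_zero (mul_ne_zero ha (pow_ne_zero 2 hb)) ih') hr.symm

theorem has_ne (hp : p.Prime) (h2 : p ≠ 2) {n : ℕ} (h : n ≤ (p - 1) / 2) : (uu n : ZMod p) ≠ 0 := by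
  haveI : Fact p.Prime := ⟨hp⟩
  exact has_uu_ne (p := p) hp h2 h

private noncomputable def has_c (K : Type) [Field K] (n : ℕ) : K := (uu n : K) * (32 : K)⁻¹ ^ n

private theorem has_c_rec (hp : p.Prime) (h2 : p ≠ 2) {K : Type} [Field K] [CharP K p] (n : ℕ) :
    8 * ((n : K) + 1) ^ 2 * has_c K (n + 1) = (2 * (n : K) + 1) ^ 2 * has_c K n := by
  have hr := has_rec (K := K) n
  have h32 : (32 : K) * (32 : K)⁻¹ = 1 := mul_inv_cancel₀ (has_32 (p := p) hp h2)
  unfold has_c
  rw [pow_succ]
  linear_combination 8 * (32 : K)⁻¹ ^ n * (32 : K)⁻¹ * hr + (32 : K)⁻¹ ^ n * (2 * (n : K) + 1) ^ 2 * (uu n : K) * h32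

private noncomputable def has_f (p : ℕ) (K : Type) [Field K] : K[X] :=
  ∑ n ∈ range ((p - 1) / 2 + 1), C (has_c K n) * X ^ n

private theorem has_f_coeff {K : Type} [Field K] (n : ℕ) :
    (has_f p K).coeff n = if n ≤ (p - 1) / 2 then has_c K n else 0 := by
  unfold has_f
  rw [finset_sum_coeff]
  simp only [coeff_C_mul, coeff_X_pow, mul_ite, mul_one, mul_zero]
  rw [Finset.sum_ite_eq]
  simp only [mem_range]
  by_cases h : n ≤ (p - 1) / 2
  · rw [if_pos h, if_pos (by omega)]
  · rw [if_neg h, if_neg (by omega)]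

private theorem has_f_deg {K : Type} [Field K] : (has_f p K).natDegree ≤ (p - 1) / 2 := by
  rw [natDegree_le_iff_coeff_eq_zero]
  intro n hn
  rw [has_f_coeff, if_neg (by omega)]

theorem has_deg (hp : p.Prime) (h2 : p ≠ 2) : (hP p).natDegree = (p - 1) / 2 := by
  haveI : Fact p.Prime := ⟨hp⟩
  have e : hP p = has_f p (ZMod p) := rfl
  rw [e]
  apply natDegree_eq_of_le_of_coeff_ne_zero has_f_deg
  rw [has_f_coeff, if_pos le_rfl]
  unfold has_c
  exact mul_ne_zero (has_uu_ne (p := p) hp h2 le_rfl) (pow_ne_zero _ (inv_ne_zero (has_32 (p := p) hp h2)))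

private theorem has_ode (hp : p.Prime) (h2 : p ≠ 2) {K : Type} [Field K] [CharP K p] :
    C 4 * X * (C 2 - X) * derivative (derivative (has_f p K)) + C 8 * (1 - X) * derivative (has_f p K)
      - has_f p K = 0 := by
  ext n
  have e4 : (C 8 : K[X]) = 2 * C 4 := by
    rw [show (8 : K) = 2 * 4 by norm_num, C_mul]
    rfl
  have e2 : (C 2 : K[X]) = 2 := rfl
  have e1 : C 4 * X * (C 2 - X) * derivative (derivative (has_f p K)) + C 8 * (1 - X) * derivative (has_f p K)
      - has_f p K = C 8 * (X * derivative (derivative (has_f p K))) - C 4 * (X * (X * derivative (derivative (has_f p K))))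
        + C 8 * derivative (has_f p K) - C 8 * (X * derivative (has_f p K)) - has_f p K := by
    rw [e4, e2]
    ring
  rw [e1]
  simp only [coeff_sub, coeff_add, coeff_C_mul, coeff_zero]
  have key : 8 * ((n : K) + 1) ^ 2 * (has_f p K).coeff (n + 1) =
      (2 * (n : K) + 1) ^ 2 * (has_f p K).coeff n := by
    rw [has_f_coeff, has_f_coeff]
    by_cases h : n + 1 ≤ (p - 1) / 2
    · rw [if_pos h, if_pos (by omega)]
      exact has_c_rec (p := p) hp h2 n
    · rw [if_neg h, mul_zero]
      by_cases h' : n ≤ (p - 1) / 2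
      · have hn : n = (p - 1) / 2 := by omega
        subst hn
        rw [if_pos le_rfl]
        have ht := has_top (p := p) hp h2 (K := K)
        rw [ht]
        ring
      · rw [if_neg h', mul_zero]
  rcases n with _ | _ | n
  · simp [coeff_derivative] at key ⊢
    linear_combination key
  · simp [coeff_derivative, coeff_X_mul] at key ⊢
    linear_combination key
  · simp only [coeff_X_mul, coeff_derivative]
    push_cast at key ⊢
    linear_combination key

private theorem has_taylor (hp : p.Prime) (h2 : p ≠ 2) {K : Type} [Field K] [CharP K p] (a : K) (j : ℕ) :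
    4 * a * (2 - a) * (((j : K) + 2) * ((j : K) + 1)) * (taylor a (has_f p K)).coeff (j + 2)
      + 8 * (1 - a) * ((j : K) + 1) ^ 2 * (taylor a (has_f p K)).coeff (j + 1)
      - (2 * (j : K) + 1) ^ 2 * (taylor a (has_f p K)).coeff j = 0 := by
  set g := taylor a (has_f p K) with hg
  have hd : ∀ f : K[X], taylor a (derivative f) = derivative (taylor a f) := by
    intro f
    rw [taylor_apply, taylor_apply, derivative_comp]
    simp
  have h := congrArg (taylor a) (has_ode (p := p) hp h2 (K := K))
  simp only [map_add, map_sub, taylor_mul, taylor_X, taylor_C, taylor_one, map_zero, hd, map_one] at h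
  rw [← hg] at h
  have e1 : C 4 * (X + C a) * (C 2 - (X + C a)) * derivative (derivative g) + C 8 * (1 - (X + C a)) * derivative g
      - g = C (4 * a * (2 - a)) * derivative (derivative g) + C (8 * (1 - a)) * (X * derivative (derivative g))
        - C 4 * (X * (X * derivative (derivative g))) + C (8 * (1 - a)) * derivative g
        - C 8 * (X * derivative g) - g := by
    have e2 : C (4 * a * (2 - a)) = C 4 * C a * (C 2 - C a) := by
      simp
    have e3 : C (8 * (1 - a)) = C 8 * (1 - C a) := by simp
    have e4 : (C 8 : K[X]) = 2 * C 4 := by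
      rw [show (8 : K) = 2 * 4 by norm_num, C_mul]
      rfl
    have e5 : (C 2 : K[X]) = 2 := rfl
    rw [e2, e3, e4, e5]
    ring
  rw [e1] at h
  have h' := congrArg (fun q => q.coeff j) h
  simp only [coeff_sub, coeff_add, coeff_C_mul, coeff_zero] at h'
  rcases j with _ | _ | j
  · simp [coeff_derivative] at h' ⊢
    linear_combination h'
  · simp [coeff_derivative, coeff_X_mul] at h' ⊢
    linear_combination h'
  · simp only [coeff_X_mul, coeff_derivative] at h'
    push_cast at h' ⊢
    linear_combination h'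

private theorem has_main (hp : p.Prime) (h2 : p ≠ 2) {K : Type} [Field K] [CharP K p] (a : K) (h0 : a ≠ 0)
    (h1 : (has_f p K).eval a = 0) (h3 : (derivative (has_f p K)).eval a = 0) : False := by
  have h2K : (2 : K) ≠ 0 := has_two (p := p) hp h2
  have h4K : (4 : K) ≠ 0 := by
    rw [show (4 : K) = 2 ^ 2 by norm_num]
    exact pow_ne_zero _ h2K
  have h8K : (8 : K) ≠ 0 := by
    rw [show (8 : K) = 2 ^ 3 by norm_num]
    exact pow_ne_zero _ h2K
  have hp1 : 1 < p := hp.one_lt
  have hz : ∀ j : ℕ, j < p → (taylor a (has_f p K)).coeff j = 0 := by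
    by_cases hA : 2 - a = 0
    · intro j
      induction j with
      | zero => intro _; rw [taylor_coeff_zero]; exact h1
      | succ j ih =>
        intro hj
        have ih' := ih (by omega)
        have ht := has_taylor (p := p) hp h2 a j
        rw [ih', hA] at ht
        have hB : 1 - a = -1 := by linear_combination hA
        rw [hB] at ht
        have hn : ((j : K) + 1) ≠ 0 := by
          have := has_cast_ne (p := p) (K := K) (n := j + 1) (by omega) hj
          push_cast at this; exact this
        have : (8 * ((j : K) + 1) ^ 2) * (taylor a (has_f p K)).coeff (j + 1) = 0 := by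
          linear_combination -ht
        rcases mul_eq_zero.mp this with h | h
        · exact absurd h (mul_ne_zero h8K (pow_ne_zero 2 hn))
        · exact h
    · have key : ∀ j : ℕ, j + 1 < p → (taylor a (has_f p K)).coeff j = 0 ∧ (taylor a (has_f p K)).coeff (j + 1) = 0 := by
        intro j
        induction j with
        | zero =>
          intro _
          refine ⟨?_, ?_⟩
          · rw [taylor_coeff_zero]; exact h1
          · rw [taylor_coeff_one]; exact h3
        | succ j ih =>
          intro hj
          obtain ⟨i1, i2⟩ := ih (by omega)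
          refine ⟨i2, ?_⟩
          have ht := has_taylor (p := p) hp h2 a j
          rw [i1, i2] at ht
          have hn1 : ((j : K) + 1) ≠ 0 := by
            have := has_cast_ne (p := p) (K := K) (n := j + 1) (by omega) (by omega)
            push_cast at this; exact this
          have hn2 : ((j : K) + 2) ≠ 0 := by
            have := has_cast_ne (p := p) (K := K) (n := j + 2) (by omega) (by omega)
            push_cast at this; exact this
          have h7 : (4 * a * (2 - a) * (((j : K) + 2) * ((j : K) + 1))) * (taylor a (has_f p K)).coeff (j + 2) = 0 := by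
            linear_combination ht
          rcases mul_eq_zero.mp h7 with h | h
          · exact absurd h (mul_ne_zero (mul_ne_zero (mul_ne_zero h4K h0) hA) (mul_ne_zero hn2 hn1))
          · exact h
      intro j hj
      rcases j with _ | j
      · exact (key 0 (by omega)).1
      · exact (key j hj).2
  have hg : taylor a (has_f p K) = 0 := by
    ext j
    rw [coeff_zero]
    by_cases hj : j < p
    · exact hz j hj
    · apply coeff_eq_zero_of_natDegree_lt
      rw [natDegree_taylor]
      have := has_f_deg (p := p) (K := K)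
      omega
  have hf : has_f p K = 0 := by
    apply taylor_injective a
    rw [hg, map_zero]
  have hc := has_f_coeff (p := p) (K := K) 0
  rw [hf, coeff_zero, if_pos (Nat.zero_le _)] at hc
  simp [has_c, has_uu_zero] at hc

private theorem has_f_eval {K : Type} [Field K] (a : K) :
    (has_f p K).eval a = ∑ n ∈ range ((p - 1) / 2 + 1), has_c K n * a ^ n := by
  unfold has_f
  rw [eval_finset_sum]
  simp

private theorem has_f_deriv_eval {K : Type} [Field K] (a : K) :
    a * (derivative (has_f p K)).eval a = ∑ n ∈ range ((p - 1) / 2 + 1), (n * has_c K n) * a ^ n := by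
  unfold has_f
  rw [derivative_sum, eval_finset_sum, Finset.mul_sum]
  apply Finset.sum_congr rfl
  intro n _
  rcases n with _ | n
  · simp
  · simp [derivative_X_pow]
    ring

private theorem has_map_c {K : Type} [Field K] [Algebra (ZMod p) K] [Fact p.Prime] (n : ℕ) :
    algebraMap (ZMod p) K ((uu n : ZMod p) * (32 : ZMod p)⁻¹ ^ n) = has_c K n := by
  unfold has_c
  rw [map_mul, map_pow, map_inv₀, map_natCast, map_ofNat]

/-- PROOF. As in ADC/Cop.lean (aa_sep, aa_64, cop). f := hP in a field K of characteristic p (algebraic closure). ODE: X (2 - X) f'' + (2 - 2X) f' - f / 4 = 0 (uu_rec, and (2n+1)^2 uu n = 0 for n = (p-1)/2).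
Let a be a common root of hP and hQ = X * derivative. a ≠ 0 since hP 0 = 1, so f (a) = f' (a) = 0. Differentiate j times: a (2 - a) f^(j+2) + (j+1)(2 - 2a) f^(j+1) - (j (j+1) + 1/4) f^(j) = 0 at a. If a ≠ 2 all derivatives at a vanish
(or Hasse derivatives / Taylor coefficients: (j+2)(j+1) a (2-a) T_(j+2) + (j+1)^2 (2-2a) T_(j+1) - (j(j+1)+1/4) T_j = 0 for j + 2 < p); if a = 2: (j+1)^2 (2-2a) T_(j+1) = (j(j+1)+1/4) T_j, so T_j = 0 for j < p. The degree is < p, so f = 0, contradiction. -/
theorem has_cop (hp : p.Prime) (h2 : p ≠ 2) : IsCoprime (hP p) (hQ p) := by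
  haveI : Fact p.Prime := ⟨hp⟩
  rw [isCoprime_iff_aeval_ne_zero_of_isAlgClosed (ZMod p) (AlgebraicClosure (ZMod p))]
  intro x
  by_contra hcon
  push_neg at hcon
  obtain ⟨h1, h3⟩ := hcon
  haveI : CharP (AlgebraicClosure (ZMod p)) p := charP_of_injective_algebraMap (algebraMap (ZMod p) (AlgebraicClosure (ZMod p))).injective p
  have e1 : aeval x (hP p) = ∑ n ∈ range ((p - 1) / 2 + 1), has_c (AlgebraicClosure (ZMod p)) n * x ^ n := by
    unfold hP
    rw [map_sum]
    apply Finset.sum_congr rfl
    intro n _
    rw [map_mul, aeval_C, map_pow, aeval_X, has_map_c]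
  have e3 : aeval x (hQ p) = ∑ n ∈ range ((p - 1) / 2 + 1), (n * has_c (AlgebraicClosure (ZMod p)) n) * x ^ n := by
    unfold hQ
    rw [map_sum]
    apply Finset.sum_congr rfl
    intro n _
    rw [map_mul, aeval_C, map_pow, aeval_X, map_mul, has_map_c, map_natCast]
  rw [e1] at h1
  rw [e3] at h3
  have hx : x ≠ 0 := by
    intro h
    rw [h, Finset.sum_range_succ'] at h1
    simp [has_c, has_uu_zero] at h1
  apply has_main (p := p) hp h2 x hx
  · rw [has_f_eval]; exact h1
  · rw [← has_f_deriv_eval] at h3
    rcases mul_eq_zero.mp h3 with h | h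
    · exact absurd h hx
    · exact h

end Pool.Agent.T33
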