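import Pool.Agent.T33.Cla
import Pool.Agent.T33.Seq

/-! Project T33 (MP_9f27ff_nt), module IdA (size 3): the first identity. -/

set_option autoImplicit false

namespace Pool.Agent.T33

open Finset PowerSeries
open Pool.Agent.ADC (cmp theta)

private theorem IdA_thn (n : ℕ) [n.AtLeastTwo] : theta (ofNat(n) : ℚ⟦X⟧) = 0 := by
  have h := Pool.Agent.ADC.theta_natCast (A := ℚ) (OfNat.ofNat n)
  simpa using h

private theorem IdA_th1 : theta (1 : ℚ⟦X⟧) = 0 := by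
  simpa using Pool.Agent.ADC.theta_natCast (A := ℚ) 1

/-- auxiliary recursion -/
private def IdA_h : ℕ → ℚ
  | 0 => 1
  | n + 1 => (((n : ℚ) ^ 2 + n / 2 + 1 / 16) / ((n : ℚ) + 1) ^ 2) * IdA_h n

private theorem IdA_hrec (n : ℕ) :
    ((n : ℚ) + 1) ^ 2 * IdA_h (n + 1) = (n ^ 2 + n / 2 + 1 / 16) * IdA_h n := by
  rw [IdA_h]
  have h : ((n : ℚ) + 1) ≠ 0 := by positivity
  field_simp

private theorem IdA_thnX (n : ℕ) [n.AtLeastTwo] (f : ℚ⟦X⟧) :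
    theta (ofNat(n) * f : ℚ⟦X⟧) = ofNat(n) * theta f := by
  rw [Pool.Agent.ADC.theta_mul, IdA_thn]
  ring

/-- PROOF. h n := ∏_{i<n} ((i+1/4)^2 / (i+1)^2) (any sequence with h 0 = 1 and (n+1)^2 h (n+1) = (n^2 + n/2 + 1/16) h n). clausen with β = 1/16, G n = cB n / 64^n (cB_rec). w := 64 x (1 - 16x) = C 64 * (x - 16 x^2).
cmp cB (w/64) = cmp (cB / 64^n) w = cmp h w ^ 2 (cmp_scale, cmp_mul, clausen). ode2_unique with y = f := mk uu, κ = (1 - 32x)(1-16x)⁻¹, y1 = κ⁻¹ theta f: cmp h w = f. Here (1 - w) = (1 - 32x)^2, and fQ_ode. -/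
theorem idA : cmp (fun n => (cB n : ℚ)) (X * (1 - 16 * X)) = (PowerSeries.mk fun n => (uu n : ℚ)) ^ 2 := by
  obtain ⟨s, hs⟩ : ∃ s : ℚ⟦X⟧, s = 1 - 16 * X := ⟨_, rfl⟩
  obtain ⟨M, hM⟩ : ∃ M : ℚ⟦X⟧, M = 1 - 32 * X := ⟨_, rfl⟩
  have ths : theta s = -(16 * X) := by
    subst hs
    rw [Pool.Agent.ADC.theta_sub, IdA_th1, IdA_thnX, Pool.Agent.ADC.theta_X]
    ring
  have thM : theta M = -(32 * X) := by
    subst hM
    rw [Pool.Agent.ADC.theta_sub, IdA_th1, IdA_thnX, Pool.Agent.ADC.theta_X]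
    ring
  have cs : constantCoeff s = 1 := by subst hs; simp
  have cM : constantCoeff M = 1 := by subst hM; simp
  have hiS : s * s⁻¹ = 1 := PowerSeries.mul_inv_cancel s (by rw [cs]; exact one_ne_zero)
  have hiM : M * M⁻¹ = 1 := PowerSeries.mul_inv_cancel M (by rw [cM]; exact one_ne_zero)
  obtain ⟨iS, hiSd⟩ : ∃ iS : ℚ⟦X⟧, iS = s⁻¹ := ⟨_, rfl⟩
  obtain ⟨iM, hiMd⟩ : ∃ iM : ℚ⟦X⟧, iM = M⁻¹ := ⟨_, rfl⟩
  rw [← hiSd] at hiS
  rw [← hiMd] at hiM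
  have thiM : theta iM = 32 * X * iM ^ 2 := by
    have h1 : theta (M * iM) = 0 := by rw [hiM]; exact IdA_th1
    rw [Pool.Agent.ADC.theta_mul, thM] at h1
    linear_combination iM * h1 - theta iM * hiM
  have ciS : constantCoeff iS = 1 := by
    have h1 := congrArg constantCoeff hiS
    rw [map_mul, cs, one_mul, map_one] at h1
    exact h1
  rw [← hs]
  obtain ⟨f, hf⟩ : ∃ f : ℚ⟦X⟧, f = PowerSeries.mk fun n => (uu n : ℚ) := ⟨_, rfl⟩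
  have hfode := fQ_ode (uu := fun n => (uu n : ℚ)) (by
    intro n
    have := uu_rec n
    exact_mod_cast this)
  rw [← hf, ← hs] at hfode
  rw [← hf]
  obtain ⟨f1, hf1⟩ : ∃ f1 : ℚ⟦X⟧, f1 = theta f := ⟨_, rfl⟩
  obtain ⟨f2, hf2⟩ : ∃ f2 : ℚ⟦X⟧, f2 = theta f1 := ⟨_, rfl⟩
  rw [← hf1, ← hf2] at hfode
  have cf : constantCoeff f = 1 := by
    rw [hf, ← coeff_zero_eq_constantCoeff_apply, coeff_mk]
    simp [uu]
  obtain ⟨w, hw⟩ : ∃ w : ℚ⟦X⟧, w = 64 * X * s := ⟨_, rfl⟩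
  have hXw : X ∣ w := ⟨64 * s, by rw [hw]; ring⟩
  have hκ : theta w = (M * iS) * w := by
    rw [hw, Pool.Agent.ADC.theta_mul, IdA_thnX, Pool.Agent.ADC.theta_X, ths]
    have e : M = s - 16 * X := by subst hs hM; ring
    rw [e]
    linear_combination (-(64 * X) * (s - 16 * X)) * hiS
  have hy : theta f = (M * iS) * (s * iM * f1) := by
    rw [← hf1]
    linear_combination (-(s * iS * f1)) * hiM - f1 * hiS
  have hth1 : theta (s * iM * f1) = -(16 * X) * iM * f1 + s * (32 * X * iM ^ 2) * f1 + s * iM * f2 := by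
    rw [Pool.Agent.ADC.theta_mul, Pool.Agent.ADC.theta_mul, ths, thiM, ← hf2]
    ring
  have h1w : 1 - w = M ^ 2 := by
    rw [hw, hs, hM]
    ring
  have hc2 : (C (1 / 2 : ℚ) : ℚ⟦X⟧) * 64 = 32 := by
    have h1 : (64 : ℚ⟦X⟧) = C (64 : ℚ) := (map_ofNat (C (R := ℚ)) 64).symm
    have h2 : (32 : ℚ⟦X⟧) = C (32 : ℚ) := (map_ofNat (C (R := ℚ)) 32).symm
    rw [h1, h2, ← map_mul]
    norm_num
  have hc3 : (C (1 / 16 : ℚ) : ℚ⟦X⟧) * 64 = 4 := by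
    have h1 : (64 : ℚ⟦X⟧) = C (64 : ℚ) := (map_ofNat (C (R := ℚ)) 64).symm
    have h2 : (4 : ℚ⟦X⟧) = C (4 : ℚ) := (map_ofNat (C (R := ℚ)) 4).symm
    rw [h1, h2, ← map_mul]
    norm_num
  obtain ⟨c2, hc2d⟩ : ∃ c2 : ℚ⟦X⟧, c2 = C (1 / 2 : ℚ) := ⟨_, rfl⟩
  obtain ⟨c3, hc3d⟩ : ∃ c3 : ℚ⟦X⟧, c3 = C (1 / 16 : ℚ) := ⟨_, rfl⟩
  have hmain : (1 - w) * theta (s * iM * f1) = (M * iS) * w * (C (1 / 2) * (s * iM * f1) + C (1 / 16) * f) := by
    rw [h1w, hth1, ← hc2d, ← hc3d]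
    rw [← hc2d] at hc2
    rw [← hc3d] at hc3
    have eL : M ^ 2 * (-(16 * X) * iM * f1 + s * (32 * X * iM ^ 2) * f1 + s * iM * f2) = 32 * X * s * f1 + 4 * X * M * f := by
      linear_combination (-(16 * X) * M * f1 + 32 * X * s * f1 * (M * iM + 1) + s * M * f2) * hiM + M * hfode
    have eR : (M * iS) * w * (c2 * (s * iM * f1) + c3 * f) = 32 * X * s * f1 + 4 * X * M * f := by
      rw [hw]
      linear_combination (64 * X * M * (c2 * (s * iM * f1) + c3 * f)) * hiS + (64 * X * c2 * s * f1) * hiM + (X * s * f1) * hc2 +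
        (X * M * f) * hc3
    rw [eL, eR]
  have hcm : f = cmp IdA_h w :=
    ode2_unique (β := 1 / 16) (h := IdA_h) rfl IdA_hrec hXw hκ (by rw [map_mul, cM, ciS]; norm_num) cf hy hmain
  have hG0 : (cB 0 : ℚ) / 64 ^ 0 = 1 := by simp [cB]
  have hcl := clausen (β := 1 / 16) (h := IdA_h) (G := fun n => (cB n : ℚ) / 64 ^ n) rfl hG0 IdA_hrec (by
    intro n
    have h1 := cB_rec n
    have h2 : ((n : ℚ) + 1) ^ 3 * (cB (n + 1) : ℚ) = 8 * (2 * n + 1) ^ 3 * cB n := by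
      exact_mod_cast h1
    have h3 : ((64 : ℚ) ^ (n + 1))⁻¹ = ((64 : ℚ) ^ n)⁻¹ / 64 := by
      rw [pow_succ, mul_inv, div_eq_mul_inv]
    have h4 : (cB (n + 1) : ℚ) / 64 ^ (n + 1) = cB (n + 1) * (((64 : ℚ) ^ n)⁻¹ / 64) := by
      rw [div_eq_mul_inv, h3]
    have h5 : (cB n : ℚ) / 64 ^ n = cB n * ((64 : ℚ) ^ n)⁻¹ := div_eq_mul_inv _ _
    rw [h4, h5]
    generalize ((64 : ℚ) ^ n)⁻¹ = q
    linear_combination (q / 64) * h2)
  have hXz : X ∣ (X * s : ℚ⟦X⟧) := ⟨s, rfl⟩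
  have h1 := cmp_scale (fun n => (cB n : ℚ) / 64 ^ n) (64 : ℚ) hXz
  have h2 : (fun n => (cB n : ℚ) / 64 ^ n * 64 ^ n) = fun n => (cB n : ℚ) := by
    funext n
    field_simp
  have h3 : (C (64 : ℚ) : ℚ⟦X⟧) * (X * s) = w := by
    have h4 : (64 : ℚ⟦X⟧) = C (64 : ℚ) := (map_ofNat (C (R := ℚ)) 64).symm
    rw [hw, ← h4]
    ring
  rw [h2, h3] at h1
  rw [h1, hcm, sq, ← cmp_mul IdA_h IdA_h hXw]
  congr 1
  funext n
  exact (hcl n).symm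

end Pool.Agent.T33
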