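import Pool.Agent.T33.RtB
import Pool.Agent.T33.CmpB
import Pool.Agent.T33.Ana

/-! Project T33 (MP_9f27ff_nt), module Row (size 4): the first row of the Frobenius matrix modulo p ^ 3. -/

set_option autoImplicit false

namespace Pool.Agent.T33

open Finset PowerSeries
open Pool.Agent.ADC (cmp theta)

variable {p : ℕ} [Fact p.Prime]

/-- PROOF. w := X^a μ, t := 2⁻¹. Rt.frob: μ^p = fr μ + p η (height 2 p e), fr μ is a unit, ε := η (fr μ)⁻¹ (height 3 p e), w^p = fr w (1 + p ε). Blk: c1', c2' ; C0, C1, C2 := ∑_{n<p} C (c n) w^n, .. (height p e, Rt.comp).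
cmp_block3 and cmp_perturb3 (and cmp_expand: cmp c (fr w) = fr (cmp c w)), p^3 = 0:
c1 := (p ε - t p^2 ε^2) C0 + p C1, c2 := t p^2 ε^2 C0 + p^2 ε C1 + p^2 C2. -/
theorem row (h5 : 5 ≤ p) {c : ℕ → R3 p} (hc : Blk p c) {a e : ℕ} (ha : 0 < a) {μ : (R3 p)⟦X⟧} (hμ : IsUnit μ) (hR : Rt p e μ 1)
    (hw : Rt p e (X ^ a * μ) 1) : ∃ c1 c2 v1 v2, Rt p (12 * p * e) c1 v1 ∧ Rt p (12 * p * e) c2 v2 ∧
      cmp c (X ^ a * μ) = (∑ n ∈ range p, PowerSeries.C (c n) * (X ^ a * μ) ^ n) * fr p (cmp c (X ^ a * μ)) +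
        c1 * fr p (cmp (fun n => n * c n) (X ^ a * μ)) + c2 * fr p (cmp (fun n => n ^ 2 * c n) (X ^ a * μ)) := by
  have hp : p.Prime := Fact.out
  obtain ⟨d1, d2, hd⟩ := hc
  obtain ⟨η, v, hη, hμp, -⟩ := Rt.frob hR
  have hun : IsUnit (fr p μ) := hμ.map (fr p)
  obtain ⟨ν, hν⟩ := hun.exists_right_inv
  have hνR : Rt p (p * e) ν 1 := Rt.inv (Rt.fr hR) hν (by ring)
  have h3 : (p : R3 p) ^ 3 = 0 := r3_cube
  have ht : (2 : R3 p) * ((2 : ℕ) : R3 p)⁻¹ = 1 := by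
    have := r3_inv hp (x := 2) (fun h => by have := Nat.le_of_dvd (by norm_num) h; omega)
    exact_mod_cast this
  generalize ((2 : ℕ) : R3 p)⁻¹ = t at ht
  have hwX : (X : (R3 p)⟦X⟧) ∣ X ^ a * μ := dvd_mul_of_dvd_left (dvd_pow_self X ha.ne') μ
  have hfX : fr p (X ^ a : (R3 p)⟦X⟧) = X ^ (p * a) := by
    have : fr p (X : (R3 p)⟦X⟧) = X ^ p := PowerSeries.expand_X p hp.ne_zero
    rw [map_pow, this, ← pow_mul]
  have hWX : (X : (R3 p)⟦X⟧) ∣ fr p (X ^ a * μ) := by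
    rw [map_mul, hfX]
    exact dvd_mul_of_dvd_left (dvd_pow_self X (Nat.mul_pos hp.pos ha).ne') _
  have hwp : (X ^ a * μ) ^ p = fr p (X ^ a * μ) * (1 + PowerSeries.C (p : R3 p) * (η * ν)) := by
    rw [mul_pow, hμp, map_mul, hfX, ← pow_mul, mul_comm a p, map_natCast]
    linear_combination (-(X ^ (p * a) * (p : (R3 p)⟦X⟧) * η)) * hν
  have hεR : Rt p (2 * p * e + p * e) (η * ν) (v * 1) := Rt.mul hη hνR
  have hE : ∀ d : ℕ → R3 p, fr p (cmp d (X ^ a * μ)) = cmp d (fr p (X ^ a * μ)) := fun d =>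
    Pool.Agent.ADC.cmp_expand hp.ne_zero hwX
  generalize hε : η * ν = ε at *
  have hA0 : Rt p (p * e) (∑ n ∈ range p, PowerSeries.C (c n) * (X ^ a * μ) ^ n) (∑ n ∈ range p, c n * 1 ^ n) := Rt.comp hw p c
  have hA1 : Rt p (p * e) (∑ n ∈ range p, PowerSeries.C (d1 n) * (X ^ a * μ) ^ n) (∑ n ∈ range p, d1 n * 1 ^ n) := Rt.comp hw p d1
  have hA2 : Rt p (p * e) (∑ n ∈ range p, PowerSeries.C (d2 n) * (X ^ a * μ) ^ n) (∑ n ∈ range p, d2 n * 1 ^ n) := Rt.comp hw p d2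
  have hblock := cmp_block3 hp.pos hwX c d1 d2 (fun m n hn => hd m n hn)
  have P0 := cmp_perturb3 h3 ht hWX c ε
  have P1 := cmp_perturb3 h3 ht hWX (fun m => m * c m) ε
  have P2 := cmp_perturb3 h3 ht hWX (fun m => m ^ 2 * c m) ε
  have e1 : (fun m : ℕ => (m : R3 p) * ((m : R3 p) * c m)) = fun m : ℕ => (m : R3 p) ^ 2 * c m := by
    funext m; ring
  rw [← hwp] at P0 P1 P2
  rw [e1] at P1
  have h3' : (PowerSeries.C (p : R3 p)) ^ 3 = 0 := by rw [← map_pow, h3, map_zero]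
  generalize hS0 : (∑ n ∈ range p, PowerSeries.C (c n) * (X ^ a * μ) ^ n) = A0 at *
  generalize hS1 : (∑ n ∈ range p, PowerSeries.C (d1 n) * (X ^ a * μ) ^ n) = A1 at *
  generalize hS2 : (∑ n ∈ range p, PowerSeries.C (d2 n) * (X ^ a * μ) ^ n) = A2 at *
  have hpC : Rt p 0 (PowerSeries.C (p : R3 p)) p := Rt.C _
  have hp2C : Rt p 0 (PowerSeries.C ((p : R3 p) ^ 2)) (p ^ 2) := Rt.C _
  have htp2C : Rt p 0 (PowerSeries.C (t * (p : R3 p) ^ 2)) (t * p ^ 2) := Rt.C _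
  have hε2 := Rt.pow hεR 2
  have hc1 := (Rt.add (Rt.mul (Rt.sub (Rt.mul hpC hεR) (Rt.mul htp2C hε2)) hA0) (Rt.mul hpC hA1)).mono (e := 12 * p * e) (by ring_nf; nlinarith [Nat.zero_le (p * e)])
  have hc2 := (Rt.add (Rt.add (Rt.mul (Rt.mul htp2C hε2) hA0) (Rt.mul (Rt.mul hp2C hεR) hA1)) (Rt.mul hp2C hA2)).mono (e := 12 * p * e) (by ring_nf; nlinarith [Nat.zero_le (p * e)])
  refine ⟨_, _, _, _, hc1, hc2, ?_⟩
  · have k1 : PowerSeries.C (t * (p : R3 p) ^ 2) = PowerSeries.C t * PowerSeries.C (p : R3 p) ^ 2 := by rw [map_mul, map_pow]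
    have k2 : PowerSeries.C ((p : R3 p) ^ 2) = PowerSeries.C (p : R3 p) ^ 2 := by rw [map_pow]
    rw [hE, hE, hE, hblock, P0, P1, P2, k1, k2]
    clear P0 P1 P2 hblock hc1 hc2 hpC hp2C htp2C k1 k2 hwp
    generalize PowerSeries.C (p : R3 p) = q at *
    generalize PowerSeries.C t = s at *
    generalize cmp c (fr p (X ^ a * μ)) = Y0
    generalize cmp (fun m => (m : R3 p) * c m) (fr p (X ^ a * μ)) = Y1
    generalize cmp (fun m => (m : R3 p) ^ 2 * c m) (fr p (X ^ a * μ)) = Y2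
    generalize cmp (fun m => (m : R3 p) * ((m : R3 p) ^ 2 * c m)) (fr p (X ^ a * μ)) = Y3
    generalize cmp (fun m => (m : R3 p) ^ 2 * ((m : R3 p) * c m)) (fr p (X ^ a * μ)) = Y4
    generalize cmp (fun m => (m : R3 p) ^ 2 * ((m : R3 p) ^ 2 * c m)) (fr p (X ^ a * μ)) = Y5
    linear_combination (-(A1 * s * ε ^ 2 * Y2) + A1 * s * ε ^ 2 * Y4 + A2 * (ε - s * q * ε ^ 2) * Y3 + A2 * s * q * ε ^ 2 * Y5) * h3'

end Pool.Agent.T33
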