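import Pool.Agent.T33.RtA

/-! Project T33 (MP_9f27ff_nt), module RtB (size 4): Frobenius and derivation on rational functions. -/

set_option autoImplicit false

namespace Pool.Agent.T33

open Finset PowerSeries
open Pool.Agent.ADC (cmp theta)

variable {p d e : ℕ} {g h : (R3 p)⟦X⟧} {v w : R3 p}

theorem RtB_coe_expand [Fact p.Prime] (P : Polynomial (R3 p)) :
    fr p (P : (R3 p)⟦X⟧) = ((Polynomial.expand (R3 p) p P : Polynomial (R3 p)) : (R3 p)⟦X⟧) := by
  ext n
  have hp : p ≠ 0 := (Fact.out : p.Prime).ne_zero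
  rw [fr, PowerSeries.coeff_expand, Polynomial.coeff_coe, Polynomial.coeff_coe,
    Polynomial.coeff_expand (Nat.pos_of_ne_zero hp)]

theorem RtB_expand_coeff_zero [Fact p.Prime] (P : Polynomial (R3 p)) :
    (Polynomial.expand (R3 p) p P).coeff 0 = P.coeff 0 := by
  have hp : 0 < p := (Fact.out : p.Prime).pos
  rw [Polynomial.coeff_expand hp]
  simp

theorem RtB_expand_eval [Fact p.Prime] (P : Polynomial (R3 p)) :
    (Polynomial.expand (R3 p) p P).eval 1 = P.eval 1 := by
  rw [Polynomial.expand_eval, one_pow]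

/-- PROOF. Polynomial.expand; the coercion commutes with expand; the value at 1 is the same. -/
theorem Rt.fr [Fact p.Prime] (hg : Rt p d g v) : Rt p (p * d) (fr p g) v := by
  obtain ⟨P, Q, hP, hQ, u0, u1, hgQ, hv⟩ := hg
  refine ⟨Polynomial.expand (R3 p) p P, Polynomial.expand (R3 p) p Q, ?_, ?_, ?_, ?_, ?_, ?_⟩
  · rw [Polynomial.natDegree_expand, mul_comm]
    exact Nat.mul_le_mul_left p hP
  · rw [Polynomial.natDegree_expand, mul_comm]
    exact Nat.mul_le_mul_left p hQ
  · rw [RtB_expand_coeff_zero]; exact u0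
  · rw [RtB_expand_eval]; exact u1
  · rw [← RtB_coe_expand, ← RtB_coe_expand, ← map_mul, hgQ]
  · rw [RtB_expand_eval, RtB_expand_eval]; exact hv

theorem RtB_theta_coe (P : Polynomial (R3 p)) :
    theta (P : (R3 p)⟦X⟧) =
      ((Polynomial.X * Polynomial.derivative P : Polynomial (R3 p)) : (R3 p)⟦X⟧) := by
  ext n
  rw [theta, PowerSeries.coeff_mk, Polynomial.coeff_coe, Polynomial.coeff_coe]
  cases n with
  | zero => simp
  | succ n =>
    rw [Polynomial.coeff_X_mul, Polynomial.coeff_derivative]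
    push_cast
    ring

theorem RtB_natDegree_theta (P : Polynomial (R3 p)) :
    (Polynomial.X * Polynomial.derivative P).natDegree ≤ P.natDegree := by
  rw [Polynomial.natDegree_le_iff_coeff_eq_zero]
  intro n hn
  cases n with
  | zero => simp
  | succ n =>
    rw [Polynomial.coeff_X_mul, Polynomial.coeff_derivative,
      Polynomial.coeff_eq_zero_of_natDegree_lt hn, zero_mul]

/-- PROOF. Q g = P gives Q^2 theta g = Q theta P - theta Q P; theta of a polynomial is X * derivative. -/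
theorem Rt.theta (hg : Rt p d g v) : ∃ v', Rt p (2 * d) (Pool.Agent.ADC.theta g) v' := by
  obtain ⟨P, Q, hP, hQ, u0, u1, hgQ, hv⟩ := hg
  set N : Polynomial (R3 p) := Q * (Polynomial.X * Polynomial.derivative P) -
    (Polynomial.X * Polynomial.derivative Q) * P with hN
  have u2 : IsUnit ((Q ^ 2).eval 1) := by
    rw [Polynomial.eval_pow]; exact u1.pow 2
  obtain ⟨u, hu⟩ := u2
  refine ⟨(↑u⁻¹ : R3 p) * N.eval 1, N, Q ^ 2, ?_, ?_, ?_, ⟨u, hu⟩, ?_, ?_⟩
  · refine (Polynomial.natDegree_sub_le _ _).trans (max_le ?_ ?_)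
    · refine Polynomial.natDegree_mul_le.trans ?_
      have := RtB_natDegree_theta P
      omega
    · refine Polynomial.natDegree_mul_le.trans ?_
      have := RtB_natDegree_theta Q
      omega
  · exact Polynomial.natDegree_pow_le.trans (Nat.mul_le_mul_left 2 hQ)
  · rw [Polynomial.coeff_zero_eq_eval_zero, Polynomial.eval_pow,
      ← Polynomial.coeff_zero_eq_eval_zero]
    exact u0.pow 2
  · have h1 : Pool.Agent.ADC.theta ((Q : (R3 p)⟦X⟧) * g) = Pool.Agent.ADC.theta (P : (R3 p)⟦X⟧) := by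
      rw [hgQ]
    rw [Pool.Agent.ADC.theta_mul, RtB_theta_coe, RtB_theta_coe] at h1
    rw [hN]
    simp only [Polynomial.coe_sub, Polynomial.coe_mul, Polynomial.coe_pow] at h1 ⊢
    linear_combination (Q : (R3 p)⟦X⟧) * h1 -
      (((Polynomial.X : Polynomial (R3 p)) : (R3 p)⟦X⟧) *
        ((Polynomial.derivative Q : Polynomial (R3 p)) : (R3 p)⟦X⟧)) * hgQ
  · rw [← mul_assoc, ← hu]
    simp

theorem RtB_dvd [Fact p.Prime] (c : R3 p)
    (hc : ZMod.castHom (show p ∣ p ^ 3 from dvd_pow_self p (by norm_num)) (ZMod p) c = 0) :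
    ∃ c', c = (p : R3 p) * c' := by
  have : NeZero (p ^ 3) := ⟨pow_ne_zero 3 (Fact.out : p.Prime).ne_zero⟩
  have h1 : (c.val : ZMod p) = 0 := by
    have h2 : ((c.val : ℕ) : R3 p) = c := ZMod.natCast_zmod_val c
    rw [← h2, map_natCast] at hc
    exact hc
  rw [ZMod.natCast_eq_zero_iff] at h1
  obtain ⟨k, hk⟩ := h1
  refine ⟨k, ?_⟩
  have h2 : ((c.val : ℕ) : R3 p) = c := ZMod.natCast_zmod_val c
  rw [← h2, hk]
  push_cast
  ring

/-- For polynomials: PROOF. P^p - expand p P is divisible by p: modulo p it is ZMod.expand_card (coefficients in ZMod p). A polynomial over R3 p whose image over ZMod p is 0 is p times a polynomial of the same degree. -/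
theorem poly_frob [Fact p.Prime] (P : Polynomial (R3 p)) : ∃ P1 : Polynomial (R3 p), P1.natDegree ≤ p * P.natDegree ∧
    P ^ p = Polynomial.expand (R3 p) p P + (p : Polynomial (R3 p)) * P1 := by
  set φ := ZMod.castHom (show p ∣ p ^ 3 from dvd_pow_self p (by norm_num)) (ZMod p) with hφ
  set D := P ^ p - Polynomial.expand (R3 p) p P with hD
  have h0 : D.map φ = 0 := by
    rw [hD, Polynomial.map_sub, Polynomial.map_pow, Polynomial.map_expand, ZMod.expand_card,
      sub_self]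
  have hc : ∀ n, ∃ c', D.coeff n = (p : R3 p) * c' := by
    intro n
    apply RtB_dvd
    have h2 : (D.map φ).coeff n = 0 := by rw [h0]; simp
    rwa [Polynomial.coeff_map] at h2
  choose c' hc' using hc
  have hdeg : D.natDegree ≤ p * P.natDegree := by
    rw [hD]
    refine (Polynomial.natDegree_sub_le _ _).trans (max_le Polynomial.natDegree_pow_le ?_)
    rw [Polynomial.natDegree_expand, mul_comm]
  refine ⟨∑ n ∈ range (p * P.natDegree + 1), Polynomial.monomial n (c' n), ?_, ?_⟩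
  · refine Polynomial.natDegree_sum_le_of_forall_le _ _ fun n hn => ?_
    refine (Polynomial.natDegree_monomial_le _).trans ?_
    have := mem_range.1 hn
    omega
  · have h1 : D = (p : Polynomial (R3 p)) *
        ∑ n ∈ range (p * P.natDegree + 1), Polynomial.monomial n (c' n) := by
      ext n
      rw [← map_natCast (Polynomial.C (R := R3 p)), Polynomial.coeff_C_mul,
        Polynomial.finsetSum_coeff]
      simp only [Polynomial.coeff_monomial]
      rw [Finset.sum_ite_eq']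
      split_ifs with hn
      · exact hc' n
      · rw [mul_zero]
        apply Polynomial.coeff_eq_zero_of_natDegree_lt
        rw [mem_range] at hn
        omega
    rw [← h1, hD]
    ring

/-- PROOF. Q g = P, P^p = P' + p P1, Q^p = Q' + p Q1 (P' = expand P). Q^p Q' (g^p - fr g) = P^p Q' - P' Q^p = p (P1 Q' - P' Q1). η := (P1 Q' - P' Q1) (Q^p Q')^-1 (units of the power series ring), height 2 p d. -/
theorem Rt.frob [Fact p.Prime] (hg : Rt p d g v) : ∃ η w, Rt p (2 * p * d) η w ∧ g ^ p = Pool.Agent.T33.fr p g + (p : (R3 p)⟦X⟧) * η ∧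
    v ^ p = v + p * w := by
  obtain ⟨P, Q, hP, hQ, u0, u1, hgQ, hv⟩ := hg
  obtain ⟨P1, hP1, eP⟩ := poly_frob P
  obtain ⟨Q1, hQ1, eQ⟩ := poly_frob Q
  set P' := Polynomial.expand (R3 p) p P with hP'
  set Q' := Polynomial.expand (R3 p) p Q with hQ'
  have dP' : P'.natDegree ≤ p * d := by
    rw [hP', Polynomial.natDegree_expand, mul_comm]
    exact Nat.mul_le_mul_left p hP
  have dQ' : Q'.natDegree ≤ p * d := by
    rw [hQ', Polynomial.natDegree_expand, mul_comm]
    exact Nat.mul_le_mul_left p hQ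
  have dP1 : P1.natDegree ≤ p * d := hP1.trans (Nat.mul_le_mul_left p hP)
  have dQ1 : Q1.natDegree ≤ p * d := hQ1.trans (Nat.mul_le_mul_left p hQ)
  have dQp : (Q ^ p).natDegree ≤ p * d := Polynomial.natDegree_pow_le.trans (Nat.mul_le_mul_left p hQ)
  set D := Q ^ p * Q' with hD
  set N := P1 * Q' - P' * Q1 with hN
  have uD0 : IsUnit (D.coeff 0) := by
    rw [hD, Polynomial.mul_coeff_zero, hQ', RtB_expand_coeff_zero,
      Polynomial.coeff_zero_eq_eval_zero (Q ^ p), Polynomial.eval_pow,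
      ← Polynomial.coeff_zero_eq_eval_zero]
    exact (u0.pow p).mul u0
  have uD1 : IsUnit (D.eval 1) := by
    rw [hD, Polynomial.eval_mul, Polynomial.eval_pow, hQ', RtB_expand_eval]
    exact (u1.pow p).mul u1
  have uDs : IsUnit (D : (R3 p)⟦X⟧) := by
    rw [PowerSeries.isUnit_iff_constantCoeff, ← PowerSeries.coeff_zero_eq_constantCoeff_apply,
      Polynomial.coeff_coe]
    exact uD0
  obtain ⟨U, hU⟩ := uDs
  obtain ⟨u, hu⟩ := uD1
  have hfr : (Q' : (R3 p)⟦X⟧) * Pool.Agent.T33.fr p g = P' := by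
    rw [hQ', hP', ← RtB_coe_expand, ← RtB_coe_expand, ← map_mul, hgQ]
  have hgp : (Q : (R3 p)⟦X⟧) ^ p * g ^ p = (P : (R3 p)⟦X⟧) ^ p := by
    rw [← mul_pow, hgQ]
  have hpc : (((p : ℕ) : Polynomial (R3 p)) : (R3 p)⟦X⟧) = ((p : ℕ) : (R3 p)⟦X⟧) :=
    map_natCast (Polynomial.coeToPowerSeries.ringHom (R := R3 p)) p
  have ePs : (P : (R3 p)⟦X⟧) ^ p = P' + (p : (R3 p)⟦X⟧) * P1 := by
    have := congrArg (fun q : Polynomial (R3 p) => (q : (R3 p)⟦X⟧)) eP
    simpa [hpc] using this
  have eQs : (Q : (R3 p)⟦X⟧) ^ p = Q' + (p : (R3 p)⟦X⟧) * Q1 := by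
    have := congrArg (fun q : Polynomial (R3 p) => (q : (R3 p)⟦X⟧)) eQ
    simpa [hpc] using this
  have hη : (D : (R3 p)⟦X⟧) * ((↑U⁻¹ : (R3 p)⟦X⟧) * (N : (R3 p)⟦X⟧)) = N := by
    rw [← mul_assoc, ← hU, Units.mul_inv, one_mul]
  have hw : D.eval 1 * ((↑u⁻¹ : R3 p) * N.eval 1) = N.eval 1 := by
    rw [← mul_assoc, ← hu, Units.mul_inv, one_mul]
  refine ⟨(↑U⁻¹ : (R3 p)⟦X⟧) * (N : (R3 p)⟦X⟧), (↑u⁻¹ : R3 p) * N.eval 1,
    ⟨N, D, ?_, ?_, uD0, ⟨u, hu⟩, hη, hw⟩, ?_, ?_⟩
  · refine (Polynomial.natDegree_sub_le _ _).trans (max_le ?_ ?_)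
    · refine Polynomial.natDegree_mul_le.trans ?_
      have : 2 * p * d = p * d + p * d := by ring
      omega
    · refine Polynomial.natDegree_mul_le.trans ?_
      have : 2 * p * d = p * d + p * d := by ring
      omega
  · refine Polynomial.natDegree_mul_le.trans ?_
    have : 2 * p * d = p * d + p * d := by ring
    omega
  · have h1 : (D : (R3 p)⟦X⟧) * g ^ p = (D : (R3 p)⟦X⟧) *
        (Pool.Agent.T33.fr p g + (p : (R3 p)⟦X⟧) * ((↑U⁻¹ : (R3 p)⟦X⟧) * (N : (R3 p)⟦X⟧))) := by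
      have hDs : (D : (R3 p)⟦X⟧) = (Q : (R3 p)⟦X⟧) ^ p * Q' := by
        rw [hD]; simp
      have hNs : (N : (R3 p)⟦X⟧) = P1 * Q' - P' * Q1 := by
        rw [hN]; simp
      have h2 : (D : (R3 p)⟦X⟧) *
        (Pool.Agent.T33.fr p g + (p : (R3 p)⟦X⟧) * ((↑U⁻¹ : (R3 p)⟦X⟧) * (N : (R3 p)⟦X⟧))) =
          (D : (R3 p)⟦X⟧) * Pool.Agent.T33.fr p g + (p : (R3 p)⟦X⟧) * (N : (R3 p)⟦X⟧) := by
        rw [mul_add]
        congr 1
        rw [mul_left_comm, hη]
      rw [h2, hDs, hNs]
      linear_combination (Q' : (R3 p)⟦X⟧) * hgp + (Q' : (R3 p)⟦X⟧) * ePs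
        - (P' : (R3 p)⟦X⟧) * eQs - (Q : (R3 p)⟦X⟧) ^ p * hfr
    rw [← hU] at h1
    exact (Units.mul_right_inj U).1 h1
  · have h1 : D.eval 1 * v ^ p = D.eval 1 * (v + p * ((↑u⁻¹ : R3 p) * N.eval 1)) := by
      have h2 : D.eval 1 * (v + p * ((↑u⁻¹ : R3 p) * N.eval 1)) = D.eval 1 * v + p * N.eval 1 := by
        rw [mul_add]
        congr 1
        rw [mul_left_comm, hw]
      have e1 : (Q.eval 1) ^ p * v ^ p = (P.eval 1) ^ p := by rw [← mul_pow, hv]
      have e2 : (P.eval 1) ^ p = P.eval 1 + p * P1.eval 1 := by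
        have := congrArg (fun q : Polynomial (R3 p) => q.eval 1) eP
        simp only [Polynomial.eval_pow, Polynomial.eval_add, Polynomial.eval_mul,
          Polynomial.eval_natCast, hP', RtB_expand_eval] at this
        exact this
      have e3 : (Q.eval 1) ^ p = Q.eval 1 + p * Q1.eval 1 := by
        have := congrArg (fun q : Polynomial (R3 p) => q.eval 1) eQ
        simp only [Polynomial.eval_pow, Polynomial.eval_add, Polynomial.eval_mul,
          Polynomial.eval_natCast, hQ', RtB_expand_eval] at this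
        exact this
      have e4 : D.eval 1 = (Q.eval 1) ^ p * Q.eval 1 := by
        rw [hD, Polynomial.eval_mul, Polynomial.eval_pow, hQ', RtB_expand_eval]
      have e5 : N.eval 1 = P1.eval 1 * Q.eval 1 - P.eval 1 * Q1.eval 1 := by
        rw [hN, Polynomial.eval_sub, Polynomial.eval_mul, Polynomial.eval_mul, hQ', hP',
          RtB_expand_eval, RtB_expand_eval]
      rw [h2, e4, e5]
      linear_combination (Q.eval 1) * e1 + (Q.eval 1) * e2 - (P.eval 1) * e3 - (Q.eval 1) ^ p * hv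
    rw [← hu] at h1
    exact (Units.mul_right_inj u).1 h1

end Pool.Agent.T33
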